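import Pool.Agent.Lib.MP_5c0a14_an.Defs

section

/-!
# UDefs : the functions of the upper bound `α* < 479/1000`

Everything lives in the coordinate `S = N (π/2 + i log z)`, `S.re = N (π/2 - arg z) > 0`,
`S.im = N log |z|`, and is `2π`-periodic in `S.im`.
* `omI S`: harmonic measure of the gaps `|x| < π/4` (mod `2π`) of the boundary line;
* `AA w`: `log |w + √(w² + 1)|`, the Green function of the complement of the segment `[-i, i]`,
  written with the confocal coordinate `(|w - i| + |w + i|) / 2`;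
* `vv N ε z`: boundary value `1` outside the gaps, plates of half-width `π/4` hovering at height
  `hh / N` over the gaps, minus a linear term which makes it almost `0` on the lower boundary.
-/

noncomputable section

open MeasureTheory Set Metric

namespace HallHP

/-- Harmonic measure of the gaps. -/
def omI (S : ℂ) : ℝ :=
  1 / Real.pi * Complex.arg
    ⟨Real.cosh S.re - Real.sqrt 2 * Real.cos S.im, Real.sinh S.re⟩

/-- Half the sum of the distances to `i` and `-i`. -/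
def cc (w : ℂ) : ℝ := (‖w - Complex.I‖ + ‖w + Complex.I‖) / 2

/-- Green function of the complement of the segment `[-i, i]`. -/
def AA (w : ℂ) : ℝ := Real.log (cc w + Real.sqrt (cc w ^ 2 - 1))

/-- Height of the plates. -/
def hh : ℝ := Real.log 25

/-- `sin (π/8)`. -/
def s0 : ℝ := Real.sin (Real.pi / 8)

/-- `sinh hh / sin (π/8)`. -/
def kap : ℝ := Real.sinh hh / s0

/-- The charge of the plates. -/
def qq : ℝ :=
  (1 / Real.pi * Real.arctan (Real.sinh hh / (Real.cosh hh - Real.sqrt 2))) /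
    Real.log (kap + Real.sqrt (kap ^ 2 - 1))

/-- The value of the configuration at height infinity. -/
def Vi : ℝ := 3 / 4 + qq * hh

/-- The coordinate `S`. -/
def SS (N : ℝ) (z : ℂ) : ℂ := (N : ℂ) * ((Real.pi / 2 : ℝ) + Complex.I * Complex.log z)

/-- The potential of the plates. -/
def PPl (S : ℂ) : ℝ :=
  qq * (AA (Complex.sinh ((S + hh) / 2) / s0) - AA (Complex.sinh ((S - hh) / 2) / s0))

/-- The function of the upper bound. -/
def vv (N ε : ℝ) (z : ℂ) : ℝ :=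
  1 - omI (SS N z) + PPl (SS N z) - Vi / Real.pi * (Real.pi / 2 - Complex.arg z) + ε

end HallHP

end
end

section

section

/-!
# UA : the function `AA`

`cc w ≥ 1` (triangle inequality: `‖w - I‖ + ‖w + I‖ ≥ ‖2 I‖`), so `AA` is continuous and `≥ 0`.
* `cc w ≥ ‖w‖` (triangle inequality) and `cc w ^ 2 ≤ (‖w - I‖² + ‖w + I‖²)/2 = ‖w‖² + 1`;
  `x ↦ log (x + √(x² - 1))` is nondecreasing on `[1, ∞)`.
* `AA_mono`: `‖w ∓ I‖² = w.re² + (w.im ∓ 1)²`; the sum of the two distances is nondecreasing in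
  `|w.re|` and (even and convex in `w.im`) in `|w.im|`. Algebraic form:
  `(2 cc w)² = 2 ‖w‖² + 2 + 2 ‖w² + 1‖` and
  `‖w² + 1‖² = (x² + y²)² + 2 (x² - y²) + 1`; alternatively for `0 ≤ y ≤ y'` write `y` as a convex
  combination of `y'` and `-y'`.
* `AA_eq_log`: for `w ≠ 0` put `J = w (1 + √(1 + 1/w²))` (principal square root,
  `Complex.cpow _ (1/2)`), then `w (√(1 + 1/w²) - 1) = 1 / J`, `2 w = J - 1/J`, hence
  `w - I = (J - I)² / (2 J)`, `w + I = (J + I)² / (2 J)` and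
  `2 cc w = (‖J - I‖² + ‖J + I‖²) / (2 ‖J‖) = ‖J‖ + 1/‖J‖`; `‖J‖ ≥ 1` because
  `Re √ ≥ 0` gives `‖1 + √‖ ≥ ‖√ - 1‖`. So `cc w + √(cc w ² - 1) = ‖J‖`.
* `AA_comp_harm`: near `z` we have `g ≠ 0` and `1 + 1/g²` in the slit plane (it is `≤ 0` exactly for
  `g ∈ [-i, i]`, `g ≠ 0`), `J ∘ g` is analytic and `≠ 0`; `AnalyticAt.harmonicAt_log_norm`.
-/

noncomputable section

open MeasureTheory Set Metric

namespace HallHP

theorem one_le_cc (w : ℂ) : 1 ≤ cc w := by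
  have h := norm_sub_le (w + Complex.I) (w - Complex.I)
  have h2 : (w + Complex.I) - (w - Complex.I) = 2 * Complex.I := by ring
  rw [h2] at h
  simp only [norm_mul, Complex.norm_I, mul_one, Complex.norm_ofNat] at h
  unfold cc
  linarith

private theorem norm_le_cc (w : ℂ) : ‖w‖ ≤ cc w := by
  have h := norm_add_le (w - Complex.I) (w + Complex.I)
  have h2 : (w - Complex.I) + (w + Complex.I) = 2 * w := by ring
  rw [h2] at h
  simp only [norm_mul, Complex.norm_ofNat] at h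
  unfold cc
  linarith

private theorem sumsq (w : ℂ) :
    ‖w - Complex.I‖ ^ 2 + ‖w + Complex.I‖ ^ 2 = 2 * ‖w‖ ^ 2 + 2 := by
  rw [Complex.sq_norm, Complex.sq_norm, Complex.sq_norm]
  simp only [Complex.normSq_apply, Complex.sub_re, Complex.sub_im, Complex.add_re, Complex.add_im,
    Complex.I_re, Complex.I_im]
  ring

private theorem cc_sq_le (w : ℂ) : cc w ^ 2 ≤ ‖w‖ ^ 2 + 1 := by
  have h := sumsq w
  unfold cc
  nlinarith [sq_nonneg (‖w - Complex.I‖ - ‖w + Complex.I‖)]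

private theorem base_mono {x y : ℝ} (hx : 1 ≤ x) (hxy : x ≤ y) :
    Real.log (x + Real.sqrt (x ^ 2 - 1)) ≤ Real.log (y + Real.sqrt (y ^ 2 - 1)) := by
  apply Real.log_le_log
  · have := Real.sqrt_nonneg (x ^ 2 - 1)
    linarith
  · have : Real.sqrt (x ^ 2 - 1) ≤ Real.sqrt (y ^ 2 - 1) := by
      apply Real.sqrt_le_sqrt
      nlinarith
    linarith

theorem AA_cont : Continuous AA := by
  have hcc : Continuous cc := by
    unfold cc
    fun_prop
  unfold AA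
  apply Continuous.log
  · exact hcc.add (Real.continuous_sqrt.comp ((hcc.pow 2).sub continuous_const))
  · intro w
    have h1 := one_le_cc w
    have h2 := Real.sqrt_nonneg (cc w ^ 2 - 1)
    linarith

theorem AA_nonneg (w : ℂ) : 0 ≤ AA w := by
  unfold AA
  apply Real.log_nonneg
  have h1 := one_le_cc w
  have h2 := Real.sqrt_nonneg (cc w ^ 2 - 1)
  linarith

theorem AA_seg {t : ℝ} (ht : |t| ≤ 1) : AA ((t : ℂ) * Complex.I) = 0 := by
  have h1 : ((t : ℂ) * Complex.I - Complex.I) = ((t - 1 : ℝ) : ℂ) * Complex.I := by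
    push_cast
    ring
  have h2 : ((t : ℂ) * Complex.I + Complex.I) = ((t + 1 : ℝ) : ℂ) * Complex.I := by
    push_cast
    ring
  obtain ⟨h3, h4⟩ := abs_le.1 ht
  have hc : cc ((t : ℂ) * Complex.I) = 1 := by
    unfold cc
    rw [h1, h2, norm_mul, norm_mul, Complex.norm_I, Complex.norm_real, Complex.norm_real,
      Real.norm_eq_abs, Real.norm_eq_abs, abs_of_nonpos (by linarith : t - 1 ≤ 0),
      abs_of_nonneg (by linarith : 0 ≤ t + 1)]
    ring
  unfold AA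
  rw [hc]
  simp

theorem AA_ge {w : ℂ} (hw : 1 ≤ ‖w‖) : Real.log (‖w‖ + Real.sqrt (‖w‖ ^ 2 - 1)) ≤ AA w := by
  unfold AA
  exact base_mono hw (norm_le_cc w)

theorem AA_le (w : ℂ) : AA w ≤ Real.log (‖w‖ + Real.sqrt (‖w‖ ^ 2 + 1)) := by
  unfold AA
  have h1 := one_le_cc w
  have h0 := cc_sq_le w
  have h2 : cc w ≤ Real.sqrt (‖w‖ ^ 2 + 1) := Real.le_sqrt_of_sq_le h0
  have h3 : Real.sqrt (cc w ^ 2 - 1) ≤ ‖w‖ := by
    rw [show ‖w‖ = Real.sqrt (‖w‖ ^ 2) from (Real.sqrt_sq (norm_nonneg w)).symm]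
    apply Real.sqrt_le_sqrt
    linarith
  apply Real.log_le_log
  · have := Real.sqrt_nonneg (cc w ^ 2 - 1)
    linarith
  · linarith

private theorem convex_comb {x x' : ℝ} (h : |x| ≤ |x'|) :
    ∃ a b : ℝ, 0 ≤ a ∧ 0 ≤ b ∧ a + b = 1 ∧ x = a * x' + b * (-x') := by
  by_cases h0 : x' = 0
  · subst h0
    rw [abs_zero] at h
    have : x = 0 := abs_nonpos_iff.1 h
    exact ⟨1, 0, by norm_num, by norm_num, by norm_num, by rw [this]; ring⟩
  · have hpos : 0 < |x'| := abs_pos.2 h0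
    have hq : |x / x'| ≤ 1 := by
      rw [abs_div, div_le_one hpos]
      exact h
    obtain ⟨h3, h4⟩ := abs_le.1 hq
    refine ⟨(1 + x / x') / 2, (1 - x / x') / 2, by linarith, by linarith, by ring, ?_⟩
    field_simp
    ring

private theorem norm_refl_re (x y c : ℝ) : ‖(⟨-x, y⟩ : ℂ) - c * Complex.I‖ =
    ‖(⟨x, y⟩ : ℂ) - c * Complex.I‖ := by
  rw [Complex.norm_def, Complex.norm_def]
  congr 1
  simp [Complex.normSq_apply]

private theorem norm_refl_im (x y c : ℝ) : ‖(⟨x, -y⟩ : ℂ) - c * Complex.I‖ =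
    ‖(⟨x, y⟩ : ℂ) + c * Complex.I‖ := by
  rw [Complex.norm_def, Complex.norm_def]
  congr 1
  simp [Complex.normSq_apply]
  ring

private theorem cc_mono_re {x x' y : ℝ} (h : |x| ≤ |x'|) : cc ⟨x, y⟩ ≤ cc ⟨x', y⟩ := by
  obtain ⟨a, b, ha, hb, hab, hx⟩ := convex_comb h
  have key : ∀ c : ℝ, ‖(⟨x, y⟩ : ℂ) - c * Complex.I‖ ≤ ‖(⟨x', y⟩ : ℂ) - c * Complex.I‖ := by
    intro c
    have e : (⟨x, y⟩ : ℂ) - c * Complex.I =
        (a : ℂ) * ((⟨x', y⟩ : ℂ) - c * Complex.I) + (b : ℂ) * ((⟨-x', y⟩ : ℂ) - c * Complex.I) := by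
      have hb' : b = 1 - a := by linarith
      apply Complex.ext
      · simp [hx]
      · simp [hb']
        ring
    rw [e]
    refine (norm_add_le _ _).trans ?_
    rw [norm_mul, norm_mul, norm_refl_re, Complex.norm_real, Complex.norm_real, Real.norm_eq_abs,
      Real.norm_eq_abs, abs_of_nonneg ha, abs_of_nonneg hb, ← add_mul, hab, one_mul]
  have k1 := key 1
  have k2 := key (-1)
  simp only [Complex.ofReal_one, one_mul, Complex.ofReal_neg, neg_mul, sub_neg_eq_add] at k1 k2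
  unfold cc
  linarith

private theorem cc_mono_im {x y y' : ℝ} (h : |y| ≤ |y'|) : cc ⟨x, y⟩ ≤ cc ⟨x, y'⟩ := by
  obtain ⟨a, b, ha, hb, hab, hx⟩ := convex_comb h
  have key : ∀ c : ℝ, ‖(⟨x, y⟩ : ℂ) - c * Complex.I‖ ≤
      a * ‖(⟨x, y'⟩ : ℂ) - c * Complex.I‖ + b * ‖(⟨x, y'⟩ : ℂ) + c * Complex.I‖ := by
    intro c
    have e : (⟨x, y⟩ : ℂ) - c * Complex.I =
        (a : ℂ) * ((⟨x, y'⟩ : ℂ) - c * Complex.I) + (b : ℂ) * ((⟨x, -y'⟩ : ℂ) - c * Complex.I) := by
      have hb' : b = 1 - a := by linarith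
      apply Complex.ext
      · simp [hb']
        ring
      · simp [hx, hb']
        ring
    rw [e]
    refine (norm_add_le _ _).trans ?_
    rw [norm_mul, norm_mul, norm_refl_im, Complex.norm_real, Complex.norm_real, Real.norm_eq_abs,
      Real.norm_eq_abs, abs_of_nonneg ha, abs_of_nonneg hb]
  have k1 := key 1
  have k2 := key (-1)
  simp only [Complex.ofReal_one, one_mul, Complex.ofReal_neg, neg_mul, sub_neg_eq_add,
    ← sub_eq_add_neg] at k1 k2
  unfold cc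
  have hs : ‖(⟨x, y⟩ : ℂ) - Complex.I‖ + ‖(⟨x, y⟩ : ℂ) + Complex.I‖ ≤
      (a + b) * (‖(⟨x, y'⟩ : ℂ) - Complex.I‖ + ‖(⟨x, y'⟩ : ℂ) + Complex.I‖) := by
    nlinarith
  rw [hab, one_mul] at hs
  linarith

theorem AA_mono {w w' : ℂ} (hre : |w.re| ≤ |w'.re|) (him : |w.im| ≤ |w'.im|) : AA w ≤ AA w' := by
  unfold AA
  apply base_mono (one_le_cc w)
  have h1 : cc ⟨w.re, w.im⟩ ≤ cc ⟨w'.re, w.im⟩ := cc_mono_re hre
  have h2 : cc ⟨w'.re, w.im⟩ ≤ cc ⟨w'.re, w'.im⟩ := cc_mono_im him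
  exact h1.trans h2

/-- The principal square root. -/
private def sq2 (z : ℂ) : ℂ := Complex.exp (Complex.log z / 2)

private theorem sq2_sq {z : ℂ} (hz : z ≠ 0) : sq2 z ^ 2 = z := by
  unfold sq2
  rw [← Complex.exp_nat_mul]
  have : ((2 : ℕ) : ℂ) * (Complex.log z / 2) = Complex.log z := by
    push_cast
    ring
  rw [this, Complex.exp_log hz]

private theorem sq2_re (z : ℂ) : 0 ≤ (sq2 z).re := by
  unfold sq2
  rw [Complex.exp_re]
  apply mul_nonneg (Real.exp_pos _).le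
  have h1 : (Complex.log z / 2).im = Complex.arg z / 2 := by
    rw [show (Complex.log z / 2) = Complex.log z / ((2 : ℝ) : ℂ) by norm_num,
      Complex.div_ofReal_im, Complex.log_im]
  rw [h1]
  apply Real.cos_nonneg_of_neg_pi_div_two_le_of_le
  · have := Complex.neg_pi_lt_arg z
    linarith
  · have := Complex.arg_le_pi z
    linarith

/-- The Joukowski coordinate. -/
private def JJ (w : ℂ) : ℂ := w * (1 + sq2 (1 + 1 / w ^ 2))

private theorem JJ_mul {w : ℂ} (hw : w ≠ 0) (h1 : 1 + 1 / w ^ 2 ≠ 0) :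
    JJ w * (w * (sq2 (1 + 1 / w ^ 2) - 1)) = 1 := by
  have hs := sq2_sq h1
  unfold JJ
  generalize sq2 (1 + 1 / w ^ 2) = s at hs ⊢
  have : w * (1 + s) * (w * (s - 1)) = w ^ 2 * (s ^ 2 - 1) := by ring
  rw [this, hs]
  field_simp
  ring

private theorem AA_eq_log {w : ℂ} (hw : w ≠ 0) (h1 : 1 + 1 / w ^ 2 ≠ 0) :
    AA w = Real.log ‖JJ w‖ := by
  have hmul := JJ_mul hw h1
  have hJ0 : JJ w ≠ 0 := by
    intro h
    rw [h, zero_mul] at hmul
    exact zero_ne_one hmul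
  have hinv : w * (sq2 (1 + 1 / w ^ 2) - 1) = (JJ w)⁻¹ := eq_inv_of_mul_eq_one_right hmul
  have hge : 1 ≤ ‖JJ w‖ := by
    have hn : ‖w * (sq2 (1 + 1 / w ^ 2) - 1)‖ ≤ ‖JJ w‖ := by
      unfold JJ
      rw [norm_mul, norm_mul]
      apply mul_le_mul_of_nonneg_left _ (norm_nonneg w)
      have hr := sq2_re (1 + 1 / w ^ 2)
      generalize sq2 (1 + 1 / w ^ 2) = s at hr ⊢
      refine le_of_sq_le_sq ?_ (norm_nonneg _)
      rw [Complex.sq_norm, Complex.sq_norm]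
      simp only [Complex.normSq_apply, Complex.sub_re, Complex.sub_im, Complex.add_re,
        Complex.add_im, Complex.one_re, Complex.one_im]
      nlinarith
    rw [hinv, norm_inv] at hn
    have hp : 0 < ‖JJ w‖ := norm_pos_iff.2 hJ0
    by_contra hlt
    push Not at hlt
    have : 1 < ‖JJ w‖⁻¹ := (one_lt_inv₀ hp).2 hlt
    linarith
  have h2w : w = (JJ w - (JJ w)⁻¹) / 2 := by
    rw [← hinv]
    unfold JJ
    ring
  generalize hJ : JJ w = J at hJ0 hge h2w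
  have hp : 0 < ‖J‖ := norm_pos_iff.2 hJ0
  have hwm : w - Complex.I = (J - Complex.I) ^ 2 / (2 * J) := by
    rw [h2w]
    field_simp
    ring_nf
    rw [Complex.I_sq]
    ring
  have hwp : w + Complex.I = (J + Complex.I) ^ 2 / (2 * J) := by
    rw [h2w]
    field_simp
    ring_nf
    rw [Complex.I_sq]
    ring
  have hcc : cc w = (‖J‖ + ‖J‖⁻¹) / 2 := by
    unfold cc
    rw [hwm, hwp, norm_div, norm_div, norm_pow, norm_pow, norm_mul, Complex.norm_ofNat, ← add_div,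
      sumsq]
    field_simp
  unfold AA
  rw [hcc]
  have hsq : ((‖J‖ + ‖J‖⁻¹) / 2) ^ 2 - 1 = ((‖J‖ - ‖J‖⁻¹) / 2) ^ 2 := by
    field_simp
    ring
  rw [hsq, Real.sqrt_sq]
  · congr 1
    ring
  · have : ‖J‖⁻¹ ≤ 1 := inv_le_one_of_one_le₀ hge
    linarith

private theorem seg_of {w : ℂ} (hw : w ≠ 0) (h : 1 + 1 / w ^ 2 ∉ Complex.slitPlane) :
    ∃ t : ℝ, |t| ≤ 1 ∧ w = (t : ℂ) * Complex.I := by
  rw [Complex.mem_slitPlane_iff] at h
  push Not at h
  obtain ⟨hre, him⟩ := h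
  set q : ℂ := 1 + 1 / w ^ 2 with hq
  -- `w² (q - 1) = 1`
  have hq1 : w ^ 2 * (q - 1) = 1 := by
    rw [hq]
    field_simp
    ring
  have hqr : q = (q.re : ℂ) := by
    apply Complex.ext
    · simp
    · simp [him]
  set a : ℝ := q.re with ha
  have hw2 : w ^ 2 * ((a - 1 : ℝ) : ℂ) = 1 := by
    rw [hqr] at hq1
    push_cast
    exact hq1
  have hR := congrArg Complex.re hw2
  have hI := congrArg Complex.im hw2
  rw [Complex.re_mul_ofReal, pow_two, Complex.mul_re, Complex.one_re] at hR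
  rw [Complex.im_mul_ofReal, pow_two, Complex.mul_im, Complex.one_im] at hI
  have ha1 : a - 1 ≠ 0 := by linarith
  have hxy : w.re * w.im = 0 := by
    have : w.re * w.im + w.im * w.re = 0 := by
      rcases mul_eq_zero.1 hI with h | h
      · exact h
      · exact absurd h ha1
    linarith
  have hx : w.re = 0 := by
    rcases mul_eq_zero.1 hxy with h | h
    · exact h
    · exfalso
      rw [h] at hR
      nlinarith [sq_nonneg w.re]
  refine ⟨w.im, ?_, ?_⟩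
  · rw [hx] at hR
    rw [abs_le_one_iff_mul_self_le_one]
    nlinarith [mul_self_nonneg w.im]
  · apply Complex.ext
    · simp [hx]
    · simp

theorem AA_comp_harm {g : ℂ → ℂ} {z : ℂ} (hg : AnalyticAt ℂ g z)
    (hz : ¬ ∃ t : ℝ, |t| ≤ 1 ∧ g z = (t : ℂ) * Complex.I) :
    InnerProductSpace.HarmonicAt (fun z' => AA (g z')) z := by
  have hg0 : g z ≠ 0 := by
    intro h
    exact hz ⟨0, by simp, by simp [h]⟩
  have hslit : 1 + 1 / g z ^ 2 ∈ Complex.slitPlane := by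
    by_contra h
    exact hz (seg_of hg0 h)
  have hinner : AnalyticAt ℂ (fun z' => 1 + 1 / g z' ^ 2) z :=
    analyticAt_const.add (analyticAt_const.div (hg.pow 2) (pow_ne_zero 2 hg0))
  have hJan : AnalyticAt ℂ (fun z' => JJ (g z')) z := by
    unfold JJ sq2
    refine hg.mul (analyticAt_const.add (AnalyticAt.cexp ?_))
    exact (hinner.clog hslit).div analyticAt_const two_ne_zero
  have hJ0 : JJ (g z) ≠ 0 := by
    intro h
    have := JJ_mul hg0 (Complex.slitPlane_ne_zero hslit)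
    rw [h, zero_mul] at this
    exact zero_ne_one this
  have hh := hJan.harmonicAt_log_norm hJ0
  have hev : (fun z' => AA (g z')) =ᶠ[nhds z] fun z' => Real.log ‖JJ (g z')‖ := by
    have e1 : ∀ᶠ z' in nhds z, g z' ≠ 0 := hg.continuousAt.eventually_ne hg0
    have e2 : ∀ᶠ z' in nhds z, 1 + 1 / g z' ^ 2 ∈ Complex.slitPlane :=
      hinner.continuousAt.eventually_mem (Complex.isOpen_slitPlane.mem_nhds hslit)
    filter_upwards [e1, e2] with z' h1 h2
    exact AA_eq_log h1 (Complex.slitPlane_ne_zero h2)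
  exact (InnerProductSpace.harmonicAt_congr_nhds hev).2 hh

end HallHP

end
end

section

/-!
# UNum : numerical facts

`sinh (log 25) = 312/25`, `cosh (log 25) = 313/25`, `s0 = √(2 - √2) / 2 ∈ (0.38268, 0.38269)`,
`kap ≈ 32.6118`, `log (kap + √(kap² - 1)) ≈ 4.17759`, `arctan (12.48 / (12.52 - √2)) ≈ 0.84363`,
`qq * hh ≈ 0.206909 < 0.208`. So `Vi ≈ 0.956909 < 0.958`.
-/

noncomputable section

open MeasureTheory Set Metric

namespace HallHP

private theorem sqrt2_gt : (1.4142 : ℝ) < Real.sqrt 2 := by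
  rw [Real.lt_sqrt (by norm_num)]
  norm_num

private theorem sqrt2_lt : Real.sqrt 2 < (1.41422 : ℝ) := by
  rw [Real.sqrt_lt' (by norm_num)]
  norm_num

theorem sinh_hh : Real.sinh hh = 312 / 25 := by
  rw [hh, Real.sinh_log (by norm_num)]
  norm_num

theorem cosh_hh : Real.cosh hh = 313 / 25 := by
  rw [hh, Real.cosh_log (by norm_num)]
  norm_num

theorem s0_pos : 0 < s0 := by
  apply Real.sin_pos_of_pos_of_lt_pi
  · positivity
  · linarith [Real.pi_pos]

private theorem s0_lt' : s0 < 0.38269 := by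
  rw [s0, Real.sin_pi_div_eight]
  have h1 := sqrt2_gt
  have h2 : Real.sqrt (2 - Real.sqrt 2) < 0.76538 := by
    rw [Real.sqrt_lt' (by norm_num)]
    norm_num
    norm_num at h1
    linarith
  linarith

theorem s0_lt : s0 < 1 / 2 := by
  have := s0_lt'
  linarith

theorem two_s0_sq : 2 * s0 ^ 2 = 1 - Real.sqrt 2 / 2 := by
  rw [s0, Real.sin_sq_eq_half_sub]
  have h1 : 2 * (Real.pi / 8) = Real.pi / 4 := by ring
  rw [h1, Real.cos_pi_div_four]
  ring

private theorem kap_gt : 32.61 < kap := by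
  have h1 := s0_pos
  have h2 := s0_lt'
  rw [kap, sinh_hh, lt_div_iff₀ h1]
  norm_num at h2 ⊢
  linarith

theorem one_lt_kap : 1 < kap := by
  have := kap_gt
  linarith

private theorem sum_gt : 65.2 < kap + Real.sqrt (kap ^ 2 - 1) := by
  have h1 := kap_gt
  have h2 : 32.59 < Real.sqrt (kap ^ 2 - 1) := by
    rw [Real.lt_sqrt (by norm_num)]
    norm_num at h1 ⊢
    nlinarith
  linarith

private theorem log_gt : 4.177 < Real.log (kap + Real.sqrt (kap ^ 2 - 1)) := by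
  have h1 := sum_gt
  have h2 : Real.log 65.2 < Real.log (kap + Real.sqrt (kap ^ 2 - 1)) :=
    Real.log_lt_log (by norm_num) h1
  have h3 : Real.log 65.2 = 6 * Real.log 2 + Real.log 1.01875 := by
    have : (65.2 : ℝ) = 2 ^ 6 * 1.01875 := by norm_num
    rw [this, Real.log_mul (by norm_num) (by norm_num), Real.log_pow]
    norm_num
  have h4 : 1 - (1.01875 : ℝ)⁻¹ ≤ Real.log 1.01875 :=
    Real.one_sub_inv_le_log_of_pos (by norm_num)
  have h5 := Real.log_two_gt_d9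
  norm_num at h3 h4 h5 h2 ⊢
  linarith

private theorem hh_lt : hh < 3.2191 := by
  rw [hh]
  have h1 : (3 : ℝ) * Real.log 5 = 7 * Real.log 2 + Real.log (125 / 128) := by
    have h2 : (5 : ℝ) ^ 3 = 2 ^ 7 * (125 / 128) := by norm_num
    have h3 := congrArg Real.log h2
    rw [Real.log_mul (by norm_num) (by norm_num), Real.log_pow, Real.log_pow] at h3
    push_cast at h3
    exact h3
  have h2 : Real.log (125 / 128) ≤ 125 / 128 - 1 := Real.log_le_sub_one_of_pos (by norm_num)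
  have h3 : Real.log 25 = 2 * Real.log 5 := by
    have : (25 : ℝ) = 5 ^ 2 := by norm_num
    rw [this, Real.log_pow]
    norm_num
  have h4 := Real.log_two_lt_d9
  rw [h3]
  norm_num at h1 h2 h4 ⊢
  linarith

private theorem hh_pos : 0 < hh := Real.log_pos (by norm_num)

private theorem arg_pos : 0 < Real.sinh hh / (Real.cosh hh - Real.sqrt 2) := by
  rw [sinh_hh, cosh_hh]
  have := sqrt2_lt
  apply div_pos (by norm_num)
  norm_num at this ⊢
  linarith

private theorem arctan_lt : Real.arctan (Real.sinh hh / (Real.cosh hh - Real.sqrt 2)) <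
    Real.pi / 4 + 0.0583 := by
  have h0 : Real.sinh hh / (Real.cosh hh - Real.sqrt 2) < (1 + 0.0583) / (1 - 1 * 0.0583) := by
    rw [sinh_hh, cosh_hh]
    have h1 := sqrt2_lt
    rw [div_lt_div_iff₀ (by norm_num at h1 ⊢; linarith) (by norm_num)]
    norm_num at h1 ⊢
    linarith
  have h1 : Real.arctan 1 + Real.arctan 0.0583 = Real.arctan ((1 + 0.0583) / (1 - 1 * 0.0583)) :=
    Real.arctan_add (by norm_num)
  have h2 : Real.arctan (0.0583 : ℝ) < 0.0583 := by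
    have h3 : (0 : ℝ) < 0.0583 := by norm_num
    have h4 : (0.0583 : ℝ) < Real.pi / 2 := by
      have := Real.pi_gt_three
      norm_num
      linarith
    calc Real.arctan (0.0583 : ℝ) < Real.arctan (Real.tan 0.0583) :=
          Real.arctan_strictMono (Real.lt_tan h3 h4)
      _ = 0.0583 := Real.arctan_tan (by linarith) h4
  calc _ < Real.arctan ((1 + 0.0583) / (1 - 1 * 0.0583)) := Real.arctan_strictMono h0
    _ = Real.pi / 4 + Real.arctan 0.0583 := by rw [← h1, Real.arctan_one]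
    _ < _ := by linarith

theorem qq_pos : 0 < qq := by
  have h1 := arg_pos
  have h2 : 0 < Real.arctan (Real.sinh hh / (Real.cosh hh - Real.sqrt 2)) :=
    Real.arctan_pos.2 h1
  have h3 := log_gt
  have h4 : 0 < Real.log (kap + Real.sqrt (kap ^ 2 - 1)) := by linarith
  rw [qq]
  have := Real.pi_pos
  positivity

private theorem qq_lt : qq < 0.06431 := by
  have h1 := arctan_lt
  have h2 := log_gt
  have h4 : 0 < Real.log (kap + Real.sqrt (kap ^ 2 - 1)) := by linarith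
  have hpi := Real.pi_gt_d2
  have hpi0 := Real.pi_pos
  have h3 : 1 / Real.pi * Real.arctan (Real.sinh hh / (Real.cosh hh - Real.sqrt 2)) < 0.2686 := by
    rw [one_div, inv_mul_lt_iff₀ hpi0]
    norm_num at h1 hpi ⊢
    linarith
  rw [qq, div_lt_iff₀ h4]
  norm_num at h2 h3 ⊢
  linarith

theorem Vi_lt : Vi < 958 / 1000 := by
  rw [Vi]
  have h1 := qq_lt
  have h2 := hh_lt
  have h3 := hh_pos
  have h4 := qq_pos
  have h5 : qq * hh < 0.06431 * 3.2191 :=
    mul_lt_mul h1 h2.le h3 (by norm_num)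
  norm_num at h5 ⊢
  linarith

theorem Vi_pos : 0 < Vi := by
  have h3 := hh_pos
  have h4 := qq_pos
  rw [Vi]
  positivity

end HallHP

end
end
end

section

section

/-!
# Conv : from the extended real valued function `u` to a bounded real-valued function `w`

Put `T x = (min ((-x).toENNReal) (ENNReal.ofReal K)).toReal : EReal → ℝ` (continuous, antitone,
values in `[0, K]`) and `w = T ∘ u`.
* `lsc`: `Continuous.comp_upperSemicontinuousOn_antitone`.
* `mean` at `z ∈ RH`, `ρ < min ρ₀ z.re` (so that the circle is in `RH` and `u < 0` on it): the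
  positive part of `u` vanishes on the circle, so `submean` says
  `mean of (-u).toENNReal ≤ (-u z).toENNReal` in `ENNReal`. The function `φ ↦ w (circleMap z ρ φ)` is
  lower semicontinuous (hence measurable) with values in `[0, K]`, so
  `ENNReal.ofReal (∫ w) = ∫⁻ ENNReal.ofReal w ≤ ∫⁻ (-u).toENNReal` and also `∫ w ≤ 2 π K`; hence
  `circleAverage w z ρ ≤ min (mean of -u) K ≤ w z`.
* `u z ≤ - w z` since `u z < 0` and `w z ≤ -u z`.
* for `r > 0`, `ε > 0`: `inf_le` gives `θ` with `u (r e^{iθ}) < -K + ε` (`iInf_lt_iff`), so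
  `w (r e^{iθ}) > K - ε`.
-/

noncomputable section

open MeasureTheory Set Metric

namespace HallHP

/-- The truncation. -/
private def TT (K : ℝ) (x : EReal) : ℝ := (min ((-x).toENNReal) (ENNReal.ofReal K)).toReal

private theorem TT_min_ne (K : ℝ) (x : EReal) :
    min ((-x).toENNReal) (ENNReal.ofReal K) ≠ ⊤ :=
  ne_top_of_le_ne_top ENNReal.ofReal_ne_top (min_le_right _ _)

private theorem TT_cont (K : ℝ) : Continuous (TT K) := by
  have h1 : Continuous fun x : EReal => min ((-x).toENNReal) (ENNReal.ofReal K) :=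
    (EReal.continuous_toENNReal.comp continuous_neg).min continuous_const
  exact ENNReal.continuousOn_toReal.comp_continuous h1 fun x => TT_min_ne K x

private theorem TT_anti (K : ℝ) : Antitone (TT K) := by
  intro x y hxy
  apply ENNReal.toReal_mono (TT_min_ne K x)
  exact min_le_min_right _ (EReal.toENNReal_le_toENNReal (EReal.neg_le_neg_iff.2 hxy))

private theorem TT_nonneg (K : ℝ) (x : EReal) : 0 ≤ TT K x := ENNReal.toReal_nonneg

private theorem TT_le {K : ℝ} (hK : 0 < K) (x : EReal) : TT K x ≤ K := by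
  unfold TT
  calc (min ((-x).toENNReal) (ENNReal.ofReal K)).toReal ≤ (ENNReal.ofReal K).toReal :=
        ENNReal.toReal_mono ENNReal.ofReal_ne_top (min_le_right _ _)
    _ = K := ENNReal.toReal_ofReal hK.le

private theorem ofReal_TT (K : ℝ) (x : EReal) :
    ENNReal.ofReal (TT K x) = min ((-x).toENNReal) (ENNReal.ofReal K) :=
  ENNReal.ofReal_toReal (TT_min_ne K x)

private theorem circle_mem {z : ℂ} {ρ : ℝ} (hρ : 0 < ρ) (h : ρ < z.re) (φ : ℝ) :
    circleMap z ρ φ ∈ RH := by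
  change 0 < (circleMap z ρ φ).re
  have h1 : |(circleMap z ρ φ - z).re| ≤ ρ := by
    calc |(circleMap z ρ φ - z).re| ≤ ‖circleMap z ρ φ - z‖ := Complex.abs_re_le_norm _
      _ = ρ := by rw [circleMap_sub_center, norm_circleMap_zero, abs_of_pos hρ]
  have h2 := (abs_le.1 h1).1
  rw [Complex.sub_re] at h2
  linarith

theorem conv {K : ℝ} (hK : 0 < K) {u : ℂ → EReal} (hu : ClassS K u) :
    ∃ w : ℂ → ℝ, SupMean K w ∧ (∀ z ∈ RH, u z ≤ ((-(w z) : ℝ) : EReal)) ∧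
      ∀ r : ℝ, 0 < r → ∀ ε : ℝ, 0 < ε → ∃ ζ ∈ RH, ‖ζ‖ = r ∧ K - ε < w ζ := by
  refine ⟨fun z => TT K (u z), ⟨fun z _ => TT_nonneg K _, fun z _ => TT_le hK _, ?_, ?_⟩, ?_, ?_⟩
  · exact (TT_cont K).comp_upperSemicontinuousOn_antitone hu.sub.usc (TT_anti K)
  · intro z hz
    obtain ⟨ρ₀, hρ₀, hsub⟩ := hu.sub.submean z hz
    refine ⟨min ρ₀ z.re, lt_min hρ₀ hz, fun ρ hρ hρ1 => ?_⟩
    have hρa : ρ < ρ₀ := lt_of_lt_of_le hρ1 (min_le_left _ _)
    have hρb : ρ < z.re := lt_of_lt_of_le hρ1 (min_le_right _ _)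
    have hsub' := hsub ρ hρ hρa
    have h2π : (0 : ℝ) < 2 * Real.pi := by positivity
    -- the positive part vanishes
    have hneg : ∀ φ, u (circleMap z ρ φ) < 0 := fun φ => hu.neg _ (circle_mem hρ hρb φ)
    set A : ENNReal := (ENNReal.ofReal (2 * Real.pi))⁻¹ *
      ∫⁻ φ in Ioc (0 : ℝ) (2 * Real.pi), (-u (circleMap z ρ φ)).toENNReal with hA
    have hcm : circMean u z ρ = -(A : EReal) := by
      unfold circMean
      have e0 : ∫⁻ φ in Ioc (0 : ℝ) (2 * Real.pi), (u (circleMap z ρ φ)).toENNReal = 0 := by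
        have : ∀ φ : ℝ, (u (circleMap z ρ φ)).toENNReal = 0 := fun φ =>
          EReal.toENNReal_of_nonpos (hneg φ).le
        simp only [this, lintegral_zero]
      rw [e0, mul_zero, EReal.coe_ennreal_zero, zero_sub]
    rw [hcm] at hsub'
    have hz0 : 0 ≤ -u z := by
      have := (hu.neg z hz).le
      rw [EReal.le_neg, neg_zero]
      exact this
    have hAle : A ≤ (-u z).toENNReal := by
      have h1 : (A : EReal) ≤ -u z := EReal.le_neg_of_le_neg hsub'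
      have h2 := EReal.toENNReal_le_toENNReal h1
      rwa [EReal.toENNReal_coe] at h2
    -- the function on the circle
    set g : ℝ → ℝ := fun φ => TT K (u (circleMap z ρ φ)) with hg
    have husc : UpperSemicontinuous fun φ : ℝ => u (circleMap z ρ φ) := by
      have h1 : UpperSemicontinuousOn (u ∘ circleMap z ρ) univ :=
        hu.sub.usc.comp (continuous_circleMap z ρ).continuousOn
          (fun φ _ => circle_mem hρ hρb φ)
      exact upperSemicontinuousOn_univ_iff.1 h1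
    have hgm : Measurable g := (TT_cont K).measurable.comp husc.measurable
    have hgi : IntegrableOn g (Ioc 0 (2 * Real.pi)) := by
      refine Measure.integrableOn_of_bounded (M := K) measure_Ioc_lt_top.ne
        hgm.aestronglyMeasurable ?_
      refine Filter.Eventually.of_forall fun φ => ?_
      rw [Real.norm_eq_abs, abs_of_nonneg (TT_nonneg K _)]
      exact TT_le hK _
    have hint : ENNReal.ofReal (∫ φ in Ioc 0 (2 * Real.pi), g φ) ≤
        ∫⁻ φ in Ioc (0 : ℝ) (2 * Real.pi), (-u (circleMap z ρ φ)).toENNReal := by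
      rw [ofReal_integral_eq_lintegral_ofReal hgi
        (Filter.Eventually.of_forall fun φ => TT_nonneg K _)]
      refine lintegral_mono fun φ => ?_
      simp only [hg, ofReal_TT]
      exact min_le_left _ _
    have havg : Real.circleAverage (fun z => TT K (u z)) z ρ =
        (2 * Real.pi)⁻¹ * ∫ φ in Ioc 0 (2 * Real.pi), g φ := by
      rw [Real.circleAverage_def, intervalIntegral.integral_of_le h2π.le, smul_eq_mul]
    have hle1 : ENNReal.ofReal (Real.circleAverage (fun z => TT K (u z)) z ρ) ≤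
        (-u z).toENNReal := by
      refine le_trans ?_ hAle
      rw [havg, ENNReal.ofReal_mul (by positivity), ENNReal.ofReal_inv_of_pos h2π, hA]
      gcongr
    have hle2 : Real.circleAverage (fun z => TT K (u z)) z ρ ≤ K := by
      rw [havg]
      have h1 : ∫ φ in Ioc 0 (2 * Real.pi), g φ ≤ ∫ φ in Ioc (0 : ℝ) (2 * Real.pi), K := by
        refine setIntegral_mono hgi (integrableOn_const measure_Ioc_lt_top.ne) fun φ => TT_le hK _
      have h2 : ∫ φ in Ioc (0 : ℝ) (2 * Real.pi), K = 2 * Real.pi * K := by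
        rw [setIntegral_const, Real.volume_real_Ioc_of_le h2π.le, smul_eq_mul, sub_zero]
      rw [h2] at h1
      rw [inv_mul_le_iff₀ h2π]
      exact h1
    change _ ≤ TT K (u z)
    unfold TT
    rw [← ENNReal.ofReal_le_iff_le_toReal (TT_min_ne K (u z))]
    exact le_min hle1 (ENNReal.ofReal_le_ofReal hle2)
  · intro z hz
    have hz0 : 0 ≤ -u z := by
      have := (hu.neg z hz).le
      rw [EReal.le_neg, neg_zero]
      exact this
    have h1 : ((TT K (u z) : ℝ) : EReal) ≤ -u z := by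
      have h2 : ((TT K (u z) : ℝ) : EReal) =
          ((min ((-(u z)).toENNReal) (ENNReal.ofReal K) : ENNReal) : EReal) := by
        rw [← ofReal_TT, EReal.coe_ennreal_ofReal, max_eq_left (TT_nonneg K _)]
      rw [h2]
      calc ((min ((-(u z)).toENNReal) (ENNReal.ofReal K) : ENNReal) : EReal)
          ≤ (((-(u z)).toENNReal : ENNReal) : EReal) :=
            EReal.coe_ennreal_le_coe_ennreal_iff.2 (min_le_left _ _)
        _ = -u z := EReal.coe_toENNReal hz0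
    rw [EReal.coe_neg]
    exact EReal.le_neg_of_le_neg h1
  · intro r hr ε hε
    have hinf := hu.inf_le r hr
    have hlt : (⨅ θ : Ioo (-(Real.pi / 2)) (Real.pi / 2),
        u ((r : ℂ) * Complex.exp (((θ : ℝ) : ℂ) * Complex.I))) < ((-K + ε : ℝ) : EReal) := by
      refine lt_of_le_of_lt hinf ?_
      exact EReal.coe_lt_coe_iff.2 (by linarith)
    obtain ⟨θ, hθ⟩ := iInf_lt_iff.1 hlt
    have hcos : 0 < Real.cos θ := Real.cos_pos_of_mem_Ioo θ.2
    refine ⟨(r : ℂ) * Complex.exp (((θ : ℝ) : ℂ) * Complex.I), ?_, ?_, ?_⟩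
    · change 0 < ((r : ℂ) * Complex.exp (((θ : ℝ) : ℂ) * Complex.I)).re
      rw [Complex.re_ofReal_mul, Complex.exp_ofReal_mul_I_re]
      positivity
    · rw [norm_mul, Complex.norm_exp_ofReal_mul_I, mul_one, Complex.norm_real,
        Real.norm_eq_abs, abs_of_pos hr]
    · set ζ := (r : ℂ) * Complex.exp (((θ : ℝ) : ℂ) * Complex.I) with hζ
      by_cases hneg : K - ε < 0
      · exact lt_of_lt_of_le hneg (TT_nonneg K _)
      · push Not at hneg
        change K - ε < TT K (u ζ)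
        unfold TT
        rw [← ENNReal.ofReal_lt_iff_lt_toReal hneg (TT_min_ne K (u ζ))]
        refine lt_min ?_ ?_
        · have h1 : ((K - ε : ℝ) : EReal) < -u ζ := by
            have h2 : ((K - ε : ℝ) : EReal) = -((-K + ε : ℝ) : EReal) := by
              rw [← EReal.coe_neg]
              congr 1
              ring
            rw [h2, EReal.neg_lt_neg_iff]
            exact hθ
          have h2 := EReal.toENNReal_lt_toENNReal (EReal.coe_nonneg.2 hneg) h1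
          rwa [EReal.real_coe_toENNReal] at h2
        · exact (ENNReal.ofReal_lt_ofReal_iff hK).2 (by linarith)

/-- Scaling. `circleMap`: `r * circleMap z ρ φ = circleMap (r * z) (r * ρ) φ`. -/
theorem SupMean.scale {K : ℝ} {w : ℂ → ℝ} (hw : SupMean K w) {r : ℝ} (hr : 0 < r) :
    SupMean K (fun z => w ((r : ℂ) * z)) := by
  have hmem : ∀ z ∈ RH, (r : ℂ) * z ∈ RH := by
    intro z hz
    change 0 < ((r : ℂ) * z).re
    rw [Complex.re_ofReal_mul]
    exact mul_pos hr hz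
  refine ⟨fun z hz => hw.nonneg _ (hmem z hz), fun z hz => hw.le _ (hmem z hz), ?_, ?_⟩
  · exact hw.lsc.comp (continuous_const.mul continuous_id).continuousOn hmem
  · intro z hz
    obtain ⟨ρ₀, hρ₀, h⟩ := hw.mean _ (hmem z hz)
    refine ⟨ρ₀ / r, div_pos hρ₀ hr, fun ρ hρ hρ1 => ?_⟩
    rw [lt_div_iff₀ hr] at hρ1
    have h1 := h (r * ρ) (mul_pos hr hρ) (by rwa [mul_comm])
    have h2 : Real.circleAverage (fun z => w ((r : ℂ) * z)) z ρ =
        Real.circleAverage w ((r : ℂ) * z) (r * ρ) := by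
      rw [Real.circleAverage_def, Real.circleAverage_def]
      congr 1
      apply intervalIntegral.integral_congr
      intro φ _
      simp only [circleMap]
      congr 1
      push_cast
      ring
    rw [h2]
    exact h1

end HallHP

end
end

section

/-!
# Green : the truncated Green function `gd δ ζ`

For `z, ζ ∈ RH`: `‖z + conj ζ‖² = ‖z - ζ‖² + 4 z.re ζ.re`, so `‖z + conj ζ‖ > 0`.
* `gd_cont`: continuous.
* `gd_mean`: on a small closed disc around `z` one has `‖· - ζ‖ > δ`, so there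
  `gd = log ‖· - (-conj ζ)‖ - log ‖· - ζ‖`; use
  `circleAverage_log_norm_sub_const_eq_log_radius_add_posLog` (radius smaller than the distances) or
  the harmonic function library, `circleIntegrable_log_norm_sub_const`, `circleAverage_congr_sphere`.
* `gd_le`: `max ‖z - ζ‖ δ ≥ ‖z - ζ‖`, and `log ‖z + conj ζ‖ - log ‖z - ζ‖ =
  1/2 log (1 + 4 z.re ζ.re / ‖z - ζ‖²)`.
* `gd_nonneg` (for `δ ≤ ζ.re`; `‖z + conj ζ‖ ≥ z.re + ζ.re ≥ δ`).
* `gd_crude`: triangle inequality, `max ‖z - ζ‖ δ ≥ δ`.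
* `gd_small`: from `gd_le` and `log (1 + x) ≤ x`: `gd ≤ 2 z.re ζ.re / ‖z - ζ‖²`, which is small if
  `z.re` is small (then `‖z - ζ‖ ≥ ζ.re / 2`) and if `‖z‖` is large (then `‖z - ζ‖ ≥ ‖z‖ / 2`). So
  `Kc = {z | a ≤ z.re} ∩ closedBall 0 R`.
* `gd_one`: if `‖1 - ζ‖ ≥ δ` use `Real.le_log_one_add_of_nonneg` (`2 x / (x + 2) ≤ log (1 + x)`) with
  `x = 4 ζ.re / ‖1 - ζ‖²`: `1/2 log (1 + x) ≥ x / (x + 2) = 2 ζ.re / (1 + ‖ζ‖²)`. If
  `‖1 - ζ‖ < δ ≤ 1/2` then `‖1 + conj ζ‖ ≥ 3/2` and `gd ≥ log 3 ≥ 1 ≥ 2 ζ.re / (1 + ‖ζ‖²)`.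
-/

noncomputable section

open MeasureTheory Set Metric

namespace HallHP

theorem normSq_add_conj (z ζ : ℂ) :
    ‖z + (starRingEnd ℂ) ζ‖ ^ 2 = ‖z - ζ‖ ^ 2 + 4 * z.re * ζ.re := by
  rw [Complex.sq_norm, Complex.sq_norm, Complex.normSq_apply, Complex.normSq_apply]
  simp only [Complex.add_re, Complex.add_im, Complex.sub_re, Complex.sub_im, Complex.conj_re,
    Complex.conj_im]
  ring

private theorem gr_re_le (z ζ : ℂ) : z.re + ζ.re ≤ ‖z + (starRingEnd ℂ) ζ‖ := by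
  have h := Complex.re_le_norm (z + (starRingEnd ℂ) ζ)
  simpa using h

private theorem gr_pos {z ζ : ℂ} (hz : z ∈ RH) (hζ : ζ ∈ RH) :
    0 < ‖z + (starRingEnd ℂ) ζ‖ := by
  have h1 : 0 < z.re := hz
  have h2 : 0 < ζ.re := hζ
  exact lt_of_lt_of_le (add_pos h1 h2) (gr_re_le z ζ)

private theorem gr_max {δ : ℝ} (hδ : 0 < δ) (z ζ : ℂ) : 0 < max ‖z - ζ‖ δ :=
  lt_of_lt_of_le hδ (le_max_right _ _)

theorem gd_cont {δ : ℝ} (hδ : 0 < δ) {ζ : ℂ} (hζ : ζ ∈ RH) : ContinuousOn (gd δ ζ) RH := by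
  unfold gd
  refine ContinuousOn.sub (ContinuousOn.log ?_ ?_) (ContinuousOn.log ?_ ?_)
  · exact (continuous_id.add continuous_const).norm.continuousOn
  · intro z hz
    exact (gr_pos hz hζ).ne'
  · exact (((continuous_id.sub continuous_const).norm).max continuous_const).continuousOn
  · intro z _
    exact (gr_max hδ z ζ).ne'

private theorem gr_avg {a c : ℂ} {R : ℝ} (hR : 0 < R) (h : R ≤ ‖c - a‖) :
    Real.circleAverage (fun z => Real.log ‖z - a‖) c R = Real.log ‖c - a‖ := by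
  have h1 := circleAverage_log_norm_sub_const_eq_log_radius_add_posLog (a := a) (c := c)
    (R := R) hR.ne'
  have h2 : 1 ≤ R⁻¹ * ‖c - a‖ := by
    rw [← inv_mul_cancel₀ hR.ne']
    exact mul_le_mul_of_nonneg_left h (inv_nonneg.2 hR.le)
  have h3 : 0 < ‖c - a‖ := lt_of_lt_of_le hR h
  rw [Real.posLog_eq_log (by rw [abs_of_nonneg (by positivity)]; exact h2),
    Real.log_mul (inv_ne_zero hR.ne') h3.ne', Real.log_inv] at h1
  rw [h1]
  ring

theorem gd_mean {δ : ℝ} (hδ : 0 < δ) {ζ z : ℂ} (hζ : ζ ∈ RH) (hz : z ∈ RH)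
    (hzζ : δ < ‖z - ζ‖) :
    ∃ ρ₀ : ℝ, 0 < ρ₀ ∧ ∀ ρ : ℝ, 0 < ρ → ρ < ρ₀ →
      CircleIntegrable (gd δ ζ) z ρ ∧ Real.circleAverage (gd δ ζ) z ρ = gd δ ζ z := by
  have hz0 : 0 < z.re := hz
  refine ⟨min z.re (‖z - ζ‖ - δ), lt_min hz0 (by linarith), fun ρ hρ hρ2 => ?_⟩
  have h1 : ρ < z.re := lt_of_lt_of_le hρ2 (min_le_left _ _)
  have h2 : ρ < ‖z - ζ‖ - δ := lt_of_lt_of_le hρ2 (min_le_right _ _)
  have hsub : sphere z ρ ⊆ RH := by
    intro w hw
    have h3 : ‖w - z‖ = ρ := by simpa [dist_eq_norm] using hw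
    have h4 : |(w - z).re| ≤ ρ := h3 ▸ Complex.abs_re_le_norm (w - z)
    rw [Complex.sub_re, abs_le] at h4
    show 0 < w.re
    linarith [h4.1]
  refine ⟨ContinuousOn.circleIntegrable hρ.le ((gd_cont hδ hζ).mono hsub), ?_⟩
  have hcongr : EqOn (gd δ ζ)
      (fun w => Real.log ‖w - (-(starRingEnd ℂ) ζ)‖ - Real.log ‖w - ζ‖) (sphere z |ρ|) := by
    intro w hw
    rw [abs_of_pos hρ] at hw
    have h3 : ‖w - z‖ = ρ := by simpa [dist_eq_norm] using hw
    have h4 : δ ≤ ‖w - ζ‖ := by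
      have h5 : ‖z - ζ‖ ≤ ‖w - ζ‖ + ‖w - z‖ := by
        calc ‖z - ζ‖ = ‖(w - ζ) - (w - z)‖ := by congr 1; ring
          _ ≤ ‖w - ζ‖ + ‖w - z‖ := norm_sub_le _ _
      linarith
    simp only [gd]
    rw [max_eq_left h4, sub_neg_eq_add]
  rw [Real.circleAverage_congr_sphere hcongr,
    Real.circleAverage_fun_sub (circleIntegrable_log_norm_sub_const ρ)
      (circleIntegrable_log_norm_sub_const ρ)]
  have h5 : ρ ≤ ‖z - (-(starRingEnd ℂ) ζ)‖ := by
    rw [sub_neg_eq_add]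
    have h6 := gr_re_le z ζ
    have h7 : 0 < ζ.re := hζ
    linarith
  have h6 : ρ ≤ ‖z - ζ‖ := by linarith
  rw [gr_avg hρ h5, gr_avg hρ h6]
  simp only [gd]
  rw [max_eq_left hzζ.le, sub_neg_eq_add]

private theorem gr_eq {ζ z : ℂ} (hζ : ζ ∈ RH) (hz : z ∈ RH) (hne : z ≠ ζ) :
    Real.log ‖z + (starRingEnd ℂ) ζ‖ - Real.log ‖z - ζ‖ =
      1 / 2 * Real.log (1 + 4 * z.re * ζ.re / ‖z - ζ‖ ^ 2) := by
  have h1 : 0 < ‖z - ζ‖ := norm_pos_iff.2 (sub_ne_zero.2 hne)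
  have h2 := gr_pos hz hζ
  have h3 : 1 + 4 * z.re * ζ.re / ‖z - ζ‖ ^ 2 = ‖z + (starRingEnd ℂ) ζ‖ ^ 2 / ‖z - ζ‖ ^ 2 := by
    rw [normSq_add_conj]
    field_simp
  rw [h3, Real.log_div (by positivity) (by positivity), Real.log_pow, Real.log_pow]
  push_cast
  ring

theorem gd_le {δ : ℝ} (hδ : 0 < δ) {ζ z : ℂ} (hζ : ζ ∈ RH) (hz : z ∈ RH) (hne : z ≠ ζ) :
    gd δ ζ z ≤ 1 / 2 * Real.log (1 + 4 * z.re * ζ.re / ‖z - ζ‖ ^ 2) := by
  rw [← gr_eq hζ hz hne]
  unfold gd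
  have h1 : 0 < ‖z - ζ‖ := norm_pos_iff.2 (sub_ne_zero.2 hne)
  have h2 := Real.log_le_log h1 (le_max_left ‖z - ζ‖ δ)
  linarith

theorem gd_nonneg {δ : ℝ} (hδ : 0 < δ) {ζ z : ℂ} (hζ : δ ≤ ζ.re) (hz : z ∈ RH) :
    0 ≤ gd δ ζ z := by
  unfold gd
  have hz0 : 0 < z.re := hz
  have h1 : max ‖z - ζ‖ δ ≤ ‖z + (starRingEnd ℂ) ζ‖ := by
    refine max_le ?_ ?_
    · have h2 : ‖z - ζ‖ ^ 2 ≤ ‖z + (starRingEnd ℂ) ζ‖ ^ 2 := by
        rw [normSq_add_conj]
        have : 0 ≤ 4 * z.re * ζ.re := by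
          have h3 : 0 ≤ ζ.re := hδ.le.trans hζ
          positivity
        linarith
      exact le_of_sq_le_sq h2 (norm_nonneg _)
    · have := gr_re_le z ζ
      linarith
  have h2 := Real.log_le_log (gr_max hδ z ζ) h1
  linarith

theorem gd_crude {δ : ℝ} (hδ : 0 < δ) {ζ z : ℂ} (hζ : ζ ∈ RH) (hz : z ∈ RH) :
    gd δ ζ z ≤ Real.log ((‖z‖ + ‖ζ‖) / δ) := by
  have h1 := gr_pos hz hζ
  have h2 : ‖z + (starRingEnd ℂ) ζ‖ ≤ ‖z‖ + ‖ζ‖ := by
    refine (norm_add_le _ _).trans ?_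
    rw [RCLike.norm_conj]
  have h3 : 0 < ‖z‖ + ‖ζ‖ := lt_of_lt_of_le h1 h2
  rw [Real.log_div h3.ne' hδ.ne']
  unfold gd
  have h4 := Real.log_le_log h1 h2
  have h5 := Real.log_le_log hδ (le_max_right ‖z - ζ‖ δ)
  linarith

private theorem gr_le2 {δ : ℝ} (hδ : 0 < δ) {ζ z : ℂ} (hζ : ζ ∈ RH) (hz : z ∈ RH)
    (hne : z ≠ ζ) : gd δ ζ z ≤ 2 * z.re * ζ.re / ‖z - ζ‖ ^ 2 := by
  have h0 := gd_le hδ hζ hz hne
  have h1 : 0 < ‖z - ζ‖ := norm_pos_iff.2 (sub_ne_zero.2 hne)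
  have hz0 : 0 < z.re := hz
  have hζ0 : 0 < ζ.re := hζ
  have h2 : Real.log (1 + 4 * z.re * ζ.re / ‖z - ζ‖ ^ 2) ≤ 4 * z.re * ζ.re / ‖z - ζ‖ ^ 2 := by
    have h3 : 0 < 1 + 4 * z.re * ζ.re / ‖z - ζ‖ ^ 2 := by positivity
    have := Real.log_le_sub_one_of_pos h3
    linarith
  have h4 : 2 * z.re * ζ.re / ‖z - ζ‖ ^ 2 = 1 / 2 * (4 * z.re * ζ.re / ‖z - ζ‖ ^ 2) := by ring
  rw [h4]
  linarith

theorem gd_small {δ : ℝ} (hδ : 0 < δ) {ζ : ℂ} (hζ : ζ ∈ RH) (m : ℝ) (hm : 0 < m) :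
    ∃ Kc : Set ℂ, Kc ⊆ RH ∧ IsCompact Kc ∧ ∀ z ∈ RH, z ∉ Kc → gd δ ζ z < m := by
  have hζ0 : 0 < ζ.re := hζ
  have hζn : 0 < ‖ζ‖ := lt_of_lt_of_le hζ0 (Complex.re_le_norm ζ)
  set a := min (ζ.re / 2) (m * ζ.re / 8) with ha
  set R := max (2 * ‖ζ‖) (8 * ζ.re / m) with hR
  have ha0 : 0 < a := lt_min (by positivity) (by positivity)
  have hR0 : 0 < R := lt_of_lt_of_le (by positivity) (le_max_left _ _)
  refine ⟨{z | a ≤ z.re} ∩ closedBall 0 R, ?_, ?_, ?_⟩
  · rintro z ⟨hz, -⟩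
    exact lt_of_lt_of_le ha0 hz
  · exact (isCompact_closedBall (0 : ℂ) R).inter_left
      (isClosed_le continuous_const Complex.continuous_re)
  · intro z hz hzK
    have hz0 : 0 < z.re := hz
    by_cases h1 : a ≤ z.re
    · have h2 : R < ‖z‖ := by
        by_contra h3
        exact hzK ⟨h1, by simpa using not_lt.1 h3⟩
      have h3 : 2 * ‖ζ‖ < ‖z‖ := lt_of_le_of_lt (le_max_left _ _) h2
      have h4 : ‖z‖ / 2 ≤ ‖z - ζ‖ := by
        have := norm_sub_norm_le z ζ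
        linarith
      have hzn : 0 < ‖z‖ := hR0.trans h2
      have hne : z ≠ ζ := by
        intro h5
        rw [h5, sub_self, norm_zero] at h4
        have : 0 < ‖ζ‖ / 2 := by positivity
        linarith
      refine lt_of_le_of_lt (gr_le2 hδ hζ hz hne) ?_
      have h5 : 0 < ‖z - ζ‖ := lt_of_lt_of_le (by positivity) h4
      have h6 : 8 * ζ.re / m < ‖z‖ := lt_of_le_of_lt (le_max_right _ _) h2
      rw [div_lt_iff₀ hm] at h6
      rw [div_lt_iff₀ (by positivity)]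
      have h7 : z.re ≤ ‖z‖ := Complex.re_le_norm z
      have h8 : (‖z‖ / 2) ^ 2 ≤ ‖z - ζ‖ ^ 2 := pow_le_pow_left₀ (by positivity) h4 2
      calc 2 * z.re * ζ.re ≤ 2 * ‖z‖ * ζ.re := by nlinarith
        _ < m * (‖z‖ / 2) ^ 2 := by nlinarith
        _ ≤ m * ‖z - ζ‖ ^ 2 := mul_le_mul_of_nonneg_left h8 hm.le
    · rw [not_le] at h1
      have h2 : z.re < ζ.re / 2 := lt_of_lt_of_le h1 (min_le_left _ _)
      have h3 : z.re < m * ζ.re / 8 := lt_of_lt_of_le h1 (min_le_right _ _)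
      have h4 : ζ.re / 2 ≤ ‖z - ζ‖ := by
        have h5 := Complex.abs_re_le_norm (z - ζ)
        rw [Complex.sub_re] at h5
        have h6 := neg_abs_le (z.re - ζ.re)
        linarith
      have hne : z ≠ ζ := by
        intro h5
        rw [h5] at h2
        linarith
      refine lt_of_le_of_lt (gr_le2 hδ hζ hz hne) ?_
      have h5 : 0 < ‖z - ζ‖ := lt_of_lt_of_le (by positivity) h4
      rw [div_lt_iff₀ (by positivity)]
      have h8 : (ζ.re / 2) ^ 2 ≤ ‖z - ζ‖ ^ 2 := pow_le_pow_left₀ (by positivity) h4 2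
      calc 2 * z.re * ζ.re < m * (ζ.re / 2) ^ 2 := by nlinarith
        _ ≤ m * ‖z - ζ‖ ^ 2 := mul_le_mul_of_nonneg_left h8 hm.le

theorem gd_one {δ : ℝ} (hδ : 0 < δ) (hδ' : δ ≤ 1 / 2) {ζ : ℂ} (hζ : ζ ∈ RH) :
    2 * ζ.re / (1 + ‖ζ‖ ^ 2) ≤ gd δ ζ 1 := by
  have hζ0 : 0 < ζ.re := hζ
  have h1 : (1 : ℂ) ∈ RH := by
    show 0 < (1 : ℂ).re
    simp
  by_cases hc : δ ≤ ‖1 - ζ‖
  · have hne : (1 : ℂ) ≠ ζ := by
      intro h
      rw [← h, sub_self, norm_zero] at hc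
      linarith
    have e1 : gd δ ζ 1 = 1 / 2 * Real.log (1 + 4 * ζ.re / ‖1 - ζ‖ ^ 2) := by
      have := gr_eq hζ h1 hne
      unfold gd
      rw [max_eq_left hc, this]
      simp
    have hn : 0 < ‖1 - ζ‖ := lt_of_lt_of_le hδ hc
    have hx : 0 ≤ 4 * ζ.re / ‖1 - ζ‖ ^ 2 := by positivity
    have h2 := Real.le_log_one_add_of_nonneg hx
    have h3 : ‖1 - ζ‖ ^ 2 = 1 - 2 * ζ.re + ‖ζ‖ ^ 2 := by
      rw [Complex.sq_norm, Complex.sq_norm, Complex.normSq_apply, Complex.normSq_apply]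
      simp only [Complex.sub_re, Complex.sub_im, Complex.one_re, Complex.one_im]
      ring
    have h4 : 2 * (4 * ζ.re / ‖1 - ζ‖ ^ 2) / (4 * ζ.re / ‖1 - ζ‖ ^ 2 + 2) =
        2 * (2 * ζ.re / (1 + ‖ζ‖ ^ 2)) := by
      have h5 : 0 < 1 + ‖ζ‖ ^ 2 := by positivity
      have h6 : 4 * ζ.re / ‖1 - ζ‖ ^ 2 + 2 = 2 * (1 + ‖ζ‖ ^ 2) / ‖1 - ζ‖ ^ 2 := by
        have h7 : 2 * (1 + ‖ζ‖ ^ 2) = 4 * ζ.re + 2 * ‖1 - ζ‖ ^ 2 := by rw [h3]; ring
        rw [h7, add_div]
        congr 1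
        field_simp
      rw [h6]
      field_simp
      norm_num
    rw [h4] at h2
    rw [e1]
    linarith
  · rw [not_le] at hc
    have h2 : |(1 - ζ).re| ≤ ‖1 - ζ‖ := Complex.abs_re_le_norm _
    rw [Complex.sub_re, Complex.one_re] at h2
    have h3 := le_abs_self (1 - ζ.re)
    have h4 : 3 / 2 ≤ ‖1 + (starRingEnd ℂ) ζ‖ := by
      have h5 := gr_re_le 1 ζ
      rw [Complex.one_re] at h5
      linarith
    have h5 : Real.log (3 / 2) ≤ Real.log ‖1 + (starRingEnd ℂ) ζ‖ :=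
      Real.log_le_log (by norm_num) h4
    have h6 : Real.log (max ‖1 - ζ‖ δ) ≤ Real.log (1 / 2) := by
      rw [max_eq_right hc.le]
      exact Real.log_le_log hδ hδ'
    have h7 : (1 : ℝ) ≤ Real.log (3 / 2) - Real.log (1 / 2) := by
      rw [← Real.log_div (by norm_num) (by norm_num)]
      rw [Real.le_log_iff_exp_le (by norm_num)]
      have := Real.exp_one_lt_d9
      norm_num at this ⊢
      linarith
    have h8 : 2 * ζ.re / (1 + ‖ζ‖ ^ 2) ≤ 1 := by
      have h9 : 0 < 1 + ‖ζ‖ ^ 2 := by positivity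
      rw [div_le_one h9]
      have h10 := Complex.re_le_norm ζ
      nlinarith [sq_nonneg (‖ζ‖ - 1)]
    unfold gd
    linarith

end HallHP

end
end

section

/-!
# MaxP : comparison principle

Suppose `V z₁ > w z₁` for some `z₁ ∈ RH`, put `m = V z₁ - w z₁ > 0` and take the compact set `Kc` for
`m`. Then `z₁ ∈ Kc`. The function `Ψ = w - V` is lower semicontinuous on `RH`, so it has a minimum `M`
on `Kc` (`LowerSemicontinuousOn.exists_isMinOn`), `M ≤ -m < 0`, and `Ψ > -m ≥ M` on `RH \ Kc` (there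
`w ≥ 0`, `V < m`); so `M` is the minimum of `Ψ` on `RH`. The set `Z = {z ∈ Kc | Ψ z ≤ M}` is compact
and nonempty; take `z₂ ∈ Z` with maximal real part. `z₂ ∉ D` since `Ψ z₂ < 0`. For small `ρ` (closed
ball of radius `ρ` in `RH`, `ρ < ρ₀` for `w` and for `V`): `circleAverage w ≤ w z₂`,
`circleAverage V = V z₂`, so `circleAverage Ψ ≤ M` (both functions are circle integrable: `V` is
continuous; `w` is bounded and `φ ↦ w (circleMap z₂ ρ φ)` is lower semicontinuous, hence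
measurable), while `Ψ ≥ M` on the circle and `Ψ > M` at the points `z₂ + ρ e^{iφ}`,
`0 < φ < π/2` (their real part is bigger than that of `z₂`). Contradiction.
-/

noncomputable section

open MeasureTheory Set Metric

namespace HallHP

private theorem maxp_circle_re (z : ℂ) (ρ φ : ℝ) :
    (circleMap z ρ φ).re = z.re + ρ * Real.cos φ := by
  simp [circleMap, Complex.exp_re]

private theorem maxp_circle_mem {z : ℂ} {ρ : ℝ} (hρ : 0 < ρ) (hz : ρ < z.re) (φ : ℝ) :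
    circleMap z ρ φ ∈ RH := by
  have h1 := maxp_circle_re z ρ φ
  have h2 := Real.neg_one_le_cos φ
  change 0 < (circleMap z ρ φ).re
  rw [h1]
  nlinarith

theorem SupMean.circleIntegrable {K : ℝ} {w : ℂ → ℝ} (hw : SupMean K w) {z : ℂ} {ρ : ℝ}
    (hρ : 0 < ρ) (hz : ρ < z.re) : CircleIntegrable w z ρ := by
  have hmem : ∀ φ : ℝ, circleMap z ρ φ ∈ RH := maxp_circle_mem hρ hz
  have hlsc : LowerSemicontinuous (w ∘ circleMap z ρ) := by
    rw [← lowerSemicontinuousOn_univ_iff]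
    exact hw.lsc.comp (continuous_circleMap z ρ).continuousOn (fun φ _ => hmem φ)
  have hmeas : Measurable (w ∘ circleMap z ρ) := hlsc.measurable
  unfold CircleIntegrable
  rw [intervalIntegrable_iff]
  apply Measure.integrableOn_of_bounded (M := K)
  · rw [uIoc_of_le (by positivity), Real.volume_Ioc]
    exact ENNReal.ofReal_ne_top
  · exact hmeas.aestronglyMeasurable
  · refine Filter.Eventually.of_forall (fun φ => ?_)
    rw [Real.norm_eq_abs, abs_of_nonneg (hw.nonneg _ (hmem φ))]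
    exact hw.le _ (hmem φ)

theorem compare {K : ℝ} {w V : ℂ → ℝ} {D : Set ℂ} (hw : SupMean K w)
    (hVc : ContinuousOn V RH) (hD : ∀ z ∈ RH, z ∈ D → V z ≤ w z)
    (hmean : ∀ z ∈ RH, z ∉ D → ∃ ρ₀ : ℝ, 0 < ρ₀ ∧ ∀ ρ : ℝ, 0 < ρ → ρ < ρ₀ →
      Real.circleAverage V z ρ = V z)
    (hsmall : ∀ m : ℝ, 0 < m → ∃ Kc : Set ℂ, Kc ⊆ RH ∧ IsCompact Kc ∧
      ∀ z ∈ RH, z ∉ Kc → V z < m) :
    ∀ z ∈ RH, V z ≤ w z := by
  intro z₁ hz₁
  by_contra hcon
  have hcon' : w z₁ < V z₁ := not_le.mp hcon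
  obtain ⟨Kc, hKsub, hKc, hKs⟩ := hsmall (V z₁ - w z₁) (by linarith)
  have hz₁K : z₁ ∈ Kc := by
    by_contra h
    have h1 := hKs z₁ hz₁ h
    have h2 := hw.nonneg z₁ hz₁
    linarith
  have hΨ : LowerSemicontinuousOn (fun z => w z + (-V z)) RH :=
    hw.lsc.add (hVc.neg.lowerSemicontinuousOn)
  have hΨK : LowerSemicontinuousOn (fun z => w z + (-V z)) Kc := hΨ.mono hKsub
  obtain ⟨z₀, hz₀K, hz₀min⟩ := hΨK.exists_isMinOn ⟨z₁, hz₁K⟩ hKc
  have hminK : ∀ z ∈ Kc, w z₀ + (-V z₀) ≤ w z + (-V z) := fun z hz => hz₀min hz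
  obtain ⟨M, hM⟩ : ∃ M : ℝ, M = w z₀ + (-V z₀) := ⟨_, rfl⟩
  have hM1 : M ≤ w z₁ - V z₁ := by
    have := hminK z₁ hz₁K
    linarith
  have hMRH : ∀ z ∈ RH, M ≤ w z - V z := by
    intro z hz
    by_cases hzK : z ∈ Kc
    · have := hminK z hzK
      linarith
    · have h1 := hKs z hz hzK
      have h2 := hw.nonneg z hz
      linarith
  -- the set of minimum points
  obtain ⟨v, hvc, hv⟩ := (lowerSemicontinuousOn_iff_preimage_Iic.mp hΨK) M
  have hZc : IsCompact (Kc ∩ (fun z => w z + (-V z)) ⁻¹' Iic M) := by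
    rw [hv]
    exact hKc.inter_right hvc
  have hZne : (Kc ∩ (fun z => w z + (-V z)) ⁻¹' Iic M).Nonempty :=
    ⟨z₀, hz₀K, by simp [hM]⟩
  obtain ⟨z₂, hz₂, hz₂max⟩ := hZc.exists_isMaxOn hZne Complex.continuous_re.continuousOn
  have hz₂K : z₂ ∈ Kc := hz₂.1
  have hz₂R : z₂ ∈ RH := hKsub hz₂K
  have hz₂M : w z₂ - V z₂ ≤ M := by
    have : w z₂ + (-V z₂) ≤ M := hz₂.2
    linarith
  have hstrict : ∀ z ∈ RH, z₂.re < z.re → M < w z - V z := by
    intro z hz hre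
    by_cases hzK : z ∈ Kc
    · by_contra hle
      have hle' : w z + (-V z) ≤ M := by
        have := not_lt.mp hle
        linarith
      have h3 : z.re ≤ z₂.re := hz₂max (⟨hzK, hle'⟩ : z ∈ Kc ∩ (fun z => w z + (-V z)) ⁻¹' Iic M)
      linarith
    · have h1 := hKs z hz hzK
      have h2 := hw.nonneg z hz
      linarith
  have hz₂D : z₂ ∉ D := by
    intro h
    have := hD z₂ hz₂R h
    linarith
  obtain ⟨ρ₁, hρ₁, hm₁⟩ := hmean z₂ hz₂R hz₂D
  obtain ⟨ρ₂, hρ₂, hm₂⟩ := hw.mean z₂ hz₂R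
  have hz₂pos : 0 < z₂.re := hz₂R
  obtain ⟨ρ, hρpos, hρa, hρb, hρc⟩ : ∃ ρ : ℝ, 0 < ρ ∧ ρ < ρ₁ ∧ ρ < ρ₂ ∧ ρ < z₂.re := by
    refine ⟨min ρ₁ (min ρ₂ z₂.re) / 2, ?_, ?_, ?_, ?_⟩
    · have : 0 < min ρ₁ (min ρ₂ z₂.re) := lt_min hρ₁ (lt_min hρ₂ hz₂pos)
      linarith
    · have h0 : 0 < min ρ₁ (min ρ₂ z₂.re) := lt_min hρ₁ (lt_min hρ₂ hz₂pos)
      have := min_le_left ρ₁ (min ρ₂ z₂.re)
      linarith
    · have h0 : 0 < min ρ₁ (min ρ₂ z₂.re) := lt_min hρ₁ (lt_min hρ₂ hz₂pos)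
      have := (min_le_right ρ₁ (min ρ₂ z₂.re)).trans (min_le_left _ _)
      linarith
    · have h0 : 0 < min ρ₁ (min ρ₂ z₂.re) := lt_min hρ₁ (lt_min hρ₂ hz₂pos)
      have := (min_le_right ρ₁ (min ρ₂ z₂.re)).trans (min_le_right _ _)
      linarith
  have hV := hm₁ ρ hρpos hρa
  have hW := hm₂ ρ hρpos hρb
  have hmem : ∀ φ : ℝ, circleMap z₂ ρ φ ∈ RH := maxp_circle_mem hρpos hρc
  have hwi : CircleIntegrable w z₂ ρ := hw.circleIntegrable hρpos hρc
  have hVcirc : Continuous (fun φ : ℝ => V (circleMap z₂ ρ φ)) :=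
    hVc.comp_continuous (continuous_circleMap z₂ ρ) hmem
  have hwi' : IntervalIntegrable (fun φ : ℝ => w (circleMap z₂ ρ φ)) volume 0 (2 * Real.pi) := hwi
  have hVi' : IntervalIntegrable (fun φ : ℝ => V (circleMap z₂ ρ φ)) volume 0 (2 * Real.pi) :=
    hVcirc.intervalIntegrable _ _
  have hgi : IntervalIntegrable
      (fun φ : ℝ => w (circleMap z₂ ρ φ) - V (circleMap z₂ ρ φ) - M) volume 0 (2 * Real.pi) :=
    (hwi'.sub hVi').sub intervalIntegrable_const
  have hpi := Real.pi_pos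
  have hint : (∫ φ in (0 : ℝ)..(2 * Real.pi),
      (w (circleMap z₂ ρ φ) - V (circleMap z₂ ρ φ) - M)) ≤ 0 := by
    rw [intervalIntegral.integral_sub (hwi'.sub hVi') intervalIntegrable_const,
      intervalIntegral.integral_sub hwi' hVi', intervalIntegral.integral_const]
    rw [Real.circleAverage_def] at hV hW
    simp only [smul_eq_mul] at hV hW ⊢
    have h2 : (0 : ℝ) < 2 * Real.pi := by positivity
    have h3 : (∫ φ in (0 : ℝ)..(2 * Real.pi), V (circleMap z₂ ρ φ)) = 2 * Real.pi * V z₂ := by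
      rw [← hV]
      field_simp
    have h4 : (∫ φ in (0 : ℝ)..(2 * Real.pi), w (circleMap z₂ ρ φ)) ≤ 2 * Real.pi * w z₂ := by
      have := mul_le_mul_of_nonneg_left hW h2.le
      rw [← mul_assoc, mul_inv_cancel₀ h2.ne', one_mul] at this
      exact this
    rw [h3]
    nlinarith
  have hnn : 0 ≤ᵐ[volume.restrict (Ioc 0 (2 * Real.pi))]
      (fun φ : ℝ => w (circleMap z₂ ρ φ) - V (circleMap z₂ ρ φ) - M) := by
    refine Filter.Eventually.of_forall (fun φ => ?_)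
    have := hMRH _ (hmem φ)
    change (0 : ℝ) ≤ w (circleMap z₂ ρ φ) - V (circleMap z₂ ρ φ) - M
    linarith
  have hsplit := intervalIntegral.integral_add_adjacent_intervals
    (hgi.mono_set (show uIcc 0 (Real.pi / 2) ⊆ uIcc 0 (2 * Real.pi) by
      rw [uIcc_of_le (by positivity), uIcc_of_le (by positivity)]
      exact Icc_subset_Icc le_rfl (by linarith)))
    (hgi.mono_set (show uIcc (Real.pi / 2) (2 * Real.pi) ⊆ uIcc 0 (2 * Real.pi) by
      rw [uIcc_of_le (by linarith), uIcc_of_le (by positivity)]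
      exact Icc_subset_Icc (by positivity) le_rfl))
  have hpos1 : 0 < ∫ φ in (0 : ℝ)..(Real.pi / 2),
      (w (circleMap z₂ ρ φ) - V (circleMap z₂ ρ φ) - M) := by
    apply intervalIntegral.intervalIntegral_pos_of_pos_on
    · exact hgi.mono_set (by
        rw [uIcc_of_le (by positivity), uIcc_of_le (by positivity)]
        exact Icc_subset_Icc le_rfl (by linarith))
    · intro φ hφ
      have hcos : 0 < Real.cos φ := Real.cos_pos_of_mem_Ioo ⟨by linarith [hφ.1], hφ.2⟩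
      have h1 : z₂.re < (circleMap z₂ ρ φ).re := by
        rw [maxp_circle_re]
        nlinarith
      have := hstrict _ (hmem φ) h1
      linarith
    · positivity
  have hpos2 : 0 ≤ ∫ φ in (Real.pi / 2)..(2 * Real.pi),
      (w (circleMap z₂ ρ φ) - V (circleMap z₂ ρ φ) - M) := by
    apply intervalIntegral.integral_nonneg (by linarith)
    intro φ _
    have := hMRH _ (hmem φ)
    linarith
  linarith

end HallHP

end
end

section

/-!
# Geom : the kernel in logarithmic coordinates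

`z, ζ ∈ RH`, `‖z‖ = e^s`, `‖ζ‖ = e^t`, `B = z.re / ‖z‖`, `A = ζ.re / ‖ζ‖`.
With the unit vectors `z' = z / ‖z‖`, `ζ' = ζ / ‖ζ‖`:
`‖z - ζ‖² = (‖z‖ - ‖ζ‖)² + ‖z‖ ‖ζ‖ ‖z' - ζ'‖²`, `‖z' - ζ'‖² ≥ (B - A)²` and
`(e^s - e^t)² = e^{s+t} (2 cosh (s - t) - 2) ≥ e^{s+t} (s - t)²`. Hence
`‖z - ζ‖² ≥ e^{s+t} ((t - s)² + (A - B)²)`, while `z.re ζ.re = e^{s+t} A B`.
-/

noncomputable section

open MeasureTheory Set Metric

namespace HallHP

theorem norm_sub_sq_ge {z ζ : ℂ} {s t : ℝ} (hz : z ∈ RH) (hζ : ζ ∈ RH)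
    (hs : ‖z‖ = Real.exp s) (ht : ‖ζ‖ = Real.exp t) :
    Real.exp (s + t) * ((t - s) ^ 2 + (ζ.re / ‖ζ‖ - z.re / ‖z‖) ^ 2) ≤ ‖z - ζ‖ ^ 2 := by
  have hR : 0 < ‖z‖ := by rw [hs]; exact Real.exp_pos s
  have hT : 0 < ‖ζ‖ := by rw [ht]; exact Real.exp_pos t
  have hexp : Real.exp (s + t) = ‖z‖ * ‖ζ‖ := by rw [hs, ht, Real.exp_add]
  have hnz : z.re ^ 2 + z.im ^ 2 = ‖z‖ ^ 2 := by
    rw [Complex.sq_norm, Complex.normSq_apply]; ring
  have hnζ : ζ.re ^ 2 + ζ.im ^ 2 = ‖ζ‖ ^ 2 := by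
    rw [Complex.sq_norm, Complex.normSq_apply]; ring
  have hsub : ‖z - ζ‖ ^ 2 = (z.re - ζ.re) ^ 2 + (z.im - ζ.im) ^ 2 := by
    rw [Complex.sq_norm, Complex.normSq_apply, Complex.sub_re, Complex.sub_im]; ring
  -- the radial part
  have hrad : Real.exp (s + t) * (t - s) ^ 2 ≤ (‖z‖ - ‖ζ‖) ^ 2 := by
    have h1 : ‖z‖ - ‖ζ‖ = Real.exp ((s + t) / 2) * (2 * Real.sinh ((s - t) / 2)) := by
      rw [hs, ht, Real.sinh_eq]
      have e1 : Real.exp s = Real.exp ((s + t) / 2) * Real.exp ((s - t) / 2) := by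
        rw [← Real.exp_add]; congr 1; ring
      have e2 : Real.exp t = Real.exp ((s + t) / 2) * Real.exp (-((s - t) / 2)) := by
        rw [← Real.exp_add]; congr 1; ring
      rw [e1, e2]; ring
    have h2 : Real.exp (s + t) = Real.exp ((s + t) / 2) ^ 2 := by
      rw [← Real.exp_nat_mul]; congr 1; push_cast; ring
    have h3 : ((s - t) / 2) ^ 2 ≤ Real.sinh ((s - t) / 2) ^ 2 := by
      rw [sq_le_sq, Real.abs_sinh]
      exact Real.self_le_sinh_iff.2 (abs_nonneg _)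
    rw [h1, h2, mul_pow]
    apply mul_le_mul_of_nonneg_left _ (by positivity)
    have h4 : (t - s) ^ 2 = 4 * ((s - t) / 2) ^ 2 := by ring
    rw [h4, mul_pow]
    linarith
  -- the angular part
  set A := ζ.re / ‖ζ‖ with hA
  set B := z.re / ‖z‖ with hB
  set C := ζ.im / ‖ζ‖ with hC
  set D := z.im / ‖z‖ with hD
  have e1 : ζ.re = ‖ζ‖ * A := by rw [hA]; field_simp
  have e2 : z.re = ‖z‖ * B := by rw [hB]; field_simp
  have e3 : ζ.im = ‖ζ‖ * C := by rw [hC]; field_simp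
  have e4 : z.im = ‖z‖ * D := by rw [hD]; field_simp
  have hAC : A ^ 2 + C ^ 2 = 1 := by
    have : ‖ζ‖ ^ 2 * (A ^ 2 + C ^ 2) = ‖ζ‖ ^ 2 * 1 := by
      have h1 := hnζ
      rw [e1, e3] at h1
      linear_combination h1
    exact mul_left_cancel₀ (by positivity) this
  have hBD : B ^ 2 + D ^ 2 = 1 := by
    have : ‖z‖ ^ 2 * (B ^ 2 + D ^ 2) = ‖z‖ ^ 2 * 1 := by
      have h1 := hnz
      rw [e2, e4] at h1
      linear_combination h1
    exact mul_left_cancel₀ (by positivity) this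
  have hfin : ‖z - ζ‖ ^ 2 = (‖z‖ - ‖ζ‖) ^ 2 + ‖z‖ * ‖ζ‖ * ((A - B) ^ 2 + (C - D) ^ 2) := by
    rw [hsub, e1, e2, e3, e4]
    have h5 : ‖z‖ ^ 2 * (B ^ 2 + D ^ 2) = ‖z‖ ^ 2 := by rw [hBD, mul_one]
    have h6 : ‖ζ‖ ^ 2 * (A ^ 2 + C ^ 2) = ‖ζ‖ ^ 2 := by rw [hAC, mul_one]
    have h7 : ‖z‖ * ‖ζ‖ * (B ^ 2 + D ^ 2) = ‖z‖ * ‖ζ‖ := by rw [hBD, mul_one]
    have h8 : ‖z‖ * ‖ζ‖ * (A ^ 2 + C ^ 2) = ‖z‖ * ‖ζ‖ := by rw [hAC, mul_one]
    linear_combination h5 + h6 - h7 - h8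
  rw [hfin, mul_add]
  apply add_le_add hrad
  rw [hexp]
  apply mul_le_mul_of_nonneg_left _ (by positivity)
  nlinarith [sq_nonneg (C - D)]

/-- For `A = ζ.re / ‖ζ‖`, `B = z.re / ‖z‖`, `s ≠ t`:
`(1 / A) * (1/2) log (1 + 4 z.re ζ.re / ‖z - ζ‖²) ≤ (1 / B) * hk (A / B) (|t - s| / B)`.
Use `norm_sub_sq_ge`, monotonicity of `log`, and
`4 A B / ((t-s)² + (A-B)²) = 4 η / (y² + (1-η)²)` with `η = A / B`, `y = |t - s| / B`. -/
theorem kernel_le {z ζ : ℂ} {s t : ℝ} (hz : z ∈ RH) (hζ : ζ ∈ RH)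
    (hs : ‖z‖ = Real.exp s) (ht : ‖ζ‖ = Real.exp t) (hst : s ≠ t) :
    (ζ.re / ‖ζ‖)⁻¹ * (1 / 2 * Real.log (1 + 4 * z.re * ζ.re / ‖z - ζ‖ ^ 2)) ≤
      (z.re / ‖z‖)⁻¹ * hk ((ζ.re / ‖ζ‖) / (z.re / ‖z‖)) (|t - s| / (z.re / ‖z‖)) := by
  have hge := norm_sub_sq_ge hz hζ hs ht
  have hR : 0 < ‖z‖ := by rw [hs]; exact Real.exp_pos s
  have hT : 0 < ‖ζ‖ := by rw [ht]; exact Real.exp_pos t
  have hexp : Real.exp (s + t) = ‖z‖ * ‖ζ‖ := by rw [hs, ht, Real.exp_add]
  have hzr : 0 < z.re := hz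
  have hζr : 0 < ζ.re := hζ
  set A := ζ.re / ‖ζ‖ with hA
  set B := z.re / ‖z‖ with hB
  have hA0 : 0 < A := div_pos hζr hT
  have hB0 : 0 < B := div_pos hzr hR
  have e1 : ζ.re = ‖ζ‖ * A := by rw [hA]; field_simp
  have e2 : z.re = ‖z‖ * B := by rw [hB]; field_simp
  have hts : 0 < (t - s) ^ 2 := by
    have : t - s ≠ 0 := sub_ne_zero.2 (Ne.symm hst)
    positivity
  have hq0 : 0 < (t - s) ^ 2 + (A - B) ^ 2 := by positivity
  have hRT : 0 < ‖z‖ * ‖ζ‖ := mul_pos hR hT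
  have hn0 : 0 < ‖z - ζ‖ ^ 2 := by
    refine lt_of_lt_of_le ?_ hge
    rw [hexp]
    positivity
  have hpre : B⁻¹ * hk (A / B) (|t - s| / B) =
      A⁻¹ * (1 / 2 * Real.log (1 + 4 * (A / B) / ((|t - s| / B) ^ 2 + (1 - A / B) ^ 2))) := by
    unfold hk
    field_simp
  rw [hpre]
  apply mul_le_mul_of_nonneg_left _ (by positivity)
  apply mul_le_mul_of_nonneg_left _ (by norm_num)
  apply Real.log_le_log
  · have : 0 < 4 * z.re * ζ.re / ‖z - ζ‖ ^ 2 := by positivity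
    linarith
  · have h1 : 4 * (A / B) / ((|t - s| / B) ^ 2 + (1 - A / B) ^ 2) =
        4 * A * B / ((t - s) ^ 2 + (A - B) ^ 2) := by
      have h2 : (|t - s| / B) ^ 2 + (1 - A / B) ^ 2 = ((t - s) ^ 2 + (A - B) ^ 2) / B ^ 2 := by
        rw [div_pow, sq_abs]
        field_simp
        ring
      rw [h2]
      field_simp
    rw [h1]
    have h3 : 4 * z.re * ζ.re / ‖z - ζ‖ ^ 2 ≤ 4 * A * B / ((t - s) ^ 2 + (A - B) ^ 2) := by
      rw [div_le_div_iff₀ hn0 hq0]
      rw [hexp] at hge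
      have h4 : 4 * z.re * ζ.re = ‖z‖ * ‖ζ‖ * (4 * A * B) := by rw [e1, e2]; ring
      rw [h4]
      calc ‖z‖ * ‖ζ‖ * (4 * A * B) * ((t - s) ^ 2 + (A - B) ^ 2)
          = 4 * A * B * (‖z‖ * ‖ζ‖ * ((t - s) ^ 2 + (A - B) ^ 2)) := by ring
        _ ≤ 4 * A * B * ‖z - ζ‖ ^ 2 := by
            apply mul_le_mul_of_nonneg_left hge (by positivity)
    linarith

end HallHP

end
end
end
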