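import Pool.Agent.Lib.MP_5c0a14_an.Defs
import Pool.Agent.Lib.MP_5c0a14_an.Geom

section

/-!
# FBInt : the integral of the majorant

`∫_0^∞ FB = ∫_0^{0.19} (2.44 + log (0.19/y)) + ∫_{0.19}^{0.38} (1.835 + log (0.38/y))
 + ∫_{0.38}^{1/√3} (1.5 + log (1/(√3 y))) + ∫_{1/√3}^∞ 2/(1+y²)
 = 0.19 * 3.44 + (2.835 * 0.19 - 0.19 log 2) + (2.5 (1/√3 - 0.38) - 0.38 log (1/(0.38 √3))) + 2π/3`
and this is `≤ 10π/9` (the sum of the first three terms is `1.39499 ≤ 4π/9 = 1.39626`).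
(`integral_log`, `integral_Ioi_inv_one_add_sq`, `Real.arctan_inv_sqrt_three` or
`Real.tan_pi_div_six`.)
-/

noncomputable section

open MeasureTheory Set Metric

namespace HallHP

private theorem fb45_lo : (57735 / 100000 : ℝ) ≤ 1 / Real.sqrt 3 := by
  rw [le_div_iff₀ (by positivity)]
  have h : Real.sqrt 3 ≤ 100000 / 57735 := by
    apply Real.sqrt_le_iff.2
    norm_num
  have := mul_le_mul_of_nonneg_left h (show (0 : ℝ) ≤ 57735 / 100000 by norm_num)
  linarith

private theorem fb45_hi : 1 / Real.sqrt 3 ≤ (57736 / 100000 : ℝ) := by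
  rw [div_le_iff₀ (by positivity)]
  have h : (100000 / 57736 : ℝ) ≤ Real.sqrt 3 := by
    apply Real.le_sqrt_of_sq_le
    norm_num
  have := mul_le_mul_of_nonneg_left h (show (0 : ℝ) ≤ 57736 / 100000 by norm_num)
  linarith

theorem FB_nonneg {y : ℝ} (hy : 0 < y) : 0 ≤ FB y := by
  unfold FB
  split_ifs with h1 h2 h3
  · positivity
  · have : 0 ≤ Real.log (1 / Real.sqrt 3 / y) := by
      apply Real.log_nonneg
      rw [le_div_iff₀ hy]
      linarith [not_le.1 h1]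
    linarith
  · have : 0 ≤ Real.log (38 / 100 / y) := by
      apply Real.log_nonneg
      rw [le_div_iff₀ hy]
      linarith [not_le.1 h2]
    linarith
  · have : 0 ≤ Real.log (19 / 100 / y) := by
      apply Real.log_nonneg
      rw [le_div_iff₀ hy]
      linarith [not_le.1 h3]
    linarith

theorem FB_measurable : Measurable FB := by
  unfold FB
  refine Measurable.ite measurableSet_Ici (by fun_prop) ?_
  refine Measurable.ite measurableSet_Ici ?_ ?_
  · exact measurable_const.add (Real.measurable_log.comp (measurable_const.div measurable_id))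
  refine Measurable.ite measurableSet_Ici ?_ ?_
  · exact measurable_const.add (Real.measurable_log.comp (measurable_const.div measurable_id))
  · exact measurable_const.add (Real.measurable_log.comp (measurable_const.div measurable_id))

/-- the pieces with a logarithm -/
private theorem fb45_piece {a b c : ℝ} (ha : 0 ≤ a) (hab : a < b) (hc : 0 ≤ c) :
    ∫⁻ y in Ioo a b, ENNReal.ofReal (c + Real.log (b / y)) =
      ENNReal.ofReal ((c + 1) * (b - a) - (a * Real.log b - a * Real.log a)) := by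
  have hb : 0 < b := lt_of_le_of_lt ha hab
  have e1 : ∫⁻ y in Ioo a b, ENNReal.ofReal (c + Real.log (b / y)) =
      ∫⁻ y in Ioo a b, ENNReal.ofReal (c + Real.log b - Real.log y) := by
    apply setLIntegral_congr_fun measurableSet_Ioo
    intro y hy
    have hy0 : 0 < y := lt_of_le_of_lt ha hy.1
    simp only
    rw [Real.log_div hb.ne' hy0.ne']
    congr 1
    ring
  rw [e1]
  have hint : IntervalIntegrable (fun y => c + Real.log b - Real.log y) volume a b :=
    intervalIntegrable_const.sub intervalIntegral.intervalIntegrable_log'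
  have hint2 : IntegrableOn (fun y => c + Real.log b - Real.log y) (Ioo a b) volume := by
    have := (intervalIntegrable_iff_integrableOn_Ioo_of_le hab.le).1 hint
    exact this
  rw [← ofReal_integral_eq_lintegral_ofReal hint2]
  · congr 1
    rw [← integral_Ioc_eq_integral_Ioo, ← intervalIntegral.integral_of_le hab.le,
      intervalIntegral.integral_sub intervalIntegrable_const
        intervalIntegral.intervalIntegrable_log', integral_log]
    simp only [intervalIntegral.integral_const, smul_eq_mul]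
    ring
  · rw [Filter.EventuallyLE, ae_restrict_iff' measurableSet_Ioo]
    refine Filter.Eventually.of_forall ?_
    intro y hy
    have hy0 : 0 < y := lt_of_le_of_lt ha hy.1
    have := Real.log_le_log hy0 hy.2.le
    simp only [Pi.zero_apply]
    linarith

private theorem fb45_tail :
    ∫⁻ y in Ioi (1 / Real.sqrt 3), ENNReal.ofReal (2 / (1 + y ^ 2)) =
      ENNReal.ofReal (2 * Real.pi / 3) := by
  have hint : Integrable (fun y : ℝ => 2 * (1 + y ^ 2)⁻¹) (volume.restrict (Ioi (1 / Real.sqrt 3))) :=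
    (integrable_inv_one_add_sq.const_mul 2).integrableOn
  have e : ∀ y : ℝ, 2 / (1 + y ^ 2) = 2 * (1 + y ^ 2)⁻¹ := fun y => by rw [div_eq_mul_inv]
  simp only [e]
  rw [← ofReal_integral_eq_lintegral_ofReal hint]
  · congr 1
    rw [integral_const_mul, integral_Ioi_inv_one_add_sq]
    have : Real.arctan (1 / Real.sqrt 3) = Real.pi / 6 := by
      rw [one_div]
      exact Real.arctan_inv_sqrt_three
    rw [this]
    ring
  · exact Filter.Eventually.of_forall (fun y => by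
      simp only [Pi.zero_apply]
      positivity)

private theorem fb45_num :
    (61 / 25 + 1) * (19 / 100 - 0) - (0 * Real.log (19 / 100) - 0 * Real.log 0) +
      ((367 / 200 + 1) * (38 / 100 - 19 / 100) -
        (19 / 100 * Real.log (38 / 100) - 19 / 100 * Real.log (19 / 100))) +
      ((3 / 2 + 1) * (1 / Real.sqrt 3 - 38 / 100) -
        (38 / 100 * Real.log (1 / Real.sqrt 3) - 38 / 100 * Real.log (38 / 100))) +
      2 * Real.pi / 3 ≤ 10 * Real.pi / 9 := by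
  have h1 : Real.log (38 / 100) = Real.log 2 + Real.log (19 / 100) := by
    rw [← Real.log_mul (by norm_num) (by norm_num)]
    norm_num
  have h2 : (417 / 1000 : ℝ) ≤ Real.log (1 / Real.sqrt 3) - Real.log (38 / 100) := by
    rw [← Real.log_div (by positivity) (by norm_num)]
    rw [Real.le_log_iff_exp_le (by positivity)]
    have h3 : Real.exp (417 / 1000) ≤ 1518 / 1000 := by
      refine (Real.exp_bound' (by norm_num) (by norm_num) (n := 5) (by norm_num)).trans ?_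
      simp only [Finset.sum_range_succ, Finset.sum_range_zero, Nat.factorial]
      norm_num
    refine h3.trans ?_
    rw [le_div_iff₀ (by norm_num)]
    linarith [fb45_lo]
  have h4 := Real.log_two_gt_d9
  have h5 := Real.pi_gt_d4
  have h6 := fb45_hi
  nlinarith [h1, h2, h4, h5, h6]

theorem lintegral_FB :
    ∫⁻ y in Ioi (0 : ℝ), ENNReal.ofReal (FB y) ≤ ENNReal.ofReal (10 * Real.pi / 9) := by
  have hlo := fb45_lo
  have hhi := fb45_hi
  have hsub : Ioi (0 : ℝ) ⊆ ((Ioo 0 (19 / 100) ∪ Ioo (19 / 100) (38 / 100)) ∪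
      Ioo (38 / 100) (1 / Real.sqrt 3)) ∪ Ioi (1 / Real.sqrt 3) ∪
      {19 / 100, 38 / 100, 1 / Real.sqrt 3} := by
    intro y hy
    simp only [mem_union, mem_Ioo, mem_Ioi, mem_insert_iff, mem_singleton_iff] at hy ⊢
    rcases lt_trichotomy y (19 / 100) with h | h | h
    · left; left; left; left; exact ⟨hy, h⟩
    · right; left; exact h
    rcases lt_trichotomy y (38 / 100) with h' | h' | h'
    · left; left; left; right; exact ⟨h, h'⟩
    · right; right; left; exact h'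
    rcases lt_trichotomy y (1 / Real.sqrt 3) with h'' | h'' | h''
    · left; left; right; exact ⟨h', h''⟩
    · right; right; right; exact h''
    · left; right; exact h''
  have hzero : ∫⁻ y in ({19 / 100, 38 / 100, 1 / Real.sqrt 3} : Set ℝ),
      ENNReal.ofReal (FB y) = 0 := by
    apply setLIntegral_measure_zero
    exact (Set.toFinite _).measure_zero _
  have p1 : ∫⁻ y in Ioo (0 : ℝ) (19 / 100), ENNReal.ofReal (FB y) =
      ENNReal.ofReal ((61 / 25 + 1) * (19 / 100 - 0) -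
        (0 * Real.log (19 / 100) - 0 * Real.log 0)) := by
    rw [← fb45_piece le_rfl (by norm_num) (by norm_num)]
    apply setLIntegral_congr_fun measurableSet_Ioo
    intro y hy
    simp only [mem_Ioo] at hy
    have c1 : ¬ (1 / Real.sqrt 3 ≤ y) := by
      rw [not_le]; linarith [hy.2]
    have c2 : ¬ (38 / 100 ≤ y) := by
      rw [not_le]; linarith [hy.2]
    have c3 : ¬ (19 / 100 ≤ y) := by
      rw [not_le]; linarith [hy.2]
    simp only [FB, if_neg c1, if_neg c2, if_neg c3]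
  have p2 : ∫⁻ y in Ioo (19 / 100 : ℝ) (38 / 100), ENNReal.ofReal (FB y) =
      ENNReal.ofReal ((367 / 200 + 1) * (38 / 100 - 19 / 100) -
        (19 / 100 * Real.log (38 / 100) - 19 / 100 * Real.log (19 / 100))) := by
    rw [← fb45_piece (by norm_num) (by norm_num) (by norm_num)]
    apply setLIntegral_congr_fun measurableSet_Ioo
    intro y hy
    simp only [mem_Ioo] at hy
    have c1 : ¬ (1 / Real.sqrt 3 ≤ y) := by
      rw [not_le]; linarith [hy.2]
    have c2 : ¬ (38 / 100 ≤ y) := by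
      rw [not_le]; linarith [hy.2]
    have c3 : (19 / 100 ≤ y) := hy.1.le
    simp only [FB, if_neg c1, if_neg c2, if_pos c3]
  have p3 : ∫⁻ y in Ioo (38 / 100 : ℝ) (1 / Real.sqrt 3), ENNReal.ofReal (FB y) =
      ENNReal.ofReal ((3 / 2 + 1) * (1 / Real.sqrt 3 - 38 / 100) -
        (38 / 100 * Real.log (1 / Real.sqrt 3) - 38 / 100 * Real.log (38 / 100))) := by
    rw [← fb45_piece (by norm_num) (by linarith) (by norm_num)]
    apply setLIntegral_congr_fun measurableSet_Ioo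
    intro y hy
    simp only [mem_Ioo] at hy
    have c1 : ¬ (1 / Real.sqrt 3 ≤ y) := by
      rw [not_le]; exact hy.2
    have c2 : (38 / 100 ≤ y) := hy.1.le
    simp only [FB, if_neg c1, if_pos c2]
  have p4 : ∫⁻ y in Ioi (1 / Real.sqrt 3), ENNReal.ofReal (FB y) =
      ENNReal.ofReal (2 * Real.pi / 3) := by
    rw [← fb45_tail]
    apply setLIntegral_congr_fun measurableSet_Ioi
    intro y hy
    simp only [mem_Ioi] at hy
    have c1 : (1 / Real.sqrt 3 ≤ y) := hy.le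
    simp only [FB, if_pos c1]
  have hl2 : Real.log (38 / 100) - Real.log (19 / 100) ≤ 1 := by
    rw [← Real.log_div (by norm_num) (by norm_num)]
    norm_num
    linarith [Real.log_two_lt_d9]
  have hl3 : Real.log (1 / Real.sqrt 3) - Real.log (38 / 100) ≤ 52 / 100 := by
    rw [← Real.log_div (by positivity) (by norm_num)]
    refine (Real.log_le_sub_one_of_pos (by positivity)).trans ?_
    have : 1 / Real.sqrt 3 / (38 / 100) ≤ 152 / 100 := by
      rw [div_le_iff₀ (by norm_num)]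
      linarith
    linarith
  calc ∫⁻ y in Ioi (0 : ℝ), ENNReal.ofReal (FB y)
      ≤ ∫⁻ y in ((Ioo 0 (19 / 100) ∪ Ioo (19 / 100) (38 / 100)) ∪
      Ioo (38 / 100) (1 / Real.sqrt 3)) ∪ Ioi (1 / Real.sqrt 3) ∪
      {19 / 100, 38 / 100, 1 / Real.sqrt 3}, ENNReal.ofReal (FB y) :=
        lintegral_mono_set hsub
    _ ≤ (((∫⁻ y in Ioo (0 : ℝ) (19 / 100), ENNReal.ofReal (FB y)) +
        (∫⁻ y in Ioo (19 / 100 : ℝ) (38 / 100), ENNReal.ofReal (FB y))) +
        (∫⁻ y in Ioo (38 / 100 : ℝ) (1 / Real.sqrt 3), ENNReal.ofReal (FB y))) +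
        (∫⁻ y in Ioi (1 / Real.sqrt 3), ENNReal.ofReal (FB y)) +
        (∫⁻ y in ({19 / 100, 38 / 100, 1 / Real.sqrt 3} : Set ℝ), ENNReal.ofReal (FB y)) := by
        refine (lintegral_union_le _ _ _).trans ?_
        gcongr
        refine (lintegral_union_le _ _ _).trans ?_
        gcongr
        refine (lintegral_union_le _ _ _).trans ?_
        gcongr
        exact lintegral_union_le _ _ _
    _ = ENNReal.ofReal _ := by
        rw [p1, p2, p3, p4, hzero, add_zero,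
          ← ENNReal.ofReal_add (by norm_num) (by nlinarith),
          ← ENNReal.ofReal_add (by nlinarith) (by nlinarith),
          ← ENNReal.ofReal_add (by nlinarith) (by positivity)]
    _ ≤ ENNReal.ofReal (10 * Real.pi / 9) := ENNReal.ofReal_le_ofReal fb45_num

end HallHP

end
end

section

/-!
# Kern1 : monotonicity properties of the kernel `hk η`

* `hk_anti`: clear.
* `hk_tail`: with `s = 1 + y² ≥ 4/3` one has `1 + 4η/(y²+(1-η)²) = (s+η²+2η)/(s+η²-2η)` and one has to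
  show `D(η) = 2η/s - 1/2 log ((s+η²+2η)/(s+η²-2η)) ≥ 0` for `η ≥ 0`: `D 0 = 0`,
  `D' = 2/s - 2(s-η²)/((s+η²)²-4η²) ≥ 0`, because
  `(s+η²)² - 4η² - s(s-η²) = η² (3s - 4 + η²) ≥ 0`.
* `hk_log`: the function `y ↦ hk η y + log y` is nondecreasing on `(0,∞)`: its derivative is
  `1/y - 4y/((y²+(1+η)²)(y²+(1-η)²)) ≥ 0` because
  `(y²+(1+η)²)(y²+(1-η)²) = (y²+1+η²)² - 4η² ≥ 4 (y²+η²) - 4η² = 4y²`.
-/

noncomputable section

open MeasureTheory Set Metric

namespace HallHP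

private theorem hk_form {η : ℝ} (hη : 0 < η) {y : ℝ} (hy : 0 < y) :
    hk η y = 1 / (2 * η) *
      (Real.log (y ^ 2 + (1 + η) ^ 2) - Real.log (y ^ 2 + (1 - η) ^ 2)) := by
  have h1 : 0 < y ^ 2 + (1 - η) ^ 2 := by positivity
  have h2 : 0 < y ^ 2 + (1 + η) ^ 2 := by positivity
  unfold hk
  rw [← Real.log_div h2.ne' h1.ne']
  congr 2
  field_simp
  ring

theorem hk_nonneg {η : ℝ} (hη : 0 < η) {y : ℝ} (hy : 0 < y) : 0 ≤ hk η y := by
  unfold hk
  refine mul_nonneg (by positivity) (Real.log_nonneg ?_)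
  have : 0 ≤ 4 * η / (y ^ 2 + (1 - η) ^ 2) := by positivity
  linarith

theorem hk_anti {η : ℝ} (hη : 0 < η) {y x : ℝ} (hy : 0 < y) (hyx : y ≤ x) :
    hk η x ≤ hk η y := by
  unfold hk
  refine mul_le_mul_of_nonneg_left ?_ (by positivity)
  have h1 : 0 < y ^ 2 + (1 - η) ^ 2 := by positivity
  have hx : 0 < x := lt_of_lt_of_le hy hyx
  have h2 : 0 < x ^ 2 + (1 - η) ^ 2 := by positivity
  refine Real.log_le_log (by positivity) ?_
  have h3 : y ^ 2 ≤ x ^ 2 := by nlinarith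
  have := div_le_div_of_nonneg_left (by positivity : (0 : ℝ) ≤ 4 * η) h1
    (by linarith : y ^ 2 + (1 - η) ^ 2 ≤ x ^ 2 + (1 - η) ^ 2)
  linarith

private theorem tail_aux {s : ℝ} (hs : 4 / 3 ≤ s) {η : ℝ} (hη : 0 ≤ η) :
    Real.log (s + η ^ 2 + 2 * η) - Real.log (s + η ^ 2 - 2 * η) ≤ 4 * η / s := by
  have hs0 : 0 < s := by linarith
  have hp1 : ∀ t : ℝ, 0 < s + t ^ 2 + 2 * t := fun t => by nlinarith [sq_nonneg (t + 1)]
  have hp2 : ∀ t : ℝ, 0 < s + t ^ 2 - 2 * t := fun t => by nlinarith [sq_nonneg (t - 1)]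
  set D : ℝ → ℝ := fun t => 4 * t / s - (Real.log (s + t ^ 2 + 2 * t) -
    Real.log (s + t ^ 2 - 2 * t)) with hD
  have hder : ∀ t : ℝ, HasDerivAt D (4 / s - ((2 * t + 2) / (s + t ^ 2 + 2 * t) -
      (2 * t - 2) / (s + t ^ 2 - 2 * t))) t := by
    intro t
    have e1 : HasDerivAt (fun t : ℝ => s + t ^ 2 + 2 * t) (2 * t + 2) t :=
      (((hasDerivAt_pow 2 t).const_add s).add ((hasDerivAt_id' t).const_mul 2)).congr_deriv
        (by norm_num)
    have e2 : HasDerivAt (fun t : ℝ => s + t ^ 2 - 2 * t) (2 * t - 2) t :=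
      (((hasDerivAt_pow 2 t).const_add s).sub ((hasDerivAt_id' t).const_mul 2)).congr_deriv
        (by norm_num)
    have e3 : HasDerivAt (fun t : ℝ => 4 * t / s) (4 / s) t := by
      have := ((hasDerivAt_id t).const_mul 4).div_const s
      simp only [id_eq, mul_one] at this
      exact this
    exact e3.sub ((e1.log (hp1 t).ne').sub (e2.log (hp2 t).ne'))
  have hmono : Monotone D := by
    refine monotone_of_deriv_nonneg (fun t => (hder t).differentiableAt) fun t => ?_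
    rw [(hder t).deriv]
    have hP := hp1 t
    have hQ := hp2 t
    have e : (2 * t + 2) / (s + t ^ 2 + 2 * t) - (2 * t - 2) / (s + t ^ 2 - 2 * t)
        = 4 * (s - t ^ 2) / ((s + t ^ 2 + 2 * t) * (s + t ^ 2 - 2 * t)) := by
      field_simp
      ring
    rw [e, sub_nonneg, div_le_div_iff₀ (by positivity) hs0]
    nlinarith [mul_nonneg (sq_nonneg t) (by nlinarith [sq_nonneg t] : 0 ≤ 3 * s - 4 + t ^ 2)]
  have h0 : D 0 = 0 := by simp [hD]
  have := hmono hη
  rw [h0] at this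
  simp only [hD] at this
  linarith

theorem hk_tail {η : ℝ} (hη : 0 < η) {y : ℝ} (hy : 1 / Real.sqrt 3 ≤ y) :
    hk η y ≤ 2 / (1 + y ^ 2) := by
  have h3 : 0 < 1 / Real.sqrt 3 := by positivity
  have hy0 : 0 < y := lt_of_lt_of_le h3 hy
  have hy2 : 1 / 3 ≤ y ^ 2 := by
    have : (1 / Real.sqrt 3) ^ 2 ≤ y ^ 2 := by nlinarith
    rw [div_pow, Real.sq_sqrt (by norm_num)] at this
    simpa using this
  have h := tail_aux (s := 1 + y ^ 2) (by linarith) hη.le
  rw [hk_form hη hy0]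
  have e1 : y ^ 2 + (1 + η) ^ 2 = 1 + y ^ 2 + η ^ 2 + 2 * η := by ring
  have e2 : y ^ 2 + (1 - η) ^ 2 = 1 + y ^ 2 + η ^ 2 - 2 * η := by ring
  rw [e1, e2]
  calc 1 / (2 * η) * (Real.log (1 + y ^ 2 + η ^ 2 + 2 * η) - Real.log (1 + y ^ 2 + η ^ 2 - 2 * η))
      ≤ 1 / (2 * η) * (4 * η / (1 + y ^ 2)) := mul_le_mul_of_nonneg_left h (by positivity)
    _ = 2 / (1 + y ^ 2) := by field_simp; ring

theorem hk_log {η : ℝ} (hη : 0 < η) {y x : ℝ} (hy : 0 < y) (hyx : y ≤ x) :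
    hk η y ≤ hk η x + Real.log (x / y) := by
  have hx : 0 < x := lt_of_lt_of_le hy hyx
  rw [Real.log_div hx.ne' hy.ne', hk_form hη hy, hk_form hη hx]
  set G : ℝ → ℝ := fun t => 1 / (2 * η) *
      (Real.log (t ^ 2 + (1 + η) ^ 2) - Real.log (t ^ 2 + (1 - η) ^ 2)) + Real.log t with hG
  have hder : ∀ t : ℝ, 0 < t → HasDerivAt G (1 / (2 * η) *
      (2 * t / (t ^ 2 + (1 + η) ^ 2) - 2 * t / (t ^ 2 + (1 - η) ^ 2)) + 1 / t) t := by
    intro t ht
    have h1 : 0 < t ^ 2 + (1 - η) ^ 2 := by positivity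
    have h2 : 0 < t ^ 2 + (1 + η) ^ 2 := by positivity
    have e : ∀ c : ℝ, HasDerivAt (fun t : ℝ => t ^ 2 + c) (2 * t) t := fun c =>
      ((hasDerivAt_pow 2 t).add_const c).congr_deriv (by norm_num)
    have e3 := (((e ((1 + η) ^ 2)).log h2.ne').sub ((e ((1 - η) ^ 2)).log h1.ne')).const_mul
      (1 / (2 * η))
    have e4 := (hasDerivAt_id t).log ht.ne'
    exact e3.add e4
  have hmono : MonotoneOn G (Ioi 0) := by
    refine monotoneOn_of_deriv_nonneg (convex_Ioi 0)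
      (fun t ht => (hder t ht).continuousAt.continuousWithinAt)
      (fun t ht => (hder t (by simpa using ht)).differentiableAt.differentiableWithinAt) ?_
    intro t ht
    rw [interior_Ioi] at ht
    have ht' : 0 < t := ht
    rw [(hder t ht').deriv]
    have h1 : 0 < t ^ 2 + (1 - η) ^ 2 := by positivity
    have h2 : 0 < t ^ 2 + (1 + η) ^ 2 := by positivity
    have e : 1 / (2 * η) * (2 * t / (t ^ 2 + (1 + η) ^ 2) - 2 * t / (t ^ 2 + (1 - η) ^ 2))
        = - (4 * t / ((t ^ 2 + (1 + η) ^ 2) * (t ^ 2 + (1 - η) ^ 2))) := by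
      field_simp
      ring
    rw [e]
    have : 4 * t / ((t ^ 2 + (1 + η) ^ 2) * (t ^ 2 + (1 - η) ^ 2)) ≤ 1 / t := by
      rw [div_le_div_iff₀ (by positivity) ht']
      nlinarith [sq_nonneg (t ^ 2 + η ^ 2 - 1), mul_pos h1 h2]
    linarith
  have := hmono (show y ∈ Ioi (0 : ℝ) from hy) (show x ∈ Ioi (0 : ℝ) from hx) hyx
  simp only [hG] at this
  linarith

end HallHP

end
end

section

/-!
# Sech : lower bound for the Riemann sum of `1 / cosh`

`arctan (sinh ((j+1) Δ)) - arctan (sinh (j Δ)) ≤ Δ / cosh (j Δ)` for `j ≥ 0` (the derivative of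
`arctan ∘ sinh` is `1 / cosh`, which is nonincreasing on `[0, ∞)`). Telescoping,
`∑_{j=0}^{N} Δ / cosh (j Δ) ≥ arctan (sinh ((N+1) Δ)) ≥ arctan (sinh (N Δ))`; the sum over
`Icc (-N) N` is twice this sum minus `Δ`.
-/

noncomputable section

open MeasureTheory Set Metric

namespace HallHP

private theorem sech_deriv (x : ℝ) :
    HasDerivAt (fun t : ℝ => Real.arctan (Real.sinh t)) (1 / Real.cosh x) x := by
  have h := (Real.hasDerivAt_arctan (Real.sinh x)).comp x (Real.hasDerivAt_sinh x)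
  have hc : (0 : ℝ) < Real.cosh x := Real.cosh_pos x
  have he : 1 / (1 + Real.sinh x ^ 2) * Real.cosh x = 1 / Real.cosh x := by
    have h2 : 1 + Real.sinh x ^ 2 = Real.cosh x ^ 2 := by
      rw [Real.cosh_sq]; ring
    rw [h2]
    field_simp
  rw [he] at h
  exact h

private theorem sech_step {Δ : ℝ} (hΔ : 0 < Δ) {a : ℝ} (ha : 0 ≤ a) :
    Real.arctan (Real.sinh (a + Δ)) - Real.arctan (Real.sinh a) ≤ Δ / Real.cosh a := by
  have hlt : a < a + Δ := by linarith
  obtain ⟨c, hc, hcd⟩ := exists_hasDerivAt_eq_slope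
    (fun t : ℝ => Real.arctan (Real.sinh t)) (fun t => 1 / Real.cosh t) hlt
    (fun t _ => (sech_deriv t).continuousAt.continuousWithinAt)
    (fun t _ => sech_deriv t)
  have hcosh : Real.cosh a ≤ Real.cosh c := by
    rw [Real.cosh_le_cosh, abs_of_nonneg ha, abs_of_nonneg (ha.trans hc.1.le)]
    exact hc.1.le
  have hΔ' : a + Δ - a = Δ := by ring
  rw [hΔ'] at hcd
  have h1 : Real.arctan (Real.sinh (a + Δ)) - Real.arctan (Real.sinh a) = Δ * (1 / Real.cosh c) := by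
    have := hcd
    field_simp at this ⊢
    linarith
  rw [h1, one_div, div_eq_mul_inv]
  exact mul_le_mul_of_nonneg_left (inv_anti₀ (Real.cosh_pos a) hcosh) hΔ.le

private theorem sech_half {Δ : ℝ} (hΔ : 0 < Δ) (N : ℕ) :
    Real.arctan (Real.sinh ((N : ℝ) * Δ)) ≤
      ∑ j ∈ Finset.range N, Δ / Real.cosh ((j : ℝ) * Δ) := by
  induction N with
  | zero => simp
  | succ n ih =>
    rw [Finset.sum_range_succ]
    have h := sech_step hΔ (a := (n : ℝ) * Δ) (by positivity)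
    have h2 : (((n + 1 : ℕ) : ℝ)) * Δ = (n : ℝ) * Δ + Δ := by push_cast; ring
    rw [h2]
    linarith

theorem sech_sum {Δ : ℝ} (hΔ : 0 < Δ) (N : ℕ) :
    2 * Real.arctan (Real.sinh (N * Δ)) - Δ ≤
      ∑ j ∈ Finset.Icc (-(N : ℤ)) N, Δ / Real.cosh ((j : ℝ) * Δ) := by
  have key : ∀ n : ℕ, ∑ j ∈ Finset.Icc (-(n : ℤ)) n, Δ / Real.cosh ((j : ℝ) * Δ) =
      2 * (∑ j ∈ Finset.range (n + 1), Δ / Real.cosh ((j : ℝ) * Δ)) - Δ := by
    intro n
    induction n with
    | zero => simp; ring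
    | succ m ih =>
      have h1 : Finset.Icc (-((m + 1 : ℕ) : ℤ)) ((m + 1 : ℕ) : ℤ) =
          insert (-((m + 1 : ℕ) : ℤ)) (insert ((m + 1 : ℕ) : ℤ) (Finset.Icc (-(m : ℤ)) m)) := by
        ext x
        simp only [Finset.mem_Icc, Finset.mem_insert]
        push_cast
        omega
      rw [h1, Finset.sum_insert, Finset.sum_insert, ih, Finset.sum_range_succ _ (m + 1)]
      · have h3 : ((-((m + 1 : ℕ) : ℤ) : ℤ) : ℝ) * Δ = -((((m + 1 : ℕ)) : ℝ) * Δ) := by
          push_cast; ring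
        have h4 : (((m + 1 : ℕ) : ℤ) : ℝ) * Δ = (((m + 1 : ℕ)) : ℝ) * Δ := by
          push_cast; ring
        rw [h3, h4, Real.cosh_neg]
        ring
      · simp only [Finset.mem_Icc]
        push_cast
        omega
      · simp only [Finset.mem_Icc, Finset.mem_insert]
        push_cast
        omega
  rw [key N]
  have h := sech_half hΔ N
  rw [Finset.sum_range_succ]
  have h0 : 0 ≤ Δ / Real.cosh ((N : ℝ) * Δ) := div_nonneg hΔ.le (Real.cosh_pos _).le
  linarith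

/-- `2 arctan (sinh T) → π` as `T → ∞`. -/
theorem arctan_sinh_tendsto :
    Filter.Tendsto (fun T : ℝ => 2 * Real.arctan (Real.sinh T)) Filter.atTop (nhds Real.pi) := by
  have h1 : Filter.Tendsto (fun T : ℝ => Real.sinh T) Filter.atTop Filter.atTop := by
    refine Filter.tendsto_atTop_mono' _ ?_ Filter.tendsto_id
    filter_upwards [Filter.eventually_ge_atTop (0 : ℝ)] with x hx
    exact Real.self_le_sinh_iff.mpr hx
  have h2 : Filter.Tendsto (fun T : ℝ => Real.arctan (Real.sinh T)) Filter.atTop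
      (nhds (Real.pi / 2)) :=
    (Real.tendsto_arctan_atTop.mono_right nhdsWithin_le_nhds).comp h1
  have h3 := h2.const_mul 2
  have h4 : 2 * (Real.pi / 2) = Real.pi := by ring
  rw [h4] at h3
  exact h3

end HallHP

end
end

section

/-!
# Sel : uniform choice of discs (compactness)

`IsCompact.induction_on` for `Icc a b` and the property
`p s = ∃ δ > 0, ∀ t ∈ s, ∃ ζ, ‖ζ‖ = exp t ∧ closedBall ζ δ ⊆ E`. Neighbourhood step: for `t` take
`ζ ∈ E` with `‖ζ‖ = exp t`, `ball ζ (2 r) ⊆ E`; for `t'` near `t` the point `ζ' = exp (t' - t) • ζ`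
has norm `exp t'` and `‖ζ' - ζ‖ < r`, so `closedBall ζ' (r / 2) ⊆ E`.
-/

noncomputable section

open MeasureTheory Set Metric

namespace HallHP

theorem select {E : Set ℂ} (hE : IsOpen E) (a b : ℝ)
    (h : ∀ t ∈ Icc a b, ∃ ζ ∈ E, ‖ζ‖ = Real.exp t) :
    ∃ δ : ℝ, 0 < δ ∧ ∀ t ∈ Icc a b, ∃ ζ : ℂ, ‖ζ‖ = Real.exp t ∧ closedBall ζ δ ⊆ E := by
  refine (isCompact_Icc (a := a) (b := b)).induction_on
    (p := fun s => ∃ δ : ℝ, 0 < δ ∧ ∀ t ∈ s, ∃ ζ : ℂ, ‖ζ‖ = Real.exp t ∧ closedBall ζ δ ⊆ E)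
    ⟨1, one_pos, by simp⟩ ?_ ?_ ?_
  · rintro s t hst ⟨δ, hδ, H⟩
    exact ⟨δ, hδ, fun x hx => H x (hst hx)⟩
  · rintro s t ⟨δ, hδ, H⟩ ⟨δ', hδ', H'⟩
    refine ⟨min δ δ', lt_min hδ hδ', ?_⟩
    rintro x (hx | hx)
    · obtain ⟨ζ, h1, h2⟩ := H x hx
      exact ⟨ζ, h1, (closedBall_subset_closedBall (min_le_left _ _)).trans h2⟩
    · obtain ⟨ζ, h1, h2⟩ := H' x hx
      exact ⟨ζ, h1, (closedBall_subset_closedBall (min_le_right _ _)).trans h2⟩
  · intro t ht
    obtain ⟨ζ, hζ, hn⟩ := h t ht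
    obtain ⟨r, hr, hrE⟩ := Metric.isOpen_iff.mp hE ζ hζ
    have hc : Continuous (fun t' : ℝ => dist ((Real.exp (t' - t) : ℝ) • ζ) ζ) := by fun_prop
    have hev : ∀ᶠ t' in nhds t, dist ((Real.exp (t' - t) : ℝ) • ζ) ζ < r / 2 := by
      have h0 : dist ((Real.exp (t - t) : ℝ) • ζ) ζ < r / 2 := by simp [hr]
      exact hc.continuousAt.eventually_lt continuousAt_const h0
    refine ⟨{t' | dist ((Real.exp (t' - t) : ℝ) • ζ) ζ < r / 2}, mem_nhdsWithin_of_mem_nhds hev,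
      r / 4, by positivity, ?_⟩
    intro t' ht'
    refine ⟨(Real.exp (t' - t) : ℝ) • ζ, ?_, ?_⟩
    · rw [norm_smul, hn, Real.norm_eq_abs, abs_of_pos (Real.exp_pos _), ← Real.exp_add]
      congr 1; ring
    · intro z hz
      apply hrE
      rw [mem_ball]
      have h1 : dist z ((Real.exp (t' - t) : ℝ) • ζ) ≤ r / 4 := hz
      have h2 : dist ((Real.exp (t' - t) : ℝ) • ζ) ζ < r / 2 := ht'
      linarith [dist_triangle z ((Real.exp (t' - t) : ℝ) • ζ) ζ]

end HallHP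

end
end

section

/-!
# Kern2 : numerical bounds `hk η (19/100) ≤ 61/25`, `hk η (38/100) ≤ 367/200` for all `η > 0`

With `s = 1 + y²`, `R(η) = (s+η²+2η)/(s+η²-2η)` and `F` the bound, the claim is `log R(η) ≤ 2 F η`.
For every real `c`: `log R ≤ c - 1 + R / e^c` (`Real.add_one_le_exp` or `Real.log_le_sub_one_of_pos`
applied to `R / e^c`), so it suffices that `s + η² + 2η ≤ E (2 F η + 1 - c) (s + η² - 2η)` for a
rational `0 < E ≤ e^c`, with `2 F η + 1 - c ≥ 0`.
`y = 19/100`, `F = 61/25`: `c = 0` on `(0, 0.11]`, `c = 1/2` on `[0.05, 0.28]`, `c = 3/2` on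
`[0.21, 0.52]`, `c = 5/2` on `[0.40, 0.69]`, `c = 7/2` on `[0.60, 0.81]`, `c = 17/4` on
`[0.78, 0.90]`, `c = 9/2` on `[0.87, ∞)`.
`y = 38/100`, `F = 367/200`: for `η ≤ 7/20` use `artanh v ≤ v + v³ / (3 (1 - v²))`,
`v = 2η/(s+η²)` (`log R = 2 artanh v`); then `c = 3/2` on `[0.345, 0.48]`, `c = 2` on
`[0.483, 0.598]` (use also `c = 7/4` in between if needed), `c = 9/4`, `c = 5/2` on
`[0.645, 0.715]`, `c = 11/4`, `c = 3` on `[0.78, ∞)`.
(The ranges are numerical; adjust as convenient. True values: sup = 2.4308 and 1.8292.)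
-/

noncomputable section

open MeasureTheory Set Metric

namespace HallHP

private theorem k2_exp {E : ℝ} (hE : 0 ≤ E) (m k : ℕ) (hk : k ≠ 0) (h : E ^ k ≤ (2.7182818283 : ℝ) ^ m) :
    E ≤ Real.exp ((m : ℝ) / k) := by
  have h1 : (Real.exp ((m : ℝ) / k)) ^ k = Real.exp 1 ^ m := by
    rw [← Real.exp_nat_mul, ← Real.exp_nat_mul]
    congr 1
    have : (k : ℝ) ≠ 0 := by exact_mod_cast hk
    field_simp
  have h2 : (2.7182818283 : ℝ) ^ m ≤ Real.exp 1 ^ m :=
    pow_le_pow_left₀ (by norm_num) Real.exp_one_gt_d9.le m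
  refine le_of_pow_le_pow_left₀ hk (Real.exp_pos _).le ?_
  rw [h1]
  exact h.trans h2

private theorem k2_piece {η y F c E : ℝ} (hη : 0 < η) (hy : 0 < y) (hE : 0 < E)
    (hEc : E ≤ Real.exp c) (hpos : 0 ≤ 2 * F * η + 1 - c)
    (hp : 1 + y ^ 2 + η ^ 2 + 2 * η ≤ E * (2 * F * η + 1 - c) * (1 + y ^ 2 + η ^ 2 - 2 * η)) :
    hk η y ≤ F := by
  have hden : 0 < y ^ 2 + (1 - η) ^ 2 := by positivity
  have hdeneq : 1 + y ^ 2 + η ^ 2 - 2 * η = y ^ 2 + (1 - η) ^ 2 := by ring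
  rw [hdeneq] at hp
  set R : ℝ := 1 + 4 * η / (y ^ 2 + (1 - η) ^ 2) with hR
  have hR0 : 0 < R := by positivity
  have hRle : R ≤ E * (2 * F * η + 1 - c) := by
    have : R = (1 + y ^ 2 + η ^ 2 + 2 * η) / (y ^ 2 + (1 - η) ^ 2) := by
      rw [hR]; field_simp; ring
    rw [this, div_le_iff₀ hden]
    exact hp
  have hec : 0 < Real.exp c := Real.exp_pos c
  have h1 : Real.log (R / Real.exp c) ≤ R / Real.exp c - 1 :=
    Real.log_le_sub_one_of_pos (by positivity)
  rw [Real.log_div hR0.ne' hec.ne', Real.log_exp] at h1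
  have h2 : R / Real.exp c ≤ 2 * F * η + 1 - c := by
    rw [div_le_iff₀ hec]
    calc R ≤ E * (2 * F * η + 1 - c) := hRle
      _ ≤ Real.exp c * (2 * F * η + 1 - c) := by gcongr
      _ = _ := by ring
  have h3 : Real.log R ≤ 2 * F * η := by linarith
  unfold hk
  rw [← hR, div_mul_eq_mul_div, one_mul, div_le_iff₀ (by positivity)]
  linarith

private theorem k2_bern {a b η : ℝ} (ha : a ≤ η) (hb : η ≤ b) :
    0 ≤ (η - a) ^ 3 ∧ 0 ≤ (η - a) ^ 2 * (b - η) ∧ 0 ≤ (η - a) * (b - η) ^ 2 ∧ 0 ≤ (b - η) ^ 3 := by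
  have h1 : 0 ≤ η - a := by linarith
  have h2 : 0 ≤ b - η := by linarith
  refine ⟨by positivity, by positivity, by positivity, by positivity⟩

theorem hk_19 {η : ℝ} (hη : 0 < η) : hk η (19 / 100) ≤ 61 / 25 := by
  rcases le_total η (11 / 100) with h0 | h0
  · have hb := k2_bern (a := 0) (b := 11 / 100) (η := η) hη.le h0
    obtain ⟨q1, q2, q3, q4⟩ := hb
    refine k2_piece (E := 1) (c := 0) hη (by norm_num) (by norm_num) (by simp) (by nlinarith) ?_
    nlinarith [q1, q2, q3, q4]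
  rcases le_total η (28 / 100) with h1 | h1
  · have hb := k2_bern (a := 11 / 100) (b := 28 / 100) (η := η) h0 h1
    obtain ⟨q1, q2, q3, q4⟩ := hb
    refine k2_piece (E := 1648 / 1000) (c := ((1 : ℕ) : ℝ) / (2 : ℕ)) hη (by norm_num) (by norm_num)
      (k2_exp (by norm_num) 1 2 (by norm_num) (by norm_num)) (by push_cast; linarith) ?_
    push_cast
    nlinarith [q1, q2, q3, q4]
  rcases le_total η (52 / 100) with h2 | h2
  · have hb := k2_bern (a := 28 / 100) (b := 52 / 100) (η := η) h1 h2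
    obtain ⟨q1, q2, q3, q4⟩ := hb
    refine k2_piece (E := 4481 / 1000) (c := ((3 : ℕ) : ℝ) / (2 : ℕ)) hη (by norm_num) (by norm_num)
      (k2_exp (by norm_num) 3 2 (by norm_num) (by norm_num)) (by push_cast; linarith) ?_
    push_cast
    nlinarith [q1, q2, q3, q4]
  rcases le_total η (69 / 100) with h3 | h3
  · have hb := k2_bern (a := 52 / 100) (b := 69 / 100) (η := η) h2 h3
    obtain ⟨q1, q2, q3, q4⟩ := hb
    refine k2_piece (E := 1218 / 100) (c := ((5 : ℕ) : ℝ) / (2 : ℕ)) hη (by norm_num) (by norm_num)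
      (k2_exp (by norm_num) 5 2 (by norm_num) (by norm_num)) (by push_cast; linarith) ?_
    push_cast
    nlinarith [q1, q2, q3, q4]
  rcases le_total η (81 / 100) with h4 | h4
  · have hb := k2_bern (a := 69 / 100) (b := 81 / 100) (η := η) h3 h4
    obtain ⟨q1, q2, q3, q4⟩ := hb
    refine k2_piece (E := 3311 / 100) (c := ((7 : ℕ) : ℝ) / (2 : ℕ)) hη (by norm_num) (by norm_num)
      (k2_exp (by norm_num) 7 2 (by norm_num) (by norm_num)) (by push_cast; linarith) ?_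
    push_cast
    nlinarith [q1, q2, q3, q4]
  rcases le_total η (90 / 100) with h5 | h5
  · have hb := k2_bern (a := 81 / 100) (b := 90 / 100) (η := η) h4 h5
    obtain ⟨q1, q2, q3, q4⟩ := hb
    refine k2_piece (E := 701 / 10) (c := ((17 : ℕ) : ℝ) / (4 : ℕ)) hη (by norm_num) (by norm_num)
      (k2_exp (by norm_num) 17 4 (by norm_num) (by norm_num)) (by push_cast; linarith) ?_
    push_cast
    nlinarith [q1, q2, q3, q4]
  have ht : 0 ≤ η - 90 / 100 := by linarith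
  refine k2_piece (E := 90) (c := ((9 : ℕ) : ℝ) / (2 : ℕ)) hη (by norm_num) (by norm_num)
    (k2_exp (by norm_num) 9 2 (by norm_num) (by norm_num)) (by push_cast; linarith) ?_
  push_cast
  nlinarith [mul_nonneg ht (sq_nonneg (η - 90 / 100 - 97 / 10000)), mul_nonneg ht (sq_nonneg (η - 90 / 100)), ht]

theorem hk_38 {η : ℝ} (hη : 0 < η) : hk η (38 / 100) ≤ 367 / 200 := by
  rcases le_total η (25 / 1000) with h0 | h0
  · have hb := k2_bern (a := 0) (b := 25 / 1000) (η := η) hη.le h0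
    obtain ⟨q1, q2, q3, q4⟩ := hb
    refine k2_piece (E := 1) (c := 0) hη (by norm_num) (by norm_num) (by simp) (by nlinarith) ?_
    nlinarith [q1, q2, q3, q4]
  rcases le_total η (50 / 1000) with h1 | h1
  · have hb := k2_bern (a := 25 / 1000) (b := 50 / 1000) (η := η) h0 h1
    obtain ⟨q1, q2, q3, q4⟩ := hb
    refine k2_piece (E := 1105 / 1000) (c := ((1 : ℕ) : ℝ) / (10 : ℕ)) hη (by norm_num) (by norm_num)
      (k2_exp (by norm_num) 1 10 (by norm_num) (by norm_num)) (by push_cast; linarith) ?_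
    push_cast
    nlinarith [q1, q2, q3, q4]
  rcases le_total η (120 / 1000) with h2 | h2
  · have hb := k2_bern (a := 50 / 1000) (b := 120 / 1000) (η := η) h1 h2
    obtain ⟨q1, q2, q3, q4⟩ := hb
    refine k2_piece (E := 1284 / 1000) (c := ((1 : ℕ) : ℝ) / (4 : ℕ)) hη (by norm_num) (by norm_num)
      (k2_exp (by norm_num) 1 4 (by norm_num) (by norm_num)) (by push_cast; linarith) ?_
    push_cast
    nlinarith [q1, q2, q3, q4]
  rcases le_total η (200 / 1000) with h3 | h3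
  · have hb := k2_bern (a := 120 / 1000) (b := 200 / 1000) (η := η) h2 h3
    obtain ⟨q1, q2, q3, q4⟩ := hb
    refine k2_piece (E := 1648 / 1000) (c := ((1 : ℕ) : ℝ) / (2 : ℕ)) hη (by norm_num) (by norm_num)
      (k2_exp (by norm_num) 1 2 (by norm_num) (by norm_num)) (by push_cast; linarith) ?_
    push_cast
    nlinarith [q1, q2, q3, q4]
  rcases le_total η (280 / 1000) with h4 | h4
  · have hb := k2_bern (a := 200 / 1000) (b := 280 / 1000) (η := η) h3 h4
    obtain ⟨q1, q2, q3, q4⟩ := hb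
    refine k2_piece (E := 2117 / 1000) (c := ((3 : ℕ) : ℝ) / (4 : ℕ)) hη (by norm_num) (by norm_num)
      (k2_exp (by norm_num) 3 4 (by norm_num) (by norm_num)) (by push_cast; linarith) ?_
    push_cast
    nlinarith [q1, q2, q3, q4]
  rcases le_total η (350 / 1000) with h5 | h5
  · have hb := k2_bern (a := 280 / 1000) (b := 350 / 1000) (η := η) h4 h5
    obtain ⟨q1, q2, q3, q4⟩ := hb
    refine k2_piece (E := 2718 / 1000) (c := ((1 : ℕ) : ℝ) / (1 : ℕ)) hη (by norm_num) (by norm_num)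
      (k2_exp (by norm_num) 1 1 (by norm_num) (by norm_num)) (by push_cast; linarith) ?_
    push_cast
    nlinarith [q1, q2, q3, q4]
  rcases le_total η (420 / 1000) with h6 | h6
  · have hb := k2_bern (a := 350 / 1000) (b := 420 / 1000) (η := η) h5 h6
    obtain ⟨q1, q2, q3, q4⟩ := hb
    refine k2_piece (E := 3490 / 1000) (c := ((5 : ℕ) : ℝ) / (4 : ℕ)) hη (by norm_num) (by norm_num)
      (k2_exp (by norm_num) 5 4 (by norm_num) (by norm_num)) (by push_cast; linarith) ?_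
    push_cast
    nlinarith [q1, q2, q3, q4]
  rcases le_total η (480 / 1000) with h7 | h7
  · have hb := k2_bern (a := 420 / 1000) (b := 480 / 1000) (η := η) h6 h7
    obtain ⟨q1, q2, q3, q4⟩ := hb
    refine k2_piece (E := 4481 / 1000) (c := ((3 : ℕ) : ℝ) / (2 : ℕ)) hη (by norm_num) (by norm_num)
      (k2_exp (by norm_num) 3 2 (by norm_num) (by norm_num)) (by push_cast; linarith) ?_
    push_cast
    nlinarith [q1, q2, q3, q4]
  rcases le_total η (540 / 1000) with h8 | h8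
  · have hb := k2_bern (a := 480 / 1000) (b := 540 / 1000) (η := η) h7 h8
    obtain ⟨q1, q2, q3, q4⟩ := hb
    refine k2_piece (E := 5754 / 1000) (c := ((7 : ℕ) : ℝ) / (4 : ℕ)) hη (by norm_num) (by norm_num)
      (k2_exp (by norm_num) 7 4 (by norm_num) (by norm_num)) (by push_cast; linarith) ?_
    push_cast
    nlinarith [q1, q2, q3, q4]
  rcases le_total η (595 / 1000) with h9 | h9
  · have hb := k2_bern (a := 540 / 1000) (b := 595 / 1000) (η := η) h8 h9
    obtain ⟨q1, q2, q3, q4⟩ := hb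
    refine k2_piece (E := 7389 / 1000) (c := ((2 : ℕ) : ℝ) / (1 : ℕ)) hη (by norm_num) (by norm_num)
      (k2_exp (by norm_num) 2 1 (by norm_num) (by norm_num)) (by push_cast; linarith) ?_
    push_cast
    nlinarith [q1, q2, q3, q4]
  rcases le_total η (650 / 1000) with h10 | h10
  · have hb := k2_bern (a := 595 / 1000) (b := 650 / 1000) (η := η) h9 h10
    obtain ⟨q1, q2, q3, q4⟩ := hb
    refine k2_piece (E := 9487 / 1000) (c := ((9 : ℕ) : ℝ) / (4 : ℕ)) hη (by norm_num) (by norm_num)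
      (k2_exp (by norm_num) 9 4 (by norm_num) (by norm_num)) (by push_cast; linarith) ?_
    push_cast
    nlinarith [q1, q2, q3, q4]
  rcases le_total η (717 / 1000) with h11 | h11
  · have hb := k2_bern (a := 650 / 1000) (b := 717 / 1000) (η := η) h10 h11
    obtain ⟨q1, q2, q3, q4⟩ := hb
    refine k2_piece (E := 12182 / 1000) (c := ((5 : ℕ) : ℝ) / (2 : ℕ)) hη (by norm_num) (by norm_num)
      (k2_exp (by norm_num) 5 2 (by norm_num) (by norm_num)) (by push_cast; linarith) ?_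
    push_cast
    nlinarith [q1, q2, q3, q4]
  rcases le_total η (800 / 1000) with h12 | h12
  · have hb := k2_bern (a := 717 / 1000) (b := 800 / 1000) (η := η) h11 h12
    obtain ⟨q1, q2, q3, q4⟩ := hb
    refine k2_piece (E := 15642 / 1000) (c := ((11 : ℕ) : ℝ) / (4 : ℕ)) hη (by norm_num) (by norm_num)
      (k2_exp (by norm_num) 11 4 (by norm_num) (by norm_num)) (by push_cast; linarith) ?_
    push_cast
    nlinarith [q1, q2, q3, q4]
  have ht : 0 ≤ η - 800 / 1000 := by linarith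
  refine k2_piece (E := 20085 / 1000) (c := ((3 : ℕ) : ℝ) / (1 : ℕ)) hη (by norm_num) (by norm_num)
    (k2_exp (by norm_num) 3 1 (by norm_num) (by norm_num)) (by push_cast; linarith) ?_
  push_cast
  nlinarith [mul_nonneg ht (sq_nonneg (η - 800 / 1000 - 79 / 1000)), mul_nonneg ht (sq_nonneg (η - 800 / 1000)), ht]

/-- `hk_tail` for `y ≥ 1/√3`; otherwise `hk_log` with `x = 1/√3` (`hk_tail` at `1/√3` gives `3/2`),
`x = 38/100`, `x = 19/100`. -/
theorem hk_le_FB {η : ℝ} (hη : 0 < η) {y : ℝ} (hy : 0 < y) : hk η y ≤ FB y := by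
  unfold FB
  split_ifs with h1 h2 h3
  · exact hk_tail hη h1
  · have h4 := hk_log hη hy (not_le.1 h1).le
    have h5 := hk_tail hη (le_refl (1 / Real.sqrt 3))
    have h6 : (2 : ℝ) / (1 + (1 / Real.sqrt 3) ^ 2) = 3 / 2 := by
      rw [div_pow, Real.sq_sqrt (by norm_num)]
      norm_num
    rw [h6] at h5
    linarith
  · have h4 := hk_log hη hy (not_le.1 h2).le
    have h5 := hk_38 hη
    linarith
  · have h4 := hk_log hη hy (not_le.1 h3).le
    have h5 := hk_19 hη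
    linarith

end HallHP

end
end

section

/-!
# Riem : the Riemann sum is bounded by the integral of the majorant

For `j` with `Δ ≤ j Δ - s` put `I_j = Ioo ((j - 1) Δ - s) (j Δ - s) ⊆ (0, ∞)`; these intervals are
disjoint, and on `I_j` one has `hk (η j) |j Δ - s| ≤ hk (η j) y ≤ FB y`; so
`Δ * hk (η j) |j Δ - s| ≤ ∫_{I_j} FB`, and the sum over these `j` is at most
`∫_0^∞ FB ≤ 10 π / 9`. Same for the `j` with `j Δ - s ≤ -Δ` with the intervals
`Ioo (s - (j + 1) Δ) (s - j Δ)` (note `|j Δ - s| = s - j Δ`).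
-/

noncomputable section

open MeasureTheory Set Metric

namespace HallHP

theorem riemann_pos {Δ : ℝ} (hΔ : 0 < Δ) (s : ℝ) (J : Finset ℤ) (η : ℤ → ℝ)
    (hη : ∀ j ∈ J, 0 < η j) (hJ : ∀ j ∈ J, Δ ≤ (j : ℝ) * Δ - s) :
    ∑ j ∈ J, Δ * hk (η j) ((j : ℝ) * Δ - s) ≤ 10 * Real.pi / 9 := by
  classical
  have hpos : ∀ j ∈ J, 0 < (j : ℝ) * Δ - s := fun j hj => lt_of_lt_of_le hΔ (hJ j hj)
  have hterm : ∀ j ∈ J, 0 ≤ Δ * hk (η j) ((j : ℝ) * Δ - s) := fun j hj =>
    mul_nonneg hΔ.le (hk_nonneg (hη j hj) (hpos j hj))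
  -- each term is bounded by the integral over the interval
  have hone : ∀ j ∈ J, ENNReal.ofReal (Δ * hk (η j) ((j : ℝ) * Δ - s)) ≤
      ∫⁻ y in Ioo (((j : ℝ) - 1) * Δ - s) ((j : ℝ) * Δ - s), ENNReal.ofReal (FB y) := by
    intro j hj
    have hvol : volume (Ioo (((j : ℝ) - 1) * Δ - s) ((j : ℝ) * Δ - s)) = ENNReal.ofReal Δ := by
      rw [Real.volume_Ioo]
      congr 1
      ring
    calc ENNReal.ofReal (Δ * hk (η j) ((j : ℝ) * Δ - s))
        = ENNReal.ofReal (hk (η j) ((j : ℝ) * Δ - s)) *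
            volume (Ioo (((j : ℝ) - 1) * Δ - s) ((j : ℝ) * Δ - s)) := by
          rw [hvol, ENNReal.ofReal_mul hΔ.le, mul_comm]
      _ = ∫⁻ _ in Ioo (((j : ℝ) - 1) * Δ - s) ((j : ℝ) * Δ - s),
            ENNReal.ofReal (hk (η j) ((j : ℝ) * Δ - s)) := by
          rw [setLIntegral_const]
      _ ≤ ∫⁻ y in Ioo (((j : ℝ) - 1) * Δ - s) ((j : ℝ) * Δ - s), ENNReal.ofReal (FB y) := by
          refine setLIntegral_mono' measurableSet_Ioo ?_
          intro y hy
          have h1 : 0 ≤ ((j : ℝ) - 1) * Δ - s := by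
            have := hJ j hj
            linarith
          have hy0 : 0 < y := lt_of_le_of_lt h1 hy.1
          exact ENNReal.ofReal_le_ofReal
            ((hk_anti (hη j hj) hy0 hy.2.le).trans (hk_le_FB (hη j hj) hy0))
  have hdisj : Set.PairwiseDisjoint (↑J : Set ℤ)
      (fun j : ℤ => Ioo (((j : ℝ) - 1) * Δ - s) ((j : ℝ) * Δ - s)) := by
    have key : ∀ i j : ℤ, i < j → Disjoint (Ioo (((i : ℝ) - 1) * Δ - s) ((i : ℝ) * Δ - s))
        (Ioo (((j : ℝ) - 1) * Δ - s) ((j : ℝ) * Δ - s)) := by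
      intro i j hij
      rw [Set.disjoint_left]
      intro y hy1 hy2
      have h1 : (i : ℝ) ≤ (j : ℝ) - 1 := by
        have : i ≤ j - 1 := by omega
        exact_mod_cast this
      have h2 : (i : ℝ) * Δ ≤ ((j : ℝ) - 1) * Δ := mul_le_mul_of_nonneg_right h1 hΔ.le
      have h3 := hy1.2
      have h4 := hy2.1
      linarith
    intro i _ j _ hij
    rcases lt_or_gt_of_ne hij with h | h
    · exact key i j h
    · exact (key j i h).symm
  have hsub : (⋃ j ∈ J, Ioo (((j : ℝ) - 1) * Δ - s) ((j : ℝ) * Δ - s)) ⊆ Ioi (0 : ℝ) := by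
    intro y hy
    simp only [Set.mem_iUnion] at hy
    obtain ⟨j, hj, hy⟩ := hy
    have h1 : 0 ≤ ((j : ℝ) - 1) * Δ - s := by
      have := hJ j hj
      linarith
    exact lt_of_le_of_lt h1 hy.1
  have hfin : ENNReal.ofReal (∑ j ∈ J, Δ * hk (η j) ((j : ℝ) * Δ - s)) ≤
      ENNReal.ofReal (10 * Real.pi / 9) := by
    calc ENNReal.ofReal (∑ j ∈ J, Δ * hk (η j) ((j : ℝ) * Δ - s))
        = ∑ j ∈ J, ENNReal.ofReal (Δ * hk (η j) ((j : ℝ) * Δ - s)) :=
          ENNReal.ofReal_sum_of_nonneg hterm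
      _ ≤ ∑ j ∈ J, ∫⁻ y in Ioo (((j : ℝ) - 1) * Δ - s) ((j : ℝ) * Δ - s),
            ENNReal.ofReal (FB y) := Finset.sum_le_sum hone
      _ = ∫⁻ y in ⋃ j ∈ J, Ioo (((j : ℝ) - 1) * Δ - s) ((j : ℝ) * Δ - s),
            ENNReal.ofReal (FB y) :=
          (lintegral_biUnion_finset hdisj (fun j _ => measurableSet_Ioo) _).symm
      _ ≤ ∫⁻ y in Ioi (0 : ℝ), ENNReal.ofReal (FB y) := lintegral_mono_set hsub
      _ ≤ ENNReal.ofReal (10 * Real.pi / 9) := lintegral_FB
  exact (ENNReal.ofReal_le_ofReal_iff (by positivity)).1 hfin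

theorem riemann {Δ : ℝ} (hΔ : 0 < Δ) (s : ℝ) (J : Finset ℤ) (η : ℤ → ℝ)
    (hη : ∀ j ∈ J, 0 < η j) (hJ : ∀ j ∈ J, Δ ≤ |(j : ℝ) * Δ - s|) :
    ∑ j ∈ J, Δ * hk (η j) |(j : ℝ) * Δ - s| ≤ 20 * Real.pi / 9 := by
  classical
  rw [← Finset.sum_filter_add_sum_filter_not J (fun j : ℤ => 0 ≤ (j : ℝ) * Δ - s)]
  have h1 : ∑ j ∈ J.filter (fun j : ℤ => 0 ≤ (j : ℝ) * Δ - s),
      Δ * hk (η j) |(j : ℝ) * Δ - s| ≤ 10 * Real.pi / 9 := by
    have e : ∑ j ∈ J.filter (fun j : ℤ => 0 ≤ (j : ℝ) * Δ - s),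
        Δ * hk (η j) |(j : ℝ) * Δ - s| =
        ∑ j ∈ J.filter (fun j : ℤ => 0 ≤ (j : ℝ) * Δ - s),
          Δ * hk (η j) ((j : ℝ) * Δ - s) := by
      refine Finset.sum_congr rfl ?_
      intro j hj
      rw [abs_of_nonneg (Finset.mem_filter.1 hj).2]
    rw [e]
    refine riemann_pos hΔ s _ η (fun j hj => hη j (Finset.mem_filter.1 hj).1) ?_
    intro j hj
    have := hJ j (Finset.mem_filter.1 hj).1
    rwa [abs_of_nonneg (Finset.mem_filter.1 hj).2] at this
  have h2 : ∑ j ∈ J.filter (fun j : ℤ => ¬ 0 ≤ (j : ℝ) * Δ - s),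
      Δ * hk (η j) |(j : ℝ) * Δ - s| ≤ 10 * Real.pi / 9 := by
    have e : ∑ j ∈ J.filter (fun j : ℤ => ¬ 0 ≤ (j : ℝ) * Δ - s),
        Δ * hk (η j) |(j : ℝ) * Δ - s| =
        ∑ j ∈ (J.filter (fun j : ℤ => ¬ 0 ≤ (j : ℝ) * Δ - s)).map
            (Equiv.neg ℤ).toEmbedding,
          Δ * hk (η (-j)) ((j : ℝ) * Δ - (-s)) := by
      rw [Finset.sum_map]
      refine Finset.sum_congr rfl ?_
      intro j hj
      have hneg : (j : ℝ) * Δ - s < 0 := not_le.1 (Finset.mem_filter.1 hj).2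
      have e1 : (Equiv.neg ℤ).toEmbedding j = -j := rfl
      rw [e1, neg_neg, abs_of_neg hneg]
      congr 2
      push_cast
      ring
    rw [e]
    refine riemann_pos hΔ (-s) _ (fun j => η (-j)) ?_ ?_
    · intro j hj
      obtain ⟨i, hi, rfl⟩ := Finset.mem_map.1 hj
      have e1 : (Equiv.neg ℤ).toEmbedding i = -i := rfl
      have : 0 < η i := hη i (Finset.mem_filter.1 hi).1
      simpa [e1] using this
    · intro j hj
      obtain ⟨i, hi, rfl⟩ := Finset.mem_map.1 hj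
      have e1 : (Equiv.neg ℤ).toEmbedding i = -i := rfl
      have hneg : (i : ℝ) * Δ - s < 0 := not_le.1 (Finset.mem_filter.1 hi).2
      have := hJ i (Finset.mem_filter.1 hi).1
      rw [abs_of_neg hneg] at this
      rw [e1]
      push_cast
      linarith
  have h3 : 20 * Real.pi / 9 = 10 * Real.pi / 9 + 10 * Real.pi / 9 := by ring
  rw [h3]
  exact add_le_add h1 h2

end HallHP

end
end

section

/-!
# Core : the lower bound `9/20`

`pot δ Δ N ζ z = ∑_{|j| ≤ N} (Δ / A_j) gd δ (ζ j) z`, `A_j = (ζ j).re / ‖ζ j‖`.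
-/

noncomputable section

open MeasureTheory Set Metric

namespace HallHP

/-- The potential. -/
def pot (δ Δ : ℝ) (N : ℕ) (ζ : ℤ → ℂ) (z : ℂ) : ℝ :=
  ∑ j ∈ Finset.Icc (-(N : ℤ)) N, Δ * ((ζ j).re / ‖ζ j‖)⁻¹ * gd δ (ζ j) z

/-- Upper bound of the potential. Write `‖z‖ = exp s`. For `|j Δ - s| ≥ Δ` (so `z ≠ ζ j`): `gd_le`,
`kernel_le`, and then, with `B = z.re / ‖z‖`, `Δ' = Δ / B`, `s' = s / B`, `η_j = A_j / B`, the term is
at most `Δ' * hk η_j |j Δ' - s'|`; `riemann` gives `20 π / 9` for the sum. There are at most two `j`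
with `|j Δ - s| < Δ` (they lie in `Icc ⌊s/Δ⌋ (⌊s/Δ⌋ + 1)`); for them
`gd ≤ log ((‖z‖ + ‖ζ j‖)/δ) ≤ log (4 exp T / δ)` (`‖z‖ ≤ exp (T + 1) ≤ 2.8 exp T`, as `Δ ≤ 1`), and
`A_j⁻¹ ≤ exp T / δ` since `δ ≤ (ζ j).re`. -/
theorem pot_le {δ Δ T : ℝ} {N : ℕ} (hδ : 0 < δ) (hδ1 : δ ≤ 1 / 2) (hΔ : 0 < Δ) (hΔ1 : Δ ≤ 1)
    (hT : (N : ℝ) * Δ ≤ T) (ζ : ℤ → ℂ)
    (hζ : ∀ j ∈ Finset.Icc (-(N : ℤ)) N, ‖ζ j‖ = Real.exp ((j : ℝ) * Δ) ∧ δ ≤ (ζ j).re)
    {z : ℂ} (hz : z ∈ RH) :
    pot δ Δ N ζ z ≤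
      20 * Real.pi / 9 + 2 * Δ * (Real.exp T / δ * Real.log (4 * Real.exp T / δ)) := by
  classical
  have hzne : z ≠ 0 := by
    rintro rfl
    simp [RH] at hz
  have hzn : 0 < ‖z‖ := norm_pos_iff.2 hzne
  have hzre : 0 < z.re := hz
  set s := Real.log ‖z‖ with hs
  have hse : ‖z‖ = Real.exp s := by rw [hs, Real.exp_log hzn]
  set B := z.re / ‖z‖ with hB
  have hBpos : 0 < B := div_pos hzre hzn
  set C := Real.exp T / δ * Real.log (4 * Real.exp T / δ) with hC
  set I := Finset.Icc (-(N : ℤ)) N with hI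
  have hT0 : 0 ≤ T := le_trans (by positivity) hT
  have hexpT : 1 ≤ Real.exp T := Real.one_le_exp hT0
  have hL0 : 0 ≤ Real.log (4 * Real.exp T / δ) := by
    apply Real.log_nonneg
    rw [le_div_iff₀ hδ]
    linarith
  -- facts on the centres
  have hζRH : ∀ j ∈ I, ζ j ∈ RH := fun j hj => lt_of_lt_of_le hδ (hζ j hj).2
  have hζn : ∀ j ∈ I, 0 < ‖ζ j‖ := fun j hj => by rw [(hζ j hj).1]; exact Real.exp_pos _
  have hApos : ∀ j ∈ I, 0 < (ζ j).re / ‖ζ j‖ := fun j hj => div_pos (hζRH j hj) (hζn j hj)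
  have hjT : ∀ j ∈ I, (j : ℝ) * Δ ≤ T := by
    intro j hj
    rw [hI, Finset.mem_Icc] at hj
    have h1 : (j : ℝ) ≤ N := by exact_mod_cast hj.2
    exact le_trans (mul_le_mul_of_nonneg_right h1 hΔ.le) hT
  -- splitting
  have hsplit : pot δ Δ N ζ z
      = ∑ j ∈ I.filter (fun j : ℤ => Δ ≤ |(j : ℝ) * Δ - s|), Δ * ((ζ j).re / ‖ζ j‖)⁻¹ * gd δ (ζ j) z
        + ∑ j ∈ I.filter (fun j : ℤ => ¬ Δ ≤ |(j : ℝ) * Δ - s|), Δ * ((ζ j).re / ‖ζ j‖)⁻¹ * gd δ (ζ j) z :=
    (Finset.sum_filter_add_sum_filter_not I _ _).symm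
  -- far part
  have hfar : ∑ j ∈ I.filter (fun j : ℤ => Δ ≤ |(j : ℝ) * Δ - s|), Δ * ((ζ j).re / ‖ζ j‖)⁻¹ * gd δ (ζ j) z
      ≤ 20 * Real.pi / 9 := by
    have hr := riemann (Δ := Δ / B) (div_pos hΔ hBpos) (s / B)
      (I.filter (fun j : ℤ => Δ ≤ |(j : ℝ) * Δ - s|)) (fun j => ((ζ j).re / ‖ζ j‖) / B)
      (fun j hj => div_pos (hApos j (Finset.mem_filter.1 hj).1) hBpos)
      (fun j hj => by
        have h1 := (Finset.mem_filter.1 hj).2
        have h2 : (j : ℝ) * (Δ / B) - s / B = ((j : ℝ) * Δ - s) / B := by ring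
        rw [h2, abs_div, abs_of_pos hBpos]
        exact div_le_div_of_nonneg_right h1 hBpos.le)
    refine le_trans (Finset.sum_le_sum fun j hj => ?_) hr
    have hj' := Finset.mem_filter.1 hj
    have hjI := hj'.1
    have h2 : (j : ℝ) * (Δ / B) - s / B = ((j : ℝ) * Δ - s) / B := by ring
    have hst : s ≠ (j : ℝ) * Δ := by
      intro hh
      have := hj'.2
      rw [← hh] at this
      simp at this
      linarith
    have hne : z ≠ ζ j := by
      intro hh
      apply hst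
      have h3 := (hζ j hjI).1
      rw [← hh, hse] at h3
      exact Real.exp_injective h3
    have k1 := gd_le hδ (hζRH j hjI) hz hne
    have k2 := kernel_le hz (hζRH j hjI) hse (hζ j hjI).1 hst
    have k3 : ((ζ j).re / ‖ζ j‖)⁻¹ * gd δ (ζ j) z ≤
        B⁻¹ * hk ((ζ j).re / ‖ζ j‖ / B) (|(j : ℝ) * Δ - s| / B) :=
      le_trans (mul_le_mul_of_nonneg_left k1 (inv_nonneg.2 (hApos j hjI).le)) k2
    calc Δ * ((ζ j).re / ‖ζ j‖)⁻¹ * gd δ (ζ j) z
        = Δ * (((ζ j).re / ‖ζ j‖)⁻¹ * gd δ (ζ j) z) := by ring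
      _ ≤ Δ * (B⁻¹ * hk ((ζ j).re / ‖ζ j‖ / B) (|(j : ℝ) * Δ - s| / B)) :=
          mul_le_mul_of_nonneg_left k3 hΔ.le
      _ = Δ / B * hk ((ζ j).re / ‖ζ j‖ / B) |(j : ℝ) * (Δ / B) - s / B| := by
          rw [h2, abs_div, abs_of_pos hBpos]; ring
  -- near part
  have hnear : ∑ j ∈ I.filter (fun j : ℤ => ¬ Δ ≤ |(j : ℝ) * Δ - s|), Δ * ((ζ j).re / ‖ζ j‖)⁻¹ * gd δ (ζ j) z
      ≤ 2 * Δ * C := by
    have hterm : ∀ j ∈ I.filter (fun j : ℤ => ¬ Δ ≤ |(j : ℝ) * Δ - s|),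
        Δ * ((ζ j).re / ‖ζ j‖)⁻¹ * gd δ (ζ j) z ≤ Δ * C := by
      intro j hj
      have hj' := Finset.mem_filter.1 hj
      have hjI := hj'.1
      have habs := abs_lt.1 (not_le.1 hj'.2)
      have g1 := gd_crude hδ (hζRH j hjI) hz
      have hζT : ‖ζ j‖ ≤ Real.exp T := by
        rw [(hζ j hjI).1]; exact Real.exp_le_exp.2 (hjT j hjI)
      have hzT : ‖z‖ ≤ 3 * Real.exp T := by
        rw [hse]
        have h1 : s ≤ 1 + T := by linarith [hjT j hjI, habs.1]
        calc Real.exp s ≤ Real.exp (1 + T) := Real.exp_le_exp.2 h1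
          _ = Real.exp 1 * Real.exp T := Real.exp_add _ _
          _ ≤ 3 * Real.exp T := by
              apply mul_le_mul_of_nonneg_right _ (Real.exp_pos _).le
              linarith [Real.exp_one_lt_d9]
      have g2 : Real.log ((‖z‖ + ‖ζ j‖) / δ) ≤ Real.log (4 * Real.exp T / δ) := by
        apply Real.log_le_log (by have := hζn j hjI; positivity)
        apply div_le_div_of_nonneg_right _ hδ.le
        linarith
      have hA : ((ζ j).re / ‖ζ j‖)⁻¹ ≤ Real.exp T / δ := by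
        rw [inv_div]
        exact div_le_div₀ (Real.exp_pos _).le hζT hδ (hζ j hjI).2
      have hA0 : 0 ≤ ((ζ j).re / ‖ζ j‖)⁻¹ := inv_nonneg.2 (hApos j hjI).le
      calc Δ * ((ζ j).re / ‖ζ j‖)⁻¹ * gd δ (ζ j) z
          = Δ * (((ζ j).re / ‖ζ j‖)⁻¹ * gd δ (ζ j) z) := by ring
        _ ≤ Δ * (((ζ j).re / ‖ζ j‖)⁻¹ * Real.log (4 * Real.exp T / δ)) :=
            mul_le_mul_of_nonneg_left (mul_le_mul_of_nonneg_left (g1.trans g2) hA0) hΔ.le
        _ ≤ Δ * C := by
            rw [hC]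
            exact mul_le_mul_of_nonneg_left (mul_le_mul_of_nonneg_right hA hL0) hΔ.le
    have hC0 : 0 ≤ C := by rw [hC]; positivity
    have hcard : (I.filter (fun j : ℤ => ¬ Δ ≤ |(j : ℝ) * Δ - s|)).card ≤ 2 := by
      have hsub : (I.filter (fun j : ℤ => ¬ Δ ≤ |(j : ℝ) * Δ - s|)) ⊆
          ({⌊s / Δ⌋, ⌊s / Δ⌋ + 1} : Finset ℤ) := by
        intro j hj
        have habs := abs_lt.1 (not_le.1 (Finset.mem_filter.1 hj).2)
        have f1 := Int.floor_le (s / Δ)
        have f2 := Int.lt_floor_add_one (s / Δ)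
        have f3 : s / Δ * Δ = s := div_mul_cancel₀ s hΔ.ne'
        have h1 : ((⌊s / Δ⌋ : ℤ) : ℝ) - 1 < j := by
          have : (((⌊s / Δ⌋ : ℤ) : ℝ) - 1) * Δ < (j : ℝ) * Δ := by
            have := mul_le_mul_of_nonneg_right f1 hΔ.le
            nlinarith [habs.1]
          exact lt_of_mul_lt_mul_right this hΔ.le
        have h2 : (j : ℝ) < ((⌊s / Δ⌋ : ℤ) : ℝ) + 2 := by
          have : (j : ℝ) * Δ < (((⌊s / Δ⌋ : ℤ) : ℝ) + 2) * Δ := by
            have := mul_lt_mul_of_pos_right f2 hΔ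
            nlinarith [habs.2]
          exact lt_of_mul_lt_mul_right this hΔ.le
        have h3 : ⌊s / Δ⌋ - 1 < j := by exact_mod_cast h1
        have h4 : j < ⌊s / Δ⌋ + 2 := by exact_mod_cast h2
        simp only [Finset.mem_insert, Finset.mem_singleton]
        omega
      exact le_trans (Finset.card_le_card hsub) Finset.card_le_two
    calc ∑ j ∈ I.filter (fun j : ℤ => ¬ Δ ≤ |(j : ℝ) * Δ - s|), Δ * ((ζ j).re / ‖ζ j‖)⁻¹ * gd δ (ζ j) z
        ≤ (I.filter (fun j : ℤ => ¬ Δ ≤ |(j : ℝ) * Δ - s|)).card • (Δ * C) :=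
          Finset.sum_le_card_nsmul _ _ _ hterm
      _ = ((I.filter (fun j : ℤ => ¬ Δ ≤ |(j : ℝ) * Δ - s|)).card : ℝ) * (Δ * C) := by
          rw [nsmul_eq_mul]
      _ ≤ 2 * (Δ * C) := by
          apply mul_le_mul_of_nonneg_right _ (mul_nonneg hΔ.le hC0)
          exact_mod_cast hcard
      _ = 2 * Δ * C := by ring
  rw [hsplit]
  exact add_le_add hfar hnear

/-- Lower bound of the potential at `1`: `gd_one` and
`A_j⁻¹ * (2 (ζ j).re / (1 + ‖ζ j‖²)) = 2 ‖ζ j‖ / (1 + ‖ζ j‖²) = 1 / cosh (j Δ)`; then `sech_sum`. -/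
theorem pot_one {δ Δ : ℝ} {N : ℕ} (hδ : 0 < δ) (hδ1 : δ ≤ 1 / 2) (hΔ : 0 < Δ) (ζ : ℤ → ℂ)
    (hζ : ∀ j ∈ Finset.Icc (-(N : ℤ)) N, ‖ζ j‖ = Real.exp ((j : ℝ) * Δ) ∧ δ ≤ (ζ j).re) :
    2 * Real.arctan (Real.sinh (N * Δ)) - Δ ≤ pot δ Δ N ζ 1 := by
  refine le_trans (sech_sum hΔ N) (Finset.sum_le_sum fun j hj => ?_)
  obtain ⟨h1, h2⟩ := hζ j hj
  have hre : 0 < (ζ j).re := lt_of_lt_of_le hδ h2
  have hg := gd_one hδ hδ1 (ζ := ζ j) hre
  have hn : 0 < ‖ζ j‖ := by rw [h1]; exact Real.exp_pos _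
  have hA : 0 < ((ζ j).re / ‖ζ j‖)⁻¹ := inv_pos.2 (div_pos hre hn)
  have hcosh : Real.cosh ((j : ℝ) * Δ) = (1 + ‖ζ j‖ ^ 2) / (2 * ‖ζ j‖) := by
    rw [Real.cosh_eq, h1, Real.exp_neg]
    have := Real.exp_pos ((j : ℝ) * Δ)
    field_simp
    ring
  calc Δ / Real.cosh ((j : ℝ) * Δ)
      = Δ * ((ζ j).re / ‖ζ j‖)⁻¹ * (2 * (ζ j).re / (1 + ‖ζ j‖ ^ 2)) := by
        rw [hcosh]; field_simp
    _ ≤ Δ * ((ζ j).re / ‖ζ j‖)⁻¹ * gd δ (ζ j) 1 :=
        mul_le_mul_of_nonneg_left hg (mul_nonneg hΔ.le hA.le)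

/-- Comparison of the potential with `w` (`compare` with `V = c * pot`, `D = E`): if all closed discs
`closedBall (ζ j) δ` are contained in the set `E ⊆ RH` on which `w ≥ c * M`, and `pot ≤ M` on `RH`
then `c * pot ≤ w` on `RH`. Continuity: `gd_cont`; mean value off `E`: `gd_mean` for every `j` (for
`z ∉ E`, `‖z - ζ j‖ > δ`), finitely many `ρ₀`; `hsmall`: `gd_small` for every `j` with a smaller `m`
(finite union of the compact sets; `gd ≥ 0` is not needed). -/
theorem pot_compare {K : ℝ} {w : ℂ → ℝ} (hw : SupMean K w) {δ Δ c M : ℝ} {N : ℕ} (hδ : 0 < δ)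
    (hΔ : 0 < Δ) (hc : 0 ≤ c) (ζ : ℤ → ℂ) (E : Set ℂ) (hERH : E ⊆ RH)
    (hE : ∀ z ∈ E, c * M ≤ w z)
    (hζ : ∀ j ∈ Finset.Icc (-(N : ℤ)) N, closedBall (ζ j) δ ⊆ E)
    (hM : ∀ z ∈ RH, pot δ Δ N ζ z ≤ M) :
    ∀ z ∈ RH, c * pot δ Δ N ζ z ≤ w z := by
  classical
  have hζE : ∀ j ∈ Finset.Icc (-(N : ℤ)) N, ζ j ∈ RH := fun j hj =>
    hERH (hζ j hj (mem_closedBall_self hδ.le))
  have hcoef : ∀ j ∈ Finset.Icc (-(N : ℤ)) N, 0 ≤ Δ * ((ζ j).re / ‖ζ j‖)⁻¹ := by
    intro j hj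
    have : 0 ≤ (ζ j).re := le_of_lt (hζE j hj)
    positivity
  refine compare hw (V := fun z => c * pot δ Δ N ζ z) (D := E) ?_ ?_ ?_ ?_
  · -- continuity
    refine ContinuousOn.mul continuousOn_const ?_
    unfold pot
    exact continuousOn_finsetSum _ fun j hj => continuousOn_const.mul (gd_cont hδ (hζE j hj))
  · intro z hz hzE
    exact le_trans (mul_le_mul_of_nonneg_left (hM z hz) hc) (hE z hzE)
  · intro z hz hzE
    have h1 : ∀ j ∈ Finset.Icc (-(N : ℤ)) N, ∀ᶠ ρ in nhdsWithin (0 : ℝ) (Ioi 0),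
        CircleIntegrable (gd δ (ζ j)) z ρ ∧
          Real.circleAverage (gd δ (ζ j)) z ρ = gd δ (ζ j) z := by
      intro j hj
      have hd : δ < ‖z - ζ j‖ := by
        by_contra hcon
        apply hzE
        apply hζ j hj
        rw [mem_closedBall, dist_eq_norm]
        exact not_lt.1 hcon
      obtain ⟨ρ₀, hρ₀, hρ⟩ := gd_mean hδ (hζE j hj) hz hd
      filter_upwards [Ioo_mem_nhdsGT hρ₀] with ρ hh
      exact hρ ρ hh.1 hh.2
    have h2 := (Filter.eventually_all_finset (Finset.Icc (-(N : ℤ)) N)).2 h1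
    obtain ⟨ρ₀, hρ₀, hsub⟩ := mem_nhdsGT_iff_exists_Ioo_subset.1 h2
    refine ⟨ρ₀, hρ₀, fun ρ hρ1 hρ2 => ?_⟩
    have h3 := hsub ⟨hρ1, hρ2⟩
    simp only [Set.mem_ofPred_eq] at h3
    have e1 : (fun z => c * pot δ Δ N ζ z) = fun z => ∑ j ∈ Finset.Icc (-(N : ℤ)) N,
        (c * (Δ * ((ζ j).re / ‖ζ j‖)⁻¹)) • gd δ (ζ j) z := by
      funext y
      unfold pot
      rw [Finset.mul_sum]
      exact Finset.sum_congr rfl fun j _ => by rw [smul_eq_mul]; ring
    have e2 : c * pot δ Δ N ζ z = ∑ j ∈ Finset.Icc (-(N : ℤ)) N,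
        (c * (Δ * ((ζ j).re / ‖ζ j‖)⁻¹)) • gd δ (ζ j) z := congrFun e1 z
    rw [e1, Real.circleAverage_fun_sum (f := fun j z =>
      (c * (Δ * ((ζ j).re / ‖ζ j‖)⁻¹)) • gd δ (ζ j) z)
      (fun j hj => ((h3 j hj).1).const_fun_smul)]
    rw [e2]
    refine Finset.sum_congr rfl fun j hj => ?_
    rw [Real.circleAverage_fun_smul, (h3 j hj).2]
  · intro m hm
    set Cs := ∑ j ∈ Finset.Icc (-(N : ℤ)) N, c * (Δ * ((ζ j).re / ‖ζ j‖)⁻¹) with hCs
    have hCs0 : 0 ≤ Cs := Finset.sum_nonneg fun j hj => mul_nonneg hc (hcoef j hj)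
    set m' := m / (1 + Cs) with hm'
    have hm'0 : 0 < m' := div_pos hm (by linarith)
    have hex : ∀ j : ℤ, ∃ Kc : Set ℂ, j ∈ Finset.Icc (-(N : ℤ)) N → Kc ⊆ RH ∧ IsCompact Kc ∧
        ∀ z ∈ RH, z ∉ Kc → gd δ (ζ j) z < m' := by
      intro j
      by_cases hj : j ∈ Finset.Icc (-(N : ℤ)) N
      · obtain ⟨Kc, h⟩ := gd_small hδ (hζE j hj) m' hm'0
        exact ⟨Kc, fun _ => h⟩
      · exact ⟨∅, fun h => absurd h hj⟩
    choose Kc hKc using hex
    refine ⟨⋃ j ∈ Finset.Icc (-(N : ℤ)) N, Kc j, ?_, ?_, ?_⟩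
    · exact Set.iUnion₂_subset fun j hj => (hKc j hj).1
    · exact (Finset.Icc (-(N : ℤ)) N).isCompact_biUnion fun j hj => (hKc j hj).2.1
    · intro z hz hzK
      have hlt : ∀ j ∈ Finset.Icc (-(N : ℤ)) N, gd δ (ζ j) z < m' := by
        intro j hj
        apply (hKc j hj).2.2 z hz
        intro hh
        exact hzK (Set.mem_biUnion (Finset.mem_coe.2 hj) hh)
      have hle : c * pot δ Δ N ζ z ≤ Cs * m' := by
        unfold pot
        rw [Finset.mul_sum, hCs, Finset.sum_mul]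
        refine Finset.sum_le_sum fun j hj => ?_
        have := mul_le_mul_of_nonneg_left (hlt j hj).le (mul_nonneg hc (hcoef j hj))
        calc c * (Δ * ((ζ j).re / ‖ζ j‖)⁻¹ * gd δ (ζ j) z)
            = c * (Δ * ((ζ j).re / ‖ζ j‖)⁻¹) * gd δ (ζ j) z := by ring
          _ ≤ _ := this
      have hfin : Cs * m' < m := by
        rw [hm', mul_div_assoc', div_lt_iff₀ (by linarith)]
        nlinarith
      exact lt_of_le_of_lt hle hfin

/-- The main estimate. Given `0 < ε < K` and `T > 0`: `E = {z ∈ RH | K - ε < w z}` is open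
(lower semicontinuity on the open set `RH`); `select` on `Icc (-T) T` gives `δ`; decrease `δ` to be
`≤ 1/2`; for every `N ≥ T` put `Δ = T / N` and choose `ζ j` for `t = j Δ`; `closedBall (ζ j) δ ⊆ RH`
gives `δ ≤ (ζ j).re` (as `ζ j - δ' ∈ RH` for all `δ' ≤ δ`). With
`M = 20 π / 9 + 2 Δ C` and `c = (K - ε) / M` we get
`w 1 ≥ (K - ε) / M * (2 arctan (sinh T) - Δ)`. Let `N → ∞`, then `T → ∞`, `ε → 0`. -/
theorem core {K : ℝ} (hK : 0 < K) {w : ℂ → ℝ} (hw : SupMean K w)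
    (h : ∀ r : ℝ, 0 < r → ∀ ε : ℝ, 0 < ε → ∃ ζ ∈ RH, ‖ζ‖ = r ∧ K - ε < w ζ) :
    9 / 20 * K ≤ w 1 := by
  have h1RH : (1 : ℂ) ∈ RH := by simp [RH]
  -- the estimate for fixed `ε`, `T`
  have hmain : ∀ ε : ℝ, 0 < ε → ε < K → ∀ T : ℝ, 0 < T →
      (K - ε) / (20 * Real.pi / 9) * (2 * Real.arctan (Real.sinh T)) ≤ w 1 := by
    intro ε hε hεK T hT
    set E : Set ℂ := {z | z ∈ RH ∧ K - ε < w z} with hEdef
    have hERH : E ⊆ RH := fun z hz => hz.1
    have hRHo : IsOpen RH := isOpen_lt continuous_const Complex.continuous_re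
    have hEo : IsOpen E := by
      obtain ⟨U, hU, hEq⟩ := lowerSemicontinuousOn_iff_preimage_Ioi.1 hw.lsc (K - ε)
      have : E = RH ∩ U := by rw [← hEq]; rfl
      rw [this]
      exact hRHo.inter hU
    obtain ⟨δ₀, hδ₀, hsel⟩ := select hEo (-T) T (fun t _ => by
      obtain ⟨ζ, hζ1, hζ2, hζ3⟩ := h (Real.exp t) (Real.exp_pos t) ε hε
      exact ⟨ζ, ⟨hζ1, hζ3⟩, hζ2⟩)
    set δ := min δ₀ (1 / 2) with hδdef
    have hδ : 0 < δ := lt_min hδ₀ (by norm_num)
    have hδ1 : δ ≤ 1 / 2 := min_le_right _ _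
    have hsel' : ∀ t ∈ Icc (-T) T, ∃ ζ : ℂ, ‖ζ‖ = Real.exp t ∧ closedBall ζ δ ⊆ E := by
      intro t ht
      obtain ⟨ζ, h1, h2⟩ := hsel t ht
      exact ⟨ζ, h1, (closedBall_subset_closedBall (min_le_left _ _)).trans h2⟩
    set C := Real.exp T / δ * Real.log (4 * Real.exp T / δ) with hC
    have hC0 : 0 ≤ C := by
      have : 0 ≤ Real.log (4 * Real.exp T / δ) := by
        apply Real.log_nonneg
        rw [le_div_iff₀ hδ]
        linarith [Real.one_le_exp hT.le]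
      rw [hC]; positivity
    have hstep : ∀ N : ℕ, T ≤ N →
        (K - ε) / (20 * Real.pi / 9 + 2 * (T / N) * C) *
          (2 * Real.arctan (Real.sinh T) - T / N) ≤ w 1 := by
      intro N hN
      have hN0 : (0 : ℝ) < N := lt_of_lt_of_le hT hN
      set Δ := T / N with hΔdef
      have hΔ : 0 < Δ := div_pos hT hN0
      have hΔ1 : Δ ≤ 1 := (div_le_one hN0).2 hN
      have hNΔ : (N : ℝ) * Δ = T := by rw [hΔdef]; field_simp
      have hex : ∀ j : ℤ, ∃ ζ : ℂ, j ∈ Finset.Icc (-(N : ℤ)) N →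
          ‖ζ‖ = Real.exp ((j : ℝ) * Δ) ∧ closedBall ζ δ ⊆ E := by
        intro j
        by_cases hj : j ∈ Finset.Icc (-(N : ℤ)) N
        · have hj' := Finset.mem_Icc.1 hj
          have a1 : (-(N : ℝ)) ≤ j := by exact_mod_cast hj'.1
          have a2 : (j : ℝ) ≤ N := by exact_mod_cast hj'.2
          obtain ⟨ζ, hζ⟩ := hsel' ((j : ℝ) * Δ) ⟨by nlinarith, by nlinarith⟩
          exact ⟨ζ, fun _ => hζ⟩
        · exact ⟨0, fun h => absurd h hj⟩
      choose ζ hζ using hex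
      have hζre : ∀ j ∈ Finset.Icc (-(N : ℤ)) N, δ ≤ (ζ j).re := by
        intro j hj
        have hmem : ζ j - (δ : ℂ) ∈ closedBall (ζ j) δ := by
          rw [mem_closedBall, dist_eq_norm]
          simp [abs_of_pos hδ]
        have := hERH ((hζ j hj).2 hmem)
        have h2 : 0 < (ζ j - (δ : ℂ)).re := this
        simp at h2
        exact h2.le
      have hζ' : ∀ j ∈ Finset.Icc (-(N : ℤ)) N,
          ‖ζ j‖ = Real.exp ((j : ℝ) * Δ) ∧ δ ≤ (ζ j).re :=
        fun j hj => ⟨(hζ j hj).1, hζre j hj⟩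
      set M := 20 * Real.pi / 9 + 2 * Δ * C with hM
      have hM0 : 0 < M := by
        have := Real.pi_pos
        have : 0 ≤ 2 * Δ * C := by positivity
        rw [hM]; positivity
      have hc0 : 0 ≤ (K - ε) / M := div_nonneg (by linarith) hM0.le
      have hpot := pot_compare hw hδ hΔ hc0 ζ E hERH (M := M) (fun z hz => by
          rw [div_mul_cancel₀ _ hM0.ne']; exact hz.2.le) (fun j hj => (hζ j hj).2)
          (fun z hz => pot_le hδ hδ1 hΔ hΔ1 hNΔ.le ζ hζ' hz) 1 h1RH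
      have hone := pot_one hδ hδ1 hΔ ζ hζ'
      rw [hNΔ] at hone
      exact le_trans (mul_le_mul_of_nonneg_left hone hc0) hpot
    -- limit `N → ∞`
    have hlimΔ : Filter.Tendsto (fun N : ℕ => T / (N : ℝ)) Filter.atTop (nhds 0) :=
      tendsto_const_div_atTop_nhds_zero_nat T
    have hpi : (0 : ℝ) < 20 * Real.pi / 9 := by have := Real.pi_pos; positivity
    have hlim : Filter.Tendsto (fun N : ℕ => (K - ε) / (20 * Real.pi / 9 + 2 * (T / N) * C) *
          (2 * Real.arctan (Real.sinh T) - T / N)) Filter.atTop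
        (nhds ((K - ε) / (20 * Real.pi / 9 + 2 * 0 * C) *
          (2 * Real.arctan (Real.sinh T) - 0))) := by
      refine Filter.Tendsto.mul (Filter.Tendsto.div tendsto_const_nhds ?_ ?_) ?_
      · exact tendsto_const_nhds.add ((hlimΔ.const_mul 2).mul_const C)
      · simp only [mul_zero, zero_mul, add_zero]; exact hpi.ne'
      · exact tendsto_const_nhds.sub hlimΔ
    have hfinal := le_of_tendsto hlim (by
      filter_upwards [Filter.eventually_ge_atTop ⌈T⌉₊] with N hN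
      exact hstep N (le_trans (Nat.le_ceil T) (by exact_mod_cast hN)))
    simpa using hfinal
  -- limit `T → ∞`
  have hpi := Real.pi_pos
  have hmain2 : ∀ ε : ℝ, 0 < ε → ε < K → 9 / 20 * (K - ε) ≤ w 1 := by
    intro ε hε hεK
    have hl : Filter.Tendsto (fun T : ℝ =>
        (K - ε) / (20 * Real.pi / 9) * (2 * Real.arctan (Real.sinh T))) Filter.atTop
        (nhds ((K - ε) / (20 * Real.pi / 9) * Real.pi)) :=
      arctan_sinh_tendsto.const_mul _
    have := le_of_tendsto hl (by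
      filter_upwards [Filter.eventually_gt_atTop 0] with T hT
      exact hmain ε hε hεK T hT)
    have e : (K - ε) / (20 * Real.pi / 9) * Real.pi = 9 / 20 * (K - ε) := by
      field_simp
    rw [e] at this
    exact this
  -- limit `ε → 0`
  by_contra hcon
  push Not at hcon
  set g := 9 / 20 * K - w 1 with hg
  have hg0 : 0 < g := by rw [hg]; linarith
  have := hmain2 (min g (K / 2)) (lt_min hg0 (by linarith))
    (lt_of_le_of_lt (min_le_right _ _) (by linarith))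
  have h3 := min_le_left g (K / 2)
  linarith

/-- **Lower bound**: every `u ∈ S(K)` satisfies `u r ≤ -(9/20) K` for all `r > 0`.
(`conv`, `SupMean.scale`, `core`.) -/
theorem hall_lower {K : ℝ} (hK : 0 < K) {u : ℂ → EReal} (hu : ClassS K u) {r : ℝ} (hr : 0 < r) :
    u (r : ℂ) ≤ ((-(9 / 20 * K) : ℝ) : EReal) := by
  obtain ⟨w, hw, hu1, hu2⟩ := conv hK hu
  have hrRH : ((r : ℝ) : ℂ) ∈ RH := by simpa [RH] using hr
  have hcore := core hK (hw.scale hr) (fun r' hr' ε hε => by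
    obtain ⟨ζ, h1, h2, h3⟩ := hu2 (r * r') (mul_pos hr hr') ε hε
    have hrc : (r : ℂ) ≠ 0 := by exact_mod_cast hr.ne'
    refine ⟨((r⁻¹ : ℝ) : ℂ) * ζ, ?_, ?_, ?_⟩
    · show 0 < (((r⁻¹ : ℝ) : ℂ) * ζ).re
      rw [Complex.re_ofReal_mul]
      exact mul_pos (inv_pos.2 hr) h1
    · rw [norm_mul, h2, Complex.norm_real, Real.norm_of_nonneg (inv_pos.2 hr).le]
      field_simp
    · have : (r : ℂ) * (((r⁻¹ : ℝ) : ℂ) * ζ) = ζ := by
        rw [← mul_assoc, ← Complex.ofReal_mul, mul_inv_cancel₀ hr.ne']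
        simp
      rw [this]
      exact h3)
  rw [mul_one] at hcore
  refine le_trans (hu1 _ hrRH) ?_
  rw [EReal.coe_le_coe_iff]
  linarith

end HallHP

end
end
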