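import Mathlib

/-!
# MP_5c0a14_an : Hall's half-plane inequality for subharmonic functions - definitions

`RH` is the open right half-plane, `ClassS K` is the class of the problem (negative subharmonic
functions on `RH` with values in `[-∞, ∞)` and `inf_{|θ| < π/2} u (r e^{iθ}) ≤ -K` for all `r > 0`),
`alphaStar` is the best constant.
-/

noncomputable section

open MeasureTheory Set Metric

namespace HallHP

/-- The open right half-plane `{z : Re z > 0}`. -/
def RH : Set ℂ := {z | 0 < z.re}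

/-- The mean of the extended real valued function `u` over the circle `|ζ - z| = ρ`:
mean of the positive part minus mean of the negative part. -/
def circMean (u : ℂ → EReal) (z : ℂ) (ρ : ℝ) : EReal :=
  (((ENNReal.ofReal (2 * Real.pi))⁻¹ *
      ∫⁻ φ in Ioc (0 : ℝ) (2 * Real.pi), (u (circleMap z ρ φ)).toENNReal : ENNReal) : EReal) -
    (((ENNReal.ofReal (2 * Real.pi))⁻¹ *
      ∫⁻ φ in Ioc (0 : ℝ) (2 * Real.pi), (-u (circleMap z ρ φ)).toENNReal : ENNReal) : EReal)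

/-- `u` is subharmonic in the right half-plane: values in `[-∞, ∞)`, upper semicontinuous, not
identically `-∞`, and the local sub-mean-value inequality for all small circles. -/
structure SubharmonicRH (u : ℂ → EReal) : Prop where
  lt_top : ∀ z ∈ RH, u z < ⊤
  usc : UpperSemicontinuousOn u RH
  ne_bot : ∃ z ∈ RH, u z ≠ ⊥
  submean : ∀ z ∈ RH, ∃ ρ₀ : ℝ, 0 < ρ₀ ∧ ∀ ρ : ℝ, 0 < ρ → ρ < ρ₀ → u z ≤ circMean u z ρ

/-- The class `S(K)` of the problem. -/
structure ClassS (K : ℝ) (u : ℂ → EReal) : Prop where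
  sub : SubharmonicRH u
  neg : ∀ z ∈ RH, u z < 0
  inf_le : ∀ r : ℝ, 0 < r →
    (⨅ θ : Ioo (-(Real.pi / 2)) (Real.pi / 2),
      u ((r : ℂ) * Complex.exp (((θ : ℝ) : ℂ) * Complex.I))) ≤ ((-K : ℝ) : EReal)

/-- The best constant `α*`. -/
def alphaStar : ℝ :=
  sSup {α : ℝ | 0 ≤ α ∧ ∀ K : ℝ, 0 < K → ∀ u : ℂ → EReal, ClassS K u →
    ∀ r : ℝ, 0 < r → u (r : ℂ) ≤ ((-(α * K) : ℝ) : EReal)}

/-! ## Auxiliary definitions of the proofs -/

/-- Bounded real-valued version of `-u`: lower semicontinuous with the super-mean-value property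
on `RH`, with values in `[0, K]`. -/
structure SupMean (K : ℝ) (w : ℂ → ℝ) : Prop where
  nonneg : ∀ z ∈ RH, 0 ≤ w z
  le : ∀ z ∈ RH, w z ≤ K
  lsc : LowerSemicontinuousOn w RH
  mean : ∀ z ∈ RH, ∃ ρ₀ : ℝ, 0 < ρ₀ ∧ ∀ ρ : ℝ, 0 < ρ → ρ < ρ₀ → Real.circleAverage w z ρ ≤ w z

/-- The Green function of `RH` with pole `ζ`, truncated at the circle `|z - ζ| = δ`. -/
def gd (δ : ℝ) (ζ z : ℂ) : ℝ :=
  Real.log ‖z + (starRingEnd ℂ) ζ‖ - Real.log (max ‖z - ζ‖ δ)

/-- The normalised kernel `(1 / 2η) log (1 + 4η / (y² + (1 - η)²))`. -/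
def hk (η y : ℝ) : ℝ := 1 / (2 * η) * Real.log (1 + 4 * η / (y ^ 2 + (1 - η) ^ 2))

/-- The majorant of the kernels `hk η`, `η > 0`. -/
def FB (y : ℝ) : ℝ :=
  if 1 / Real.sqrt 3 ≤ y then 2 / (1 + y ^ 2)
  else if 38 / 100 ≤ y then 3 / 2 + Real.log (1 / Real.sqrt 3 / y)
  else if 19 / 100 ≤ y then 367 / 200 + Real.log (38 / 100 / y)
  else 61 / 25 + Real.log (19 / 100 / y)

end HallHP

end
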