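import Pool.Agent.Lib.MP_5c0a14_an.Defs

/-!
# MP_5c0a14_an : from bounds on the class to bounds on `alphaStar`
-/

noncomputable section

open MeasureTheory Set Metric

namespace HallHP

/-- A function of the class with `u 1 > -c` shows that every admissible constant is `< c`. -/
theorem adm_lt {c α : ℝ} (h : ∃ u : ℂ → EReal, ClassS 1 u ∧ ((-c : ℝ) : EReal) < u 1)
    (hα : ∀ K : ℝ, 0 < K → ∀ u : ℂ → EReal, ClassS K u →
      ∀ r : ℝ, 0 < r → u (r : ℂ) ≤ ((-(α * K) : ℝ) : EReal)) : α < c := by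
  obtain ⟨u, hu, hu1⟩ := h
  have h1 := hα 1 one_pos u hu 1 one_pos
  rw [Complex.ofReal_one] at h1
  have h2 : ((-c : ℝ) : EReal) < ((-(α * 1) : ℝ) : EReal) := lt_of_lt_of_le hu1 h1
  have h3 : -c < -(α * 1) := by exact_mod_cast h2
  linarith

theorem zero_adm : ∀ K : ℝ, 0 < K → ∀ u : ℂ → EReal, ClassS K u →
    ∀ r : ℝ, 0 < r → u (r : ℂ) ≤ ((-(0 * K) : ℝ) : EReal) := by
  intro K _ u hu r hr
  have h := hu.neg (r : ℂ) (by simpa [RH] using hr)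
  simpa using h.le

theorem alphaStar_le {c : ℝ} (h : ∃ u : ℂ → EReal, ClassS 1 u ∧ ((-c : ℝ) : EReal) < u 1) :
    alphaStar ≤ c := by
  refine csSup_le ⟨0, le_rfl, zero_adm⟩ ?_
  rintro α ⟨-, hα⟩
  exact (adm_lt h hα).le

theorem le_alphaStar {α c : ℝ} (h : ∃ u : ℂ → EReal, ClassS 1 u ∧ ((-c : ℝ) : EReal) < u 1)
    (h0 : 0 ≤ α) (hα : ∀ K : ℝ, 0 < K → ∀ u : ℂ → EReal, ClassS K u →
      ∀ r : ℝ, 0 < r → u (r : ℂ) ≤ ((-(α * K) : ℝ) : EReal)) : α ≤ alphaStar := by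
  refine le_csSup ⟨c, ?_⟩ ⟨h0, hα⟩
  rintro β ⟨-, hβ⟩
  exact (adm_lt h hβ).le

end HallHP

end
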