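import Pool.Agent.Lib.MP_5c0a14_an.Geom

section

/-!
# UOm : the function `omI`

Write `S = y + i x`, `W = exp (-S)`, `e = exp (-i π/4)`, `m = (1 - e W) / (e - W)`. Then
`(1 - e W) * conj (e - W) = (√2/2) (1 + |W|²) - 2 Re W + i (√2/2) (1 - |W|²)
 = √2 exp (-y) ((cosh y - √2 cos x) + i sinh y)`,
so `arg m = arg ((cosh y - √2 cos x) + i sinh y)` and `m` is in the upper half-plane for `y > 0`.
* `omI_harm`: `omI (g z') = (1/π) (log (m (exp (-g z')))).im` is the imaginary part of an analytic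
  function near `z`.
* `omI_le_axis`, `omI_hh`: for fixed imaginary part `sinh y > 0` the argument is antitone in the real
  part, and `cos x ≤ 1`; on the axis at `y = hh` the real part is positive, so `arg = arctan`.
* `omI_axis_tendsto`: for large `y` the argument is `arctan (sinh y / (cosh y - √2)) → π/4`.
* `omI_bdry`: if `√2 cos x < 1` the point tends to a positive real number as `y → 0+`.
-/

noncomputable section

open MeasureTheory Set Metric

namespace HallHP

private theorem arg_upper (a s : ℝ) (hs : 0 < s) :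
    Complex.arg ⟨a, s⟩ = Real.pi / 2 - Real.arctan (a / s) := by
  rw [Complex.arg_of_im_pos (by exact hs), Real.arctan_eq_arcsin, Real.arccos]
  congr 2
  have h1 : ‖(⟨a, s⟩ : ℂ)‖ = Real.sqrt (a ^ 2 + s ^ 2) := by
    rw [Complex.norm_eq_sqrt_sq_add_sq]
  have h2 : Real.sqrt (1 + (a / s) ^ 2) = Real.sqrt (a ^ 2 + s ^ 2) / s := by
    rw [← Real.sqrt_sq hs.le, ← Real.sqrt_div (by positivity)]
    congr 1
    rw [Real.sqrt_sq hs.le]
    field_simp
    ring
  rw [h1, h2]
  have h3 : 0 < Real.sqrt (a ^ 2 + s ^ 2) := by positivity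
  field_simp

theorem omI_nonneg {S : ℂ} (hS : 0 < S.re) : 0 ≤ omI S := by
  unfold omI
  have h1 : 0 ≤ Complex.arg
      ⟨Real.cosh S.re - Real.sqrt 2 * Real.cos S.im, Real.sinh S.re⟩ := by
    rw [Complex.arg_nonneg_iff]
    exact (Real.sinh_pos_iff.2 hS).le
  have := Real.pi_pos
  positivity

theorem omI_lt_one {S : ℂ} (hS : 0 < S.re) : omI S < 1 := by
  unfold omI
  have h1 : Complex.arg
      ⟨Real.cosh S.re - Real.sqrt 2 * Real.cos S.im, Real.sinh S.re⟩ < Real.pi := by
    rw [Complex.arg_lt_pi_iff]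
    right
    exact (Real.sinh_pos_iff.2 hS).ne'
  have hpi := Real.pi_pos
  rw [one_div, inv_mul_lt_iff₀ hpi, mul_one]
  exact h1

theorem omI_le_axis {S : ℂ} (hS : 0 < S.re) : omI S ≤ omI ((S.re : ℝ) : ℂ) := by
  unfold omI
  have hs : 0 < Real.sinh S.re := Real.sinh_pos_iff.2 hS
  simp only [Complex.ofReal_re, Complex.ofReal_im, Real.cos_zero, mul_one]
  rw [arg_upper _ _ hs, arg_upper _ _ hs]
  have h2 : Real.arctan ((Real.cosh S.re - Real.sqrt 2) / Real.sinh S.re)
      ≤ Real.arctan ((Real.cosh S.re - Real.sqrt 2 * Real.cos S.im) / Real.sinh S.re) := by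
    apply Real.arctan_mono
    apply div_le_div_of_nonneg_right _ hs.le
    have h3 := Real.cos_le_one S.im
    have h4 := Real.sqrt_nonneg 2
    nlinarith
  have hpi := Real.pi_pos
  apply mul_le_mul_of_nonneg_left _ (by positivity)
  linarith

theorem omI_hh : omI ((hh : ℝ) : ℂ) =
    1 / Real.pi * Real.arctan (Real.sinh hh / (Real.cosh hh - Real.sqrt 2)) := by
  unfold omI
  simp only [Complex.ofReal_re, Complex.ofReal_im, Real.cos_zero, mul_one]
  have h0 : 0 < hh := Real.log_pos (by norm_num)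
  have hs : 0 < Real.sinh hh := Real.sinh_pos_iff.2 h0
  have hc : Real.cosh hh = (25 + 25⁻¹) / 2 := by
    rw [hh, Real.cosh_log (by norm_num)]
  have h2 : Real.sqrt 2 < 2 := by
    rw [Real.sqrt_lt' (by norm_num)]; norm_num
  have hd : 0 < Real.cosh hh - Real.sqrt 2 := by
    rw [hc]; norm_num; linarith
  rw [arg_upper _ _ hs, ← Real.arctan_inv_of_pos (by positivity), inv_div]

theorem omI_axis_tendsto :
    Filter.Tendsto (fun y : ℝ => omI (y : ℂ)) Filter.atTop (nhds (1 / 4)) := by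
  have hsinh : Filter.Tendsto Real.sinh Filter.atTop Filter.atTop := by
    refine Filter.tendsto_atTop_mono' _ ?_ Filter.tendsto_id
    filter_upwards [Filter.eventually_ge_atTop 0] with y hy
    exact Real.self_le_sinh_iff.2 hy
  have h1 : Filter.Tendsto (fun y : ℝ => 1 + (Real.exp (-y) - Real.sqrt 2) / Real.sinh y)
      Filter.atTop (nhds (1 + 0)) := by
    apply tendsto_const_nhds.add
    have h2 : Filter.Tendsto (fun y : ℝ => Real.exp (-y) - Real.sqrt 2) Filter.atTop
        (nhds (0 - Real.sqrt 2)) :=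
      (Real.tendsto_exp_neg_atTop_nhds_zero).sub tendsto_const_nhds
    exact h2.div_atTop hsinh
  have h3 : Filter.Tendsto (fun y : ℝ => 1 / Real.pi * (Real.pi / 2 -
      Real.arctan (1 + (Real.exp (-y) - Real.sqrt 2) / Real.sinh y))) Filter.atTop
      (nhds (1 / Real.pi * (Real.pi / 2 - Real.arctan (1 + 0)))) :=
    ((tendsto_const_nhds.sub ((Real.continuous_arctan.tendsto _).comp h1))).const_mul _
  have h4 : 1 / Real.pi * (Real.pi / 2 - Real.arctan (1 + 0)) = 1 / 4 := by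
    rw [add_zero, Real.arctan_one]
    have := Real.pi_pos
    field_simp
    norm_num
  rw [h4] at h3
  refine h3.congr' ?_
  filter_upwards [Filter.eventually_gt_atTop 0] with y hy
  unfold omI
  simp only [Complex.ofReal_re, Complex.ofReal_im, Real.cos_zero, mul_one]
  have hs : 0 < Real.sinh y := Real.sinh_pos_iff.2 hy
  rw [arg_upper _ _ hs]
  congr 3
  have h5 : Real.exp (-y) = Real.cosh y - Real.sinh y := (Real.cosh_sub_sinh y).symm
  rw [h5]
  field_simp
  ring

theorem omI_bdry {x : ℝ} (hx : Real.sqrt 2 * Real.cos x < 1) :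
    Filter.Tendsto (fun y : ℝ => omI ((y : ℂ) + (x : ℂ) * Complex.I))
      (nhdsWithin 0 (Ioi 0)) (nhds 0) := by
  have h1 : Filter.Tendsto (fun y : ℝ => (⟨Real.cosh y - Real.sqrt 2 * Real.cos x,
      Real.sinh y⟩ : ℂ)) (nhds 0) (nhds ⟨1 - Real.sqrt 2 * Real.cos x, 0⟩) := by
    have h2 : Continuous (fun y : ℝ => (⟨Real.cosh y - Real.sqrt 2 * Real.cos x,
      Real.sinh y⟩ : ℂ)) := by
      have h3 : (fun y : ℝ => (⟨Real.cosh y - Real.sqrt 2 * Real.cos x, Real.sinh y⟩ : ℂ))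
          = fun y : ℝ => ((Real.cosh y - Real.sqrt 2 * Real.cos x : ℝ) : ℂ)
            + ((Real.sinh y : ℝ) : ℂ) * Complex.I := by
        funext y
        exact Complex.mk_eq_add_mul_I _ _
      rw [h3]
      exact (Complex.continuous_ofReal.comp (Real.continuous_cosh.sub continuous_const)).add
        ((Complex.continuous_ofReal.comp Real.continuous_sinh).mul continuous_const)
    have h4 := h2.tendsto 0
    simpa using h4
  have h5 : (⟨1 - Real.sqrt 2 * Real.cos x, 0⟩ : ℂ) ∈ Complex.slitPlane := by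
    left
    change 0 < 1 - Real.sqrt 2 * Real.cos x
    linarith
  have h6 : Complex.arg (⟨1 - Real.sqrt 2 * Real.cos x, 0⟩ : ℂ) = 0 := by
    have h7 : (⟨1 - Real.sqrt 2 * Real.cos x, 0⟩ : ℂ)
        = ((1 - Real.sqrt 2 * Real.cos x : ℝ) : ℂ) := rfl
    rw [h7]
    exact Complex.arg_ofReal_of_nonneg (by linarith)
  have h8 := ((Complex.continuousAt_arg h5).tendsto.comp h1).const_mul (1 / Real.pi)
  rw [h6, mul_zero] at h8
  refine (h8.mono_left nhdsWithin_le_nhds).congr fun y => ?_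
  simp [omI]

private theorem omI_eq_log {S : ℂ} (hS : 0 < S.re) :
    omI S = 1 / Real.pi * (Complex.log ((1 - (⟨Real.sqrt 2 / 2, -(Real.sqrt 2 / 2)⟩ : ℂ)
      * Complex.exp (-S)) / ((⟨Real.sqrt 2 / 2, -(Real.sqrt 2 / 2)⟩ : ℂ)
      - Complex.exp (-S)))).im ∧
    (⟨Real.sqrt 2 / 2, -(Real.sqrt 2 / 2)⟩ : ℂ) - Complex.exp (-S) ≠ 0 ∧
    0 < ((1 - (⟨Real.sqrt 2 / 2, -(Real.sqrt 2 / 2)⟩ : ℂ)
      * Complex.exp (-S)) / ((⟨Real.sqrt 2 / 2, -(Real.sqrt 2 / 2)⟩ : ℂ)
      - Complex.exp (-S))).im := by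
  have hs : 0 < Real.sinh S.re := Real.sinh_pos_iff.2 hS
  have h22 : Real.sqrt 2 * Real.sqrt 2 = 2 := Real.mul_self_sqrt (by norm_num)
  have h2p : 0 < Real.sqrt 2 := by positivity
  set e : ℂ := (⟨Real.sqrt 2 / 2, -(Real.sqrt 2 / 2)⟩ : ℂ) with he
  set E : ℝ := Real.exp (-S.re) with hE
  have hE0 : 0 < E := Real.exp_pos _
  have hE1 : E < 1 := by
    rw [hE, Real.exp_lt_one_iff]; linarith
  have hWre : (Complex.exp (-S)).re = E * Real.cos S.im := by
    rw [Complex.exp_re]; simp [hE]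
  have hWim : (Complex.exp (-S)).im = -(E * Real.sin S.im) := by
    rw [Complex.exp_im]; simp [hE]
  have hne : e - Complex.exp (-S) ≠ 0 := by
    intro h0
    have h1 : e = Complex.exp (-S) := sub_eq_zero.1 h0
    have h2 := congrArg Complex.normSq h1
    rw [Complex.normSq_apply, Complex.normSq_apply, hWre, hWim] at h2
    have h3 := Real.sin_sq_add_cos_sq S.im
    have h4 : e.re * e.re + e.im * e.im = 1 := by
      simp only [he]; nlinarith
    rw [h4] at h2
    have h5 : E * Real.cos S.im * (E * Real.cos S.im) + -(E * Real.sin S.im) * -(E * Real.sin S.im)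
        = E ^ 2 * (Real.sin S.im ^ 2 + Real.cos S.im ^ 2) := by ring
    rw [h5, h3, mul_one] at h2
    nlinarith
  have hcosh : Real.cosh S.re * E = (1 + E ^ 2) / 2 := by
    rw [Real.cosh_eq, ← hE]
    have h5 : Real.exp S.re * E = 1 := by
      rw [hE, ← Real.exp_add]; simp
    nlinarith
  have hsinh : Real.sinh S.re * E = (1 - E ^ 2) / 2 := by
    rw [Real.sinh_eq, ← hE]
    have h5 : Real.exp S.re * E = 1 := by
      rw [hE, ← Real.exp_add]; simp
    nlinarith
  have hns : 0 < Complex.normSq (e - Complex.exp (-S)) := Complex.normSq_pos.2 hne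
  have h3 := Real.sin_sq_add_cos_sq S.im
  have keyA : (1 - e * Complex.exp (-S)) * (starRingEnd ℂ) (e - Complex.exp (-S))
      = ((Real.sqrt 2 * E : ℝ) : ℂ)
        * ⟨Real.cosh S.re - Real.sqrt 2 * Real.cos S.im, Real.sinh S.re⟩ := by
    have hre : e.re = Real.sqrt 2 / 2 := rfl
    have him : e.im = -(Real.sqrt 2 / 2) := rfl
    apply Complex.ext
    · simp only [Complex.mul_re, Complex.mul_im, Complex.sub_re, Complex.sub_im, Complex.one_re,
        Complex.one_im, Complex.conj_re, Complex.conj_im, Complex.ofReal_re, Complex.ofReal_im,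
        hWre, hWim, hre, him]
      have h6 : Real.sqrt 2 * E * (Real.cosh S.re - Real.sqrt 2 * Real.cos S.im)
          = Real.sqrt 2 * (Real.cosh S.re * E) - (Real.sqrt 2 * Real.sqrt 2) * E * Real.cos S.im := by
        ring
      rw [zero_mul, sub_zero, h6, hcosh, h22]
      have h7 : Real.sin S.im ^ 2 = 1 - Real.cos S.im ^ 2 := by linarith
      have h8 : Real.sqrt 2 ^ 2 = 2 := by rw [sq]; exact h22
      ring_nf
      rw [h7, h8]
      ring
    · simp only [Complex.mul_re, Complex.mul_im, Complex.sub_re, Complex.sub_im, Complex.one_re,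
        Complex.one_im, Complex.conj_re, Complex.conj_im, Complex.ofReal_re, Complex.ofReal_im,
        hWre, hWim, hre, him]
      have h6 : Real.sqrt 2 * E * Real.sinh S.re = Real.sqrt 2 * (Real.sinh S.re * E) := by ring
      rw [zero_mul, add_zero, h6, hsinh]
      have h7 : Real.sin S.im ^ 2 = 1 - Real.cos S.im ^ 2 := by linarith
      have h8 : Real.sqrt 2 ^ 2 = 2 := by rw [sq]; exact h22
      ring_nf
      rw [h7, h8]
      ring
  have key : (1 - e * Complex.exp (-S)) / (e - Complex.exp (-S))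
      = ((Real.sqrt 2 * E / Complex.normSq (e - Complex.exp (-S)) : ℝ) : ℂ)
        * ⟨Real.cosh S.re - Real.sqrt 2 * Real.cos S.im, Real.sinh S.re⟩ := by
    have hc : (starRingEnd ℂ) (e - Complex.exp (-S)) ≠ 0 := by
      rw [Ne, map_eq_zero]; exact hne
    rw [← mul_div_mul_right _ _ hc, keyA, Complex.mul_conj]
    push_cast
    ring
  have hr : 0 < Real.sqrt 2 * E / Complex.normSq (e - Complex.exp (-S)) := by positivity
  refine ⟨?_, hne, ?_⟩
  · rw [Complex.log_im, key, Complex.arg_real_mul _ hr]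
    rfl
  · rw [key, Complex.im_ofReal_mul]
    exact mul_pos hr hs

theorem omI_harm {g : ℂ → ℂ} {z : ℂ} (hg : AnalyticAt ℂ g z) (hz : 0 < (g z).re) :
    InnerProductSpace.HarmonicAt (fun z' => omI (g z')) z := by
  have hc : ∀ᶠ z' in nhds z, 0 < (g z').re :=
    (Complex.continuous_re.continuousAt.comp hg.continuousAt).eventually (lt_mem_nhds hz)
  set e : ℂ := (⟨Real.sqrt 2 / 2, -(Real.sqrt 2 / 2)⟩ : ℂ) with he
  have hE : AnalyticAt ℂ (fun z' => Complex.exp (-g z')) z := hg.neg.cexp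
  obtain ⟨-, hne, him⟩ := omI_eq_log hz
  have hF : AnalyticAt ℂ (fun z' => Complex.log ((1 - e * Complex.exp (-g z'))
      / (e - Complex.exp (-g z')))) z := by
    apply AnalyticAt.clog
    · exact (analyticAt_const.sub (analyticAt_const.mul hE)).div (analyticAt_const.sub hE) hne
    · exact Or.inr him.ne'
  have h1 := (AnalyticAt.harmonicAt_im hF).const_smul (c := 1 / Real.pi)
  refine (InnerProductSpace.harmonicAt_congr_nhds ?_).2 h1
  filter_upwards [hc] with z' hz'
  rw [(omI_eq_log hz').1]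
  rfl

end HallHP

end
end

section

/-!
# UPl : the potential of the plates and the configuration at all heights

`sinh ((S ± h)/2) = sinh ((y ± h)/2) cos (x/2) + i cosh ((y ± h)/2) sin (x/2)` for `S = y + i x`, and
`‖sinh ((S ± h)/2)‖² = sinh² ((y ± h)/2) + sin² (x/2)`.
* `PPl_nonneg`: `AA_mono` (`|y - h| ≤ y + h`).
* `PPl_plate`: at `S.re = hh`, `|sin (S.im/2)| ≤ s0` the second argument is
  `i sin (x/2) / s0 ∈ [-i, i]`, so its `AA` vanishes; the first argument has norm `≥ kap`, so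
  `PPl S ≥ qq log (kap + √(kap²-1)) = omI hh ≥ omI S`.
* `big`: for every `κ > 0` there is `Y` such that for `S.re ≥ Y`:
  `1 - omI S + PPl S ≥ Vi - κ`. (`omI_le_axis`, `omI_axis_tendsto`; `AA_ge`, `AA_le` with
  `‖w₊‖ ≥ sinh ((y+h)/2)/s0`, `‖w₋‖ ≤ cosh ((y-h)/2)/s0`; the difference of the two logarithms
  tends to `h`.)
* `axis`: on the real axis `1 - omI y + PPl y → Vi` as `y → ∞`. (Lower bound from `big`; upper bound:
  `omI y ≥ 1/4` or the limit; `AA (sinh ((y±h)/2)/s0)` is `arsinh` of the real number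
  `sinh ((y±h)/2)/s0`, i.e. `log (t + √(t²+1))`.)
-/

noncomputable section

open MeasureTheory Set Metric

namespace HallHP

private theorem hh_pos' : 0 < hh := Real.log_pos (by norm_num)

private theorem pq_re (p q r t : ℝ) :
    ((p : ℂ) * (q : ℂ) + (r : ℂ) * ((t : ℂ) * Complex.I)).re = p * q := by
  simp

private theorem pq_im (p q r t : ℝ) :
    ((p : ℂ) * (q : ℂ) + (r : ℂ) * ((t : ℂ) * Complex.I)).im = r * t := by
  simp

private theorem sinh_re (S : ℂ) (c : ℝ) :
    (Complex.sinh ((S + c) / 2) / (s0 : ℂ)).re =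
      Real.sinh ((S.re + c) / 2) * Real.cos (S.im / 2) / s0 := by
  have h1 : (S + (c : ℂ)) / 2 = (((S.re + c) / 2 : ℝ) : ℂ) + ((S.im / 2 : ℝ) : ℂ) * Complex.I := by
    apply Complex.ext
    · rw [show (S + (c : ℂ)) / 2 = (S + (c : ℂ)) / ((2 : ℝ) : ℂ) by norm_num, Complex.div_ofReal_re]
      simp
    · rw [show (S + (c : ℂ)) / 2 = (S + (c : ℂ)) / ((2 : ℝ) : ℂ) by norm_num, Complex.div_ofReal_im]
      simp
  rw [Complex.div_ofReal_re, h1, Complex.sinh_add, Complex.sinh_mul_I, Complex.cosh_mul_I,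
    ← Complex.ofReal_sinh, ← Complex.ofReal_cosh, ← Complex.ofReal_sin, ← Complex.ofReal_cos,
    pq_re]

private theorem sinh_im (S : ℂ) (c : ℝ) :
    (Complex.sinh ((S + c) / 2) / (s0 : ℂ)).im =
      Real.cosh ((S.re + c) / 2) * Real.sin (S.im / 2) / s0 := by
  have h1 : (S + (c : ℂ)) / 2 = (((S.re + c) / 2 : ℝ) : ℂ) + ((S.im / 2 : ℝ) : ℂ) * Complex.I := by
    apply Complex.ext
    · rw [show (S + (c : ℂ)) / 2 = (S + (c : ℂ)) / ((2 : ℝ) : ℂ) by norm_num, Complex.div_ofReal_re]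
      simp
    · rw [show (S + (c : ℂ)) / 2 = (S + (c : ℂ)) / ((2 : ℝ) : ℂ) by norm_num, Complex.div_ofReal_im]
      simp
  rw [Complex.div_ofReal_im, h1, Complex.sinh_add, Complex.sinh_mul_I, Complex.cosh_mul_I,
    ← Complex.ofReal_sinh, ← Complex.ofReal_cosh, ← Complex.ofReal_sin, ← Complex.ofReal_cos,
    pq_im]

private theorem normsq (S : ℂ) (c : ℝ) :
    ‖Complex.sinh ((S + c) / 2) / (s0 : ℂ)‖ ^ 2 =
      (Real.sinh ((S.re + c) / 2) ^ 2 + Real.sin (S.im / 2) ^ 2) / s0 ^ 2 := by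
  have hs := s0_pos
  rw [Complex.sq_norm, Complex.normSq_apply, sinh_re, sinh_im]
  have h1 := Real.cosh_sq ((S.re + c) / 2)
  have h2 := Real.sin_sq_add_cos_sq (S.im / 2)
  field_simp
  rw [h1]
  linear_combination (Real.sinh ((S.re + c) / 2) ^ 2) * h2

private theorem norm_ge (S : ℂ) (c : ℝ) :
    Real.sinh ((S.re + c) / 2) / s0 ≤ ‖Complex.sinh ((S + c) / 2) / (s0 : ℂ)‖ := by
  have hs := s0_pos
  refine le_of_sq_le_sq ?_ (norm_nonneg _)
  rw [normsq, div_pow]
  apply div_le_div_of_nonneg_right _ (by positivity)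
  have := sq_nonneg (Real.sin (S.im / 2))
  linarith

private theorem norm_le (S : ℂ) (c : ℝ) :
    ‖Complex.sinh ((S + c) / 2) / (s0 : ℂ)‖ ≤ Real.cosh ((S.re + c) / 2) / s0 := by
  have hs := s0_pos
  refine le_of_sq_le_sq ?_ (div_nonneg (Real.cosh_pos _).le hs.le)
  rw [normsq, div_pow, Real.cosh_sq]
  apply div_le_div_of_nonneg_right _ (by positivity)
  have := Real.sin_sq_le_one (S.im / 2)
  linarith

private theorem sub_eq (S : ℂ) : (S - (hh : ℂ)) / 2 = (S + ((-hh : ℝ) : ℂ)) / 2 := by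
  push_cast
  ring

private theorem base_mono' {x y : ℝ} (hx : 1 ≤ x) (hxy : x ≤ y) :
    Real.log (x + Real.sqrt (x ^ 2 - 1)) ≤ Real.log (y + Real.sqrt (y ^ 2 - 1)) := by
  apply Real.log_le_log
  · have := Real.sqrt_nonneg (x ^ 2 - 1)
    linarith
  · have : Real.sqrt (x ^ 2 - 1) ≤ Real.sqrt (y ^ 2 - 1) := by
      apply Real.sqrt_le_sqrt
      nlinarith
    linarith

private theorem base_mono2 {x y : ℝ} (hx : 0 ≤ x) (hxy : x ≤ y) :
    Real.log (x + Real.sqrt (x ^ 2 + 1)) ≤ Real.log (y + Real.sqrt (y ^ 2 + 1)) := by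
  apply Real.log_le_log
  · have := Real.sqrt_pos.2 (by positivity : 0 < x ^ 2 + 1)
    linarith
  · have : Real.sqrt (x ^ 2 + 1) ≤ Real.sqrt (y ^ 2 + 1) := by
      apply Real.sqrt_le_sqrt
      nlinarith
    linarith

theorem PPl_nonneg {S : ℂ} (hS : 0 < S.re) : 0 ≤ PPl S := by
  unfold PPl
  have hq := qq_pos
  have hs := s0_pos
  have hhp := hh_pos'
  apply mul_nonneg hq.le
  rw [sub_nonneg, sub_eq]
  have habs : |(S.re + -hh) / 2| ≤ |(S.re + hh) / 2| := by
    rw [abs_of_pos (by linarith : 0 < (S.re + hh) / 2), abs_le]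
    constructor <;> linarith
  apply AA_mono
  · rw [sinh_re, sinh_re, abs_div, abs_div, abs_mul, abs_mul]
    apply div_le_div_of_nonneg_right _ (abs_nonneg _)
    apply mul_le_mul_of_nonneg_right _ (abs_nonneg _)
    rw [Real.abs_sinh, Real.abs_sinh]
    exact Real.sinh_le_sinh.2 habs
  · rw [sinh_im, sinh_im, abs_div, abs_div, abs_mul, abs_mul]
    apply div_le_div_of_nonneg_right _ (abs_nonneg _)
    apply mul_le_mul_of_nonneg_right _ (abs_nonneg _)
    rw [abs_of_pos (Real.cosh_pos _), abs_of_pos (Real.cosh_pos _)]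
    exact Real.cosh_le_cosh.2 habs

theorem PPl_plate {S : ℂ} (hS : S.re = hh) (hx : |Real.sin (S.im / 2)| ≤ s0) :
    omI S ≤ PPl S := by
  have hq := qq_pos
  have hs := s0_pos
  have hhp := hh_pos'
  have hk := one_lt_kap
  have h1 : omI S ≤ omI ((hh : ℝ) : ℂ) := by
    rw [← hS]
    exact omI_le_axis (by rw [hS]; exact hhp)
  have h2 : AA (Complex.sinh ((S - (hh : ℂ)) / 2) / (s0 : ℂ)) = 0 := by
    have h3 : Complex.sinh ((S - (hh : ℂ)) / 2) / (s0 : ℂ) =
        ((Real.sin (S.im / 2) / s0 : ℝ) : ℂ) * Complex.I := by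
      rw [sub_eq]
      apply Complex.ext
      · rw [sinh_re, hS, Complex.re_ofReal_mul, Complex.I_re]
        simp
      · rw [sinh_im, hS, Complex.im_ofReal_mul, Complex.I_im]
        simp
    rw [h3]
    apply AA_seg
    rw [abs_div, abs_of_pos hs, div_le_one hs]
    exact hx
  have h4 : kap ≤ ‖Complex.sinh ((S + (hh : ℂ)) / 2) / (s0 : ℂ)‖ := by
    have h5 := norm_ge S hh
    rw [hS] at h5
    have h6 : (hh + hh) / 2 = hh := by ring
    rw [h6] at h5
    exact h5
  have h7 : Real.log (kap + Real.sqrt (kap ^ 2 - 1)) ≤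
      AA (Complex.sinh ((S + (hh : ℂ)) / 2) / (s0 : ℂ)) :=
    (base_mono' hk.le h4).trans (AA_ge (hk.le.trans h4))
  have hlog : 0 < Real.log (kap + Real.sqrt (kap ^ 2 - 1)) := by
    apply Real.log_pos
    have := Real.sqrt_nonneg (kap ^ 2 - 1)
    linarith
  calc omI S ≤ omI ((hh : ℝ) : ℂ) := h1
    _ = qq * Real.log (kap + Real.sqrt (kap ^ 2 - 1)) := by
        rw [omI_hh, qq, div_mul_cancel₀ _ hlog.ne']
    _ ≤ qq * AA (Complex.sinh ((S + (hh : ℂ)) / 2) / (s0 : ℂ)) :=
        mul_le_mul_of_nonneg_left h7 hq.le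
    _ = PPl S := by
        unfold PPl
        rw [h2, sub_zero]

private theorem part_tendsto {a : ℝ → ℝ} (ha : Filter.Tendsto a Filter.atTop Filter.atTop)
    (σ : ℝ) : Filter.Tendsto (fun y => Real.log (1 + Real.sqrt (1 + σ / a y ^ 2)))
      Filter.atTop (nhds (Real.log 2)) := by
  have h1 : Filter.Tendsto (fun y => σ / a y ^ 2) Filter.atTop (nhds 0) :=
    Filter.Tendsto.const_div_atTop ((Filter.tendsto_pow_atTop two_ne_zero).comp ha) σ
  have h2 : Filter.Tendsto (fun y => 1 + Real.sqrt (1 + σ / a y ^ 2)) Filter.atTop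
      (nhds (1 + Real.sqrt (1 + 0))) :=
    tendsto_const_nhds.add ((tendsto_const_nhds.add h1).sqrt)
  rw [add_zero, Real.sqrt_one, show (1 : ℝ) + 1 = 2 by norm_num] at h2
  exact h2.log two_ne_zero

private theorem part_eq {a σ : ℝ} (ha : 0 < a) :
    Real.log (a + Real.sqrt (a ^ 2 + σ)) =
      Real.log a + Real.log (1 + Real.sqrt (1 + σ / a ^ 2)) := by
  have h1 : a ^ 2 + σ = a ^ 2 * (1 + σ / a ^ 2) := by
    field_simp
  rw [h1, Real.sqrt_mul (by positivity), Real.sqrt_sq ha.le]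
  have h2 : a + a * Real.sqrt (1 + σ / a ^ 2) = a * (1 + Real.sqrt (1 + σ / a ^ 2)) := by ring
  have h3 : 0 < 1 + Real.sqrt (1 + σ / a ^ 2) := by
    have := Real.sqrt_nonneg (1 + σ / a ^ 2)
    linarith
  rw [h2, Real.log_mul ha.ne' h3.ne']

private theorem diff_tendsto {a b : ℝ → ℝ} (ha : Filter.Tendsto a Filter.atTop Filter.atTop)
    (hb : Filter.Tendsto b Filter.atTop Filter.atTop) (σ τ : ℝ) {h : ℝ}
    (hab : Filter.Tendsto (fun y => a y / b y) Filter.atTop (nhds (Real.exp h))) :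
    Filter.Tendsto (fun y => Real.log (a y + Real.sqrt (a y ^ 2 + σ)) -
      Real.log (b y + Real.sqrt (b y ^ 2 + τ))) Filter.atTop (nhds h) := by
  have h1 : Filter.Tendsto (fun y => Real.log (a y / b y)) Filter.atTop (nhds h) := by
    have := hab.log (Real.exp_pos h).ne'
    rwa [Real.log_exp] at this
  have h2 := part_tendsto ha σ
  have h3 := part_tendsto hb τ
  have h4 := h1.add (h2.sub h3)
  rw [sub_self, add_zero] at h4
  refine h4.congr' ?_
  filter_upwards [ha.eventually_gt_atTop 0, hb.eventually_gt_atTop 0] with y hay hby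
  rw [part_eq hay, part_eq hby, Real.log_div hay.ne' hby.ne']
  ring

private theorem sinh_tendsto (c : ℝ) :
    Filter.Tendsto (fun y : ℝ => Real.sinh ((y + c) / 2) / s0) Filter.atTop Filter.atTop := by
  apply Filter.Tendsto.atTop_div_const s0_pos
  have h1 : Filter.Tendsto (fun y : ℝ => (y + c) / 2) Filter.atTop Filter.atTop :=
    (Filter.tendsto_atTop_add_const_right _ c Filter.tendsto_id).atTop_div_const (by norm_num)
  refine Filter.tendsto_atTop_mono' _ ?_ h1
  filter_upwards [Filter.eventually_ge_atTop (-c)] with y hy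
  exact Real.self_le_sinh_iff.2 (by linarith)

private theorem cosh_tendsto (c : ℝ) :
    Filter.Tendsto (fun y : ℝ => Real.cosh ((y + c) / 2) / s0) Filter.atTop Filter.atTop := by
  refine Filter.tendsto_atTop_mono ?_ (sinh_tendsto c)
  intro y
  exact div_le_div_of_nonneg_right (Real.sinh_lt_cosh _).le s0_pos.le

private theorem exp_half_tendsto : Filter.Tendsto (fun y : ℝ => Real.exp (-y)) Filter.atTop
    (nhds 0) := Real.tendsto_exp_neg_atTop_nhds_zero

private theorem ratio1 : Filter.Tendsto (fun y : ℝ => (Real.sinh ((y + hh) / 2) / s0) /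
    (Real.cosh ((y + -hh) / 2) / s0)) Filter.atTop (nhds (Real.exp hh)) := by
  have hs := s0_pos
  have h1 : Filter.Tendsto (fun y : ℝ => (Real.exp (hh / 2) - Real.exp (-y) * Real.exp (-hh / 2)) /
      (Real.exp (-hh / 2) + Real.exp (-y) * Real.exp (hh / 2))) Filter.atTop
      (nhds ((Real.exp (hh / 2) - 0 * Real.exp (-hh / 2)) /
      (Real.exp (-hh / 2) + 0 * Real.exp (hh / 2)))) := by
    apply Filter.Tendsto.div
    · exact tendsto_const_nhds.sub (exp_half_tendsto.mul_const _)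
    · exact tendsto_const_nhds.add (exp_half_tendsto.mul_const _)
    · simp
  have h2 : (Real.exp (hh / 2) - 0 * Real.exp (-hh / 2)) /
      (Real.exp (-hh / 2) + 0 * Real.exp (hh / 2)) = Real.exp hh := by
    rw [zero_mul, zero_mul, sub_zero, add_zero, ← Real.exp_sub]
    congr 1
    ring
  rw [h2] at h1
  refine h1.congr ?_
  intro y
  rw [div_div_div_cancel_right₀ hs.ne', Real.sinh_eq, Real.cosh_eq,
    div_div_div_cancel_right₀ two_ne_zero]
  have e1 : Real.exp ((y + hh) / 2) - Real.exp (-((y + hh) / 2)) =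
      Real.exp (y / 2) * (Real.exp (hh / 2) - Real.exp (-y) * Real.exp (-hh / 2)) := by
    rw [mul_sub, ← mul_assoc, ← Real.exp_add, ← Real.exp_add, ← Real.exp_add]
    congr 2 <;> ring
  have e2 : Real.exp ((y + -hh) / 2) + Real.exp (-((y + -hh) / 2)) =
      Real.exp (y / 2) * (Real.exp (-hh / 2) + Real.exp (-y) * Real.exp (hh / 2)) := by
    rw [mul_add, ← mul_assoc, ← Real.exp_add, ← Real.exp_add, ← Real.exp_add]
    congr 2 <;> ring
  rw [e1, e2, mul_div_mul_left _ _ (Real.exp_pos (y / 2)).ne']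

private theorem ratio2 : Filter.Tendsto (fun y : ℝ => (Real.sinh ((y + hh) / 2) / s0) /
    (Real.sinh ((y + -hh) / 2) / s0)) Filter.atTop (nhds (Real.exp hh)) := by
  have hs := s0_pos
  have h1 : Filter.Tendsto (fun y : ℝ => (Real.exp (hh / 2) - Real.exp (-y) * Real.exp (-hh / 2)) /
      (Real.exp (-hh / 2) - Real.exp (-y) * Real.exp (hh / 2))) Filter.atTop
      (nhds ((Real.exp (hh / 2) - 0 * Real.exp (-hh / 2)) /
      (Real.exp (-hh / 2) - 0 * Real.exp (hh / 2)))) := by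
    apply Filter.Tendsto.div
    · exact tendsto_const_nhds.sub (exp_half_tendsto.mul_const _)
    · exact tendsto_const_nhds.sub (exp_half_tendsto.mul_const _)
    · simp
  have h2 : (Real.exp (hh / 2) - 0 * Real.exp (-hh / 2)) /
      (Real.exp (-hh / 2) - 0 * Real.exp (hh / 2)) = Real.exp hh := by
    rw [zero_mul, zero_mul, sub_zero, sub_zero, ← Real.exp_sub]
    congr 1
    ring
  rw [h2] at h1
  refine h1.congr ?_
  intro y
  rw [div_div_div_cancel_right₀ hs.ne', Real.sinh_eq, Real.sinh_eq,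
    div_div_div_cancel_right₀ two_ne_zero]
  have e1 : ∀ c : ℝ, Real.exp ((y + c) / 2) - Real.exp (-((y + c) / 2)) =
      Real.exp (y / 2) * (Real.exp (c / 2) - Real.exp (-y) * Real.exp (-c / 2)) := by
    intro c
    rw [mul_sub, ← mul_assoc, ← Real.exp_add, ← Real.exp_add, ← Real.exp_add]
    congr 2 <;> ring
  rw [e1 hh, e1 (-hh), mul_div_mul_left _ _ (Real.exp_pos (y / 2)).ne', neg_neg]

theorem big {κ : ℝ} (hκ : 0 < κ) :
    ∃ Y : ℝ, 0 < Y ∧ ∀ S : ℂ, Y ≤ S.re → Vi - κ ≤ 1 - omI S + PPl S := by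
  have hq := qq_pos
  have hs := s0_pos
  have hlim := diff_tendsto (sinh_tendsto hh) (cosh_tendsto (-hh)) (-1) 1 ratio1
  have hlim2 : Filter.Tendsto (fun y : ℝ => 1 - omI (y : ℂ) +
      qq * (Real.log (Real.sinh ((y + hh) / 2) / s0 +
        Real.sqrt ((Real.sinh ((y + hh) / 2) / s0) ^ 2 + -1)) -
      Real.log (Real.cosh ((y + -hh) / 2) / s0 +
        Real.sqrt ((Real.cosh ((y + -hh) / 2) / s0) ^ 2 + 1)))) Filter.atTop
      (nhds (1 - 1 / 4 + qq * hh)) :=
    (tendsto_const_nhds.sub omI_axis_tendsto).add (hlim.const_mul qq)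
  have hV : (1 - 1 / 4 + qq * hh : ℝ) = Vi := by
    unfold Vi
    ring
  rw [hV] at hlim2
  have hev := hlim2.eventually (lt_mem_nhds (show Vi - κ < Vi by linarith))
  have hev2 := (sinh_tendsto hh).eventually_ge_atTop 1
  obtain ⟨Y, hY⟩ := Filter.eventually_atTop.1 (hev.and hev2)
  refine ⟨max Y 1, lt_of_lt_of_le one_pos (le_max_right _ _), ?_⟩
  intro S hS
  have hS0 : 0 < S.re := lt_of_lt_of_le one_pos ((le_max_right _ _).trans hS)
  obtain ⟨h1, h2⟩ := hY S.re ((le_max_left _ _).trans hS)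
  have h3 := omI_le_axis hS0
  have hhp := hh_pos'
  have h4 := norm_ge S hh
  have h5 := norm_le S (-hh)
  have h6 : Real.log (Real.sinh ((S.re + hh) / 2) / s0 +
        Real.sqrt ((Real.sinh ((S.re + hh) / 2) / s0) ^ 2 + -1)) ≤
      AA (Complex.sinh ((S + (hh : ℂ)) / 2) / (s0 : ℂ)) := by
    rw [← sub_eq_add_neg]
    exact (base_mono' h2 h4).trans (AA_ge (h2.trans h4))
  have h7 : AA (Complex.sinh ((S - (hh : ℂ)) / 2) / (s0 : ℂ)) ≤
      Real.log (Real.cosh ((S.re + -hh) / 2) / s0 +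
        Real.sqrt ((Real.cosh ((S.re + -hh) / 2) / s0) ^ 2 + 1)) := by
    rw [sub_eq]
    exact (AA_le _).trans (base_mono2 (norm_nonneg _) h5)
  unfold PPl
  have h8 := mul_le_mul_of_nonneg_left (sub_le_sub h6 h7) hq.le
  linarith

private theorem AA_real {t : ℝ} (ht : 0 ≤ t) :
    AA (t : ℂ) = Real.log (t + Real.sqrt (t ^ 2 + 1)) := by
  have h1 : cc (t : ℂ) = Real.sqrt (t ^ 2 + 1) := by
    unfold cc
    have e1 : ‖(t : ℂ) - Complex.I‖ = Real.sqrt (t ^ 2 + 1) := by
      rw [Complex.norm_def, Complex.normSq_apply]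
      simp [pow_two]
    have e2 : ‖(t : ℂ) + Complex.I‖ = Real.sqrt (t ^ 2 + 1) := by
      rw [Complex.norm_def, Complex.normSq_apply]
      simp [pow_two]
    rw [e1, e2]
    ring
  unfold AA
  rw [h1, Real.sq_sqrt (by positivity), add_sub_cancel_right, Real.sqrt_sq ht, add_comm]

theorem axis : Filter.Tendsto (fun y : ℝ => 1 - omI (y : ℂ) + PPl (y : ℂ)) Filter.atTop
    (nhds Vi) := by
  have hs := s0_pos
  have hhp := hh_pos'
  have hlim := diff_tendsto (sinh_tendsto hh) (sinh_tendsto (-hh)) 1 1 ratio2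
  have hlim2 := (tendsto_const_nhds (x := (1 : ℝ)).sub omI_axis_tendsto).add (hlim.const_mul qq)
  have hV : (1 - 1 / 4 + qq * hh : ℝ) = Vi := by
    unfold Vi
    ring
  rw [hV] at hlim2
  refine hlim2.congr' ?_
  filter_upwards [Filter.eventually_ge_atTop hh] with y hy
  have e : ∀ c : ℝ, Complex.sinh (((y : ℂ) + (c : ℂ)) / 2) / (s0 : ℂ) =
      ((Real.sinh ((y + c) / 2) / s0 : ℝ) : ℂ) := by
    intro c
    push_cast
    rfl
  unfold PPl
  rw [sub_eq, e hh, e (-hh), AA_real, AA_real]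
  · apply div_nonneg _ hs.le
    exact Real.sinh_nonneg_iff.2 (by linarith)
  · apply div_nonneg _ hs.le
    exact Real.sinh_nonneg_iff.2 (by linarith)

end HallHP

end
end

section

/-!
# UFn : the function `vv N ε`

`SS N z` is analytic on `RH`, `(SS N z).re = N (π/2 - arg z) ∈ (0, N π)`,
`(SS N z).im = N log ‖z‖`.
* `vv_cont`: `AA_cont`; `omI (SS N z)` is harmonic (hence continuous) at all points of `RH`; `arg` is
  continuous on the slit plane.
* `vv_mean`: `vv = H - qq * AA (sinh ((S - h)/2)/s0)` with `H` harmonic at all points of `RH`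
  (`omI_harm`, `AA_comp_harm` for `sinh ((S + h)/2)/s0`: its real part is
  `sinh ((y+h)/2) cos (x/2) / s0`, and if it is `0` then `|sin (x/2)| = 1`,
  and the imaginary part is `≥ cosh/s0 > 1` in modulus; `arg z = (log z).im`). If
  `w₋ = sinh ((S - h)/2)/s0` is not in `[-i, i]` then `vv` is harmonic at `z`: equality by
  `InnerProductSpace.HarmonicOnNhd.circleAverage_eq`. If `w₋ ∈ [-i, i]` then `AA w₋ = 0` and
  `AA ≥ 0` on the circle.
* `vv_pos`: take `κ = ε / 2` in `big`, get `Y`; for `S.re ≥ Y`: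
  `vv ≥ Vi - ε/2 - Vi/π * (π/2 - arg z) + ε ≥ ε/2` as `π/2 - arg z < π`. For `S.re < Y`:
  `π/2 - arg z < Y/N`, `1 - omI > 0`, `PPl ≥ 0`, so `vv > ε - Vi Y / (π N) ≥ 0` for large `N`.
* `vv_circ`: `x = N log r`. If `|sin (x/2)| ≤ s0` take `θ = π/2 - hh/N`: `vv ≥ 1 - Vi hh/(π N) + ε ≥ 1`
  for large `N` (`PPl_plate`). Otherwise `√2 cos x < 1` (`cos x = 1 - 2 sin² (x/2)`,
  `2 s0² = 1 - √2/2`) and for `θ → π/2`: `omI → 0` (`omI_bdry`), `PPl ≥ 0`, so `liminf vv ≥ 1 + ε`.
* `vv_one`: `SS N 1 = N π / 2`; `axis`.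
-/

noncomputable section

open MeasureTheory Set Metric

namespace HallHP

theorem SS_re (N : ℝ) (z : ℂ) : (SS N z).re = N * (Real.pi / 2 - Complex.arg z) := by
  have h : (SS N z) = (N : ℂ) * (((Real.pi / 2 : ℝ) : ℂ) + Complex.I * Complex.log z) := rfl
  rw [h, Complex.re_ofReal_mul, Complex.add_re, Complex.ofReal_re, Complex.I_mul_re, Complex.log_im]
  ring

theorem SS_im (N : ℝ) (z : ℂ) : (SS N z).im = N * Real.log ‖z‖ := by
  have h : (SS N z) = (N : ℂ) * (((Real.pi / 2 : ℝ) : ℂ) + Complex.I * Complex.log z) := rfl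
  rw [h, Complex.im_ofReal_mul, Complex.add_im, Complex.ofReal_im, Complex.I_mul_im, Complex.log_re]
  ring

private theorem arg_RH {z : ℂ} (hz : z ∈ RH) : |Complex.arg z| < Real.pi / 2 :=
  Complex.abs_arg_lt_pi_div_two_iff.2 (Or.inl hz)

private theorem slit_RH {z : ℂ} (hz : z ∈ RH) : z ∈ Complex.slitPlane := Or.inl hz

private theorem SS_re_pos {N : ℝ} (hN : 0 < N) {z : ℂ} (hz : z ∈ RH) : 0 < (SS N z).re := by
  rw [SS_re]
  have := (abs_lt.1 (arg_RH hz)).2
  exact mul_pos hN (by linarith)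

private theorem SS_analytic (N : ℝ) {z : ℂ} (hz : z ∈ RH) : AnalyticAt ℂ (SS N) z := by
  have h1 : AnalyticAt ℂ Complex.log z := analyticAt_clog (slit_RH hz)
  have h2 : AnalyticAt ℂ (fun z => (N : ℂ) * (((Real.pi / 2 : ℝ) : ℂ) + Complex.I * Complex.log z)) z :=
    analyticAt_const.mul (analyticAt_const.add (analyticAt_const.mul h1))
  exact h2

private theorem isOpen_RH : IsOpen RH := isOpen_lt continuous_const Complex.continuous_re

private theorem csinh_re (w : ℂ) : (Complex.sinh w).re = Real.sinh w.re * Real.cos w.im := by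
  conv_lhs => rw [← Complex.re_add_im w]
  rw [Complex.sinh_add, Complex.sinh_mul_I, Complex.cosh_mul_I]
  simp [Complex.add_re, Complex.mul_re, ← Complex.ofReal_sinh, ← Complex.ofReal_cosh,
    ← Complex.ofReal_sin, ← Complex.ofReal_cos]

private theorem csinh_im (w : ℂ) : (Complex.sinh w).im = Real.cosh w.re * Real.sin w.im := by
  conv_lhs => rw [← Complex.re_add_im w]
  rw [Complex.sinh_add, Complex.sinh_mul_I, Complex.cosh_mul_I]
  simp [Complex.add_im, Complex.mul_im, ← Complex.ofReal_sinh, ← Complex.ofReal_cosh,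
    ← Complex.ofReal_sin, ← Complex.ofReal_cos]

private def wp (N : ℝ) (z : ℂ) : ℂ := Complex.sinh ((SS N z + hh) / 2) / s0
private def wm (N : ℝ) (z : ℂ) : ℂ := Complex.sinh ((SS N z - hh) / 2) / s0

private theorem wp_analytic (N : ℝ) {z : ℂ} (hz : z ∈ RH) : AnalyticAt ℂ (wp N) z := by
  have h1 := SS_analytic N hz
  have h2 : AnalyticAt ℂ (fun z => (SS N z + hh) / 2) z := (h1.add analyticAt_const).div_const
  have h3 : AnalyticAt ℂ (fun z => Complex.sinh ((SS N z + hh) / 2)) z :=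
    (Complex.differentiable_sinh.analyticAt _).comp h2
  exact h3.div_const

private theorem wm_analytic (N : ℝ) {z : ℂ} (hz : z ∈ RH) : AnalyticAt ℂ (wm N) z := by
  have h1 := SS_analytic N hz
  have h2 : AnalyticAt ℂ (fun z => (SS N z - hh) / 2) z := (h1.sub analyticAt_const).div_const
  have h3 : AnalyticAt ℂ (fun z => Complex.sinh ((SS N z - hh) / 2)) z :=
    (Complex.differentiable_sinh.analyticAt _).comp h2
  exact h3.div_const

private theorem hh_pos : 0 < hh := Real.log_pos (by norm_num)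

private theorem wp_notin {N : ℝ} (hN : 0 < N) {z : ℂ} (hz : z ∈ RH) :
    ¬ ∃ t : ℝ, |t| ≤ 1 ∧ wp N z = (t : ℂ) * Complex.I := by
  rintro ⟨t, ht, hw⟩
  have hs0 := s0_pos
  have hs1 := s0_lt
  have hS := SS_re_pos hN hz
  have hre : (wp N z).re = 0 := by rw [hw]; simp
  have him : (wp N z).im = t := by rw [hw]; simp
  have e1 : (wp N z).re = Real.sinh ((SS N z).re / 2 + hh / 2) * Real.cos ((SS N z).im / 2) / s0 := by
    rw [wp, Complex.div_ofReal_re, csinh_re]
    have a1 : ((SS N z + hh) / 2).re = (SS N z).re / 2 + hh / 2 := by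
      simp [Complex.add_re]; ring
    have a2 : ((SS N z + hh) / 2).im = (SS N z).im / 2 := by
      simp [Complex.add_im]
    rw [a1, a2]
  have e2 : (wp N z).im = Real.cosh ((SS N z).re / 2 + hh / 2) * Real.sin ((SS N z).im / 2) / s0 := by
    rw [wp, Complex.div_ofReal_im, csinh_im]
    have a1 : ((SS N z + hh) / 2).re = (SS N z).re / 2 + hh / 2 := by
      simp [Complex.add_re]; ring
    have a2 : ((SS N z + hh) / 2).im = (SS N z).im / 2 := by
      simp [Complex.add_im]
    rw [a1, a2]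
  have hsinh : 0 < Real.sinh ((SS N z).re / 2 + hh / 2) :=
    Real.sinh_pos_iff.2 (by have := hh_pos; linarith)
  have hcos : Real.cos ((SS N z).im / 2) = 0 := by
    rw [e1] at hre
    rcases div_eq_zero_iff.1 hre with h | h
    · rcases mul_eq_zero.1 h with h | h
      · exact absurd h hsinh.ne'
      · exact h
    · exact absurd h hs0.ne'
  have hsin : Real.sin ((SS N z).im / 2) ^ 2 = 1 := by
    have := Real.sin_sq_add_cos_sq ((SS N z).im / 2)
    rw [hcos] at this
    linarith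
  have ht2 : t ^ 2 ≤ 1 := by
    rw [← sq_abs]
    have := abs_nonneg t
    nlinarith
  have hcosh : 1 ≤ Real.cosh ((SS N z).re / 2 + hh / 2) := Real.one_le_cosh _
  have ht3 : t ^ 2 * s0 ^ 2 = Real.cosh ((SS N z).re / 2 + hh / 2) ^ 2 := by
    rw [← him, e2, div_pow, mul_pow, hsin]
    field_simp
  nlinarith

private theorem omI_harmN {N : ℝ} (hN : 0 < N) {z : ℂ} (hz : z ∈ RH) :
    InnerProductSpace.HarmonicAt (fun z' => omI (SS N z')) z :=
  omI_harm (SS_analytic N hz) (SS_re_pos hN hz)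

private theorem arg_harm {z : ℂ} (hz : z ∈ RH) :
    InnerProductSpace.HarmonicAt (fun z' => Complex.arg z') z := by
  have h := (analyticAt_clog (slit_RH hz)).harmonicAt_im
  have he : (fun z' : ℂ => (Complex.log z').im) = fun z' => Complex.arg z' := by
    funext z'
    exact Complex.log_im z'
  rw [he] at h
  exact h

theorem vv_cont {N : ℝ} (hN : 0 < N) (ε : ℝ) : ContinuousOn (vv N ε) RH := by
  intro z hz
  refine ContinuousAt.continuousWithinAt ?_
  have h1 : ContinuousAt (fun z' => omI (SS N z')) z := (omI_harmN hN hz).1.continuousAt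
  have h2 : ContinuousAt (fun z' => AA (wp N z')) z :=
    AA_cont.continuousAt.comp (wp_analytic N hz).continuousAt
  have h3 : ContinuousAt (fun z' => AA (wm N z')) z :=
    AA_cont.continuousAt.comp (wm_analytic N hz).continuousAt
  have h4 : ContinuousAt (fun z' => Complex.arg z') z := Complex.continuousAt_arg (slit_RH hz)
  have h5 : ContinuousAt (fun z' => 1 - omI (SS N z') + qq * (AA (wp N z') - AA (wm N z'))
      - Vi / Real.pi * (Real.pi / 2 - Complex.arg z') + ε) z :=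
    (((continuousAt_const.sub h1).add (continuousAt_const.mul (h2.sub h3))).sub
      (continuousAt_const.mul (continuousAt_const.sub h4))).add continuousAt_const
  exact h5

private def HHf (N ε : ℝ) (z : ℂ) : ℝ :=
  1 - omI (SS N z) + qq * AA (wp N z) - Vi / Real.pi * (Real.pi / 2 - Complex.arg z) + ε

private theorem vv_eq (N ε : ℝ) (z : ℂ) : vv N ε z = HHf N ε z - qq * AA (wm N z) := by
  show 1 - omI (SS N z) + qq * (AA (wp N z) - AA (wm N z))
      - Vi / Real.pi * (Real.pi / 2 - Complex.arg z) + ε = _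
  rw [HHf]
  ring

private theorem HHf_harm {N : ℝ} (hN : 0 < N) (ε : ℝ) {z : ℂ} (hz : z ∈ RH) :
    InnerProductSpace.HarmonicAt (HHf N ε) z := by
  have h1 := omI_harmN hN hz
  have h2 : InnerProductSpace.HarmonicAt (fun z' => AA (wp N z')) z :=
    AA_comp_harm (wp_analytic N hz) (wp_notin hN hz)
  have h3 := arg_harm hz
  have h4 : InnerProductSpace.HarmonicAt
      ((fun _ : ℂ => (1 - Vi / Real.pi * (Real.pi / 2) + ε : ℝ)) - (fun z' => omI (SS N z'))
        + qq • (fun z' => AA (wp N z')) + (Vi / Real.pi) • (fun z' => Complex.arg z')) z :=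
    ((((InnerProductSpace.harmonicAt_const _).sub h1).add h2.const_smul).add h3.const_smul)
  have he : HHf N ε = ((fun _ : ℂ => (1 - Vi / Real.pi * (Real.pi / 2) + ε : ℝ)) - (fun z' => omI (SS N z'))
        + qq • (fun z' => AA (wp N z')) + (Vi / Real.pi) • (fun z' => Complex.arg z')) := by
    funext z'
    simp only [HHf, Pi.add_apply, Pi.sub_apply, Pi.smul_apply, smul_eq_mul]
    ring
  rw [he]
  exact h4

private theorem harm_ball {f : ℂ → ℝ} {z : ℂ} (h : InnerProductSpace.HarmonicAt f z) :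
    ∃ ρ₀ : ℝ, 0 < ρ₀ ∧ ∀ ρ : ℝ, 0 < ρ → ρ < ρ₀ → Real.circleAverage f z ρ = f z := by
  obtain ⟨ρ₀, hρ₀, hb⟩ := Metric.eventually_nhds_iff_ball.1 h.eventually
  refine ⟨ρ₀, hρ₀, fun ρ h0 h1 => ?_⟩
  refine InnerProductSpace.HarmonicOnNhd.circleAverage_eq (fun y hy => hb y ?_)
  rw [abs_of_pos h0] at hy
  exact (Metric.mem_closedBall.1 hy).trans_lt h1

theorem vv_mean {N : ℝ} (hN : 0 < N) (ε : ℝ) {z : ℂ} (hz : z ∈ RH) :
    ∃ ρ₀ : ℝ, 0 < ρ₀ ∧ ∀ ρ : ℝ, 0 < ρ → ρ < ρ₀ →
      Real.circleAverage (vv N ε) z ρ ≤ vv N ε z := by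
  by_cases hseg : ∃ t : ℝ, |t| ≤ 1 ∧ wm N z = (t : ℂ) * Complex.I
  · obtain ⟨t, ht, hw⟩ := hseg
    have hA : AA (wm N z) = 0 := by rw [hw]; exact AA_seg ht
    obtain ⟨ρ₁, hρ₁, h1⟩ := harm_ball (HHf_harm hN ε hz)
    obtain ⟨ρ₂, hρ₂, h2⟩ := Metric.isOpen_iff.1 isOpen_RH z hz
    have hcont : ContinuousOn (HHf N ε) RH := fun y hy =>
      (HHf_harm hN ε hy).1.continuousAt.continuousWithinAt
    refine ⟨min ρ₁ ρ₂, lt_min hρ₁ hρ₂, fun ρ h0 hlt => ?_⟩
    have hsub : Metric.sphere z |ρ| ⊆ RH := by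
      intro y hy
      refine h2 ?_
      rw [abs_of_pos h0] at hy
      rw [Metric.mem_ball, Metric.mem_sphere.1 hy]
      exact hlt.trans_le (min_le_right _ _)
    have hi1 : CircleIntegrable (vv N ε) z ρ := ((vv_cont hN ε).mono hsub).circleIntegrable'
    have hi2 : CircleIntegrable (HHf N ε) z ρ := (hcont.mono hsub).circleIntegrable'
    have hle : Real.circleAverage (vv N ε) z ρ ≤ Real.circleAverage (HHf N ε) z ρ := by
      refine Real.circleAverage_mono hi1 hi2 (fun x _ => ?_)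
      rw [vv_eq]
      have := mul_nonneg qq_pos.le (AA_nonneg (wm N x))
      linarith
    rw [h1 ρ h0 (hlt.trans_le (min_le_left _ _))] at hle
    rw [vv_eq N ε z, hA]
    linarith
  · have hm : InnerProductSpace.HarmonicAt (fun z' => AA (wm N z')) z :=
      AA_comp_harm (wm_analytic N hz) hseg
    have hv : InnerProductSpace.HarmonicAt (vv N ε) z := by
      have h4 : InnerProductSpace.HarmonicAt (HHf N ε - qq • (fun z' => AA (wm N z'))) z :=
        (HHf_harm hN ε hz).sub hm.const_smul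
      have he : vv N ε = HHf N ε - qq • (fun z' => AA (wm N z')) := by
        funext z'
        simp only [Pi.sub_apply, Pi.smul_apply, smul_eq_mul]
        exact vv_eq N ε z'
      rw [he]
      exact h4
    obtain ⟨ρ₁, hρ₁, h1⟩ := harm_ball hv
    exact ⟨ρ₁, hρ₁, fun ρ h0 h => (h1 ρ h0 h).le⟩

theorem vv_pos {ε : ℝ} (hε : 0 < ε) :
    ∃ N₀ : ℝ, 0 < N₀ ∧ ∀ N : ℝ, N₀ ≤ N → ∀ z ∈ RH, 0 < vv N ε z := by
  obtain ⟨Y, hY, hbig⟩ := big (κ := ε / 2) (by linarith)
  have hpi := Real.pi_pos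
  have hVi := Vi_pos
  refine ⟨Vi * Y / (Real.pi * ε) + 1, by positivity, fun N hN z hz => ?_⟩
  have hNpos : 0 < N := lt_of_lt_of_le (by positivity) hN
  have harg := abs_lt.1 (arg_RH hz)
  have hS := SS_re_pos hNpos hz
  have ha0 : 0 < Real.pi / 2 - Complex.arg z := by linarith [harg.2]
  have ha1 : Real.pi / 2 - Complex.arg z < Real.pi := by linarith [harg.1]
  have hvv : vv N ε z = (1 - omI (SS N z) + PPl (SS N z))
      - Vi / Real.pi * (Real.pi / 2 - Complex.arg z) + ε := rfl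
  have hVp : 0 < Vi / Real.pi := by positivity
  rw [hvv]
  by_cases hc : Y ≤ (SS N z).re
  · have h1 := hbig _ hc
    have h2 : Vi / Real.pi * (Real.pi / 2 - Complex.arg z) ≤ Vi := by
      calc Vi / Real.pi * (Real.pi / 2 - Complex.arg z) ≤ Vi / Real.pi * Real.pi :=
            mul_le_mul_of_nonneg_left ha1.le hVp.le
        _ = Vi := by field_simp
    linarith
  · push Not at hc
    rw [SS_re] at hc
    have h1 := omI_lt_one hS
    have h2 := PPl_nonneg hS
    have h3 : Real.pi / 2 - Complex.arg z < Y / N := by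
      rw [lt_div_iff₀ hNpos]
      linarith
    have h4 : Vi / Real.pi * (Real.pi / 2 - Complex.arg z) < Vi / Real.pi * (Y / N) :=
      mul_lt_mul_of_pos_left h3 hVp
    have h5 : Vi / Real.pi * (Y / N) ≤ ε := by
      have h6 : Vi * Y / (Real.pi * ε) ≤ N := by linarith
      rw [div_le_iff₀ (by positivity)] at h6
      have h7 : Vi / Real.pi * (Y / N) = Vi * Y / (Real.pi * N) := by
        field_simp
      rw [h7, div_le_iff₀ (by positivity)]
      linarith
    linarith

private theorem arg_polar {r θ : ℝ} (hr : 0 < r) (hθ : θ ∈ Ioo (-(Real.pi / 2)) (Real.pi / 2)) :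
    Complex.arg ((r : ℂ) * Complex.exp ((θ : ℂ) * Complex.I)) = θ := by
  have hpi := Real.pi_pos
  rw [Complex.arg_real_mul _ hr, Complex.exp_mul_I]
  exact Complex.arg_cos_add_sin_mul_I ⟨by linarith [hθ.1], by linarith [hθ.2]⟩

private theorem norm_polar {r θ : ℝ} (hr : 0 < r) :
    ‖(r : ℂ) * Complex.exp ((θ : ℂ) * Complex.I)‖ = r := by
  rw [norm_mul, Complex.norm_exp_ofReal_mul_I, mul_one, Complex.norm_real, Real.norm_of_nonneg hr.le]

theorem vv_circ {ε : ℝ} (hε : 0 < ε) :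
    ∃ N₀ : ℝ, 0 < N₀ ∧ ∀ N : ℝ, N₀ ≤ N → ∀ r : ℝ, 0 < r → ∀ η : ℝ, 0 < η →
      ∃ θ ∈ Ioo (-(Real.pi / 2)) (Real.pi / 2),
        1 - η < vv N ε ((r : ℂ) * Complex.exp ((θ : ℂ) * Complex.I)) := by
  have hpi := Real.pi_pos
  have hVi := Vi_pos
  have hh0 := hh_pos
  have hVp : 0 < Vi / Real.pi := by positivity
  refine ⟨Vi * hh / (Real.pi * ε) + hh / Real.pi + 1, by positivity, fun N hN r hr η hη => ?_⟩
  have hA1 : 0 < Vi * hh / (Real.pi * ε) := by positivity
  have hA2 : 0 < hh / Real.pi := by positivity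
  have hNpos : 0 < N := by linarith
  have hNh : hh / Real.pi < N := by linarith
  have hNe : Vi * hh / (Real.pi * ε) ≤ N := by linarith
  -- the value at the angle `π / 2 - y / N`
  have hval : ∀ y : ℝ, 0 < y → y < N * Real.pi →
      (Real.pi / 2 - y / N) ∈ Ioo (-(Real.pi / 2)) (Real.pi / 2) ∧
      SS N ((r : ℂ) * Complex.exp (((Real.pi / 2 - y / N : ℝ) : ℂ) * Complex.I)) =
        (y : ℂ) + ((N * Real.log r : ℝ) : ℂ) * Complex.I ∧
      vv N ε ((r : ℂ) * Complex.exp (((Real.pi / 2 - y / N : ℝ) : ℂ) * Complex.I)) =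
        1 - omI ((y : ℂ) + ((N * Real.log r : ℝ) : ℂ) * Complex.I) +
          PPl ((y : ℂ) + ((N * Real.log r : ℝ) : ℂ) * Complex.I) - Vi / Real.pi * (y / N) + ε := by
    intro y hy0 hy1
    have hyN : 0 < y / N := div_pos hy0 hNpos
    have hyN1 : y / N < Real.pi := by
      rw [div_lt_iff₀ hNpos]; linarith
    have hmem : (Real.pi / 2 - y / N) ∈ Ioo (-(Real.pi / 2)) (Real.pi / 2) :=
      ⟨by linarith, by linarith⟩
    have harg := arg_polar hr hmem
    have hnorm := norm_polar (r := r) (θ := Real.pi / 2 - y / N) hr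
    have hSS : SS N ((r : ℂ) * Complex.exp (((Real.pi / 2 - y / N : ℝ) : ℂ) * Complex.I)) =
        (y : ℂ) + ((N * Real.log r : ℝ) : ℂ) * Complex.I := by
      apply Complex.ext
      · rw [SS_re, harg]
        have : N * (Real.pi / 2 - (Real.pi / 2 - y / N)) = y := by
          field_simp
          ring
        rw [this]
        simp
      · rw [SS_im, hnorm]
        simp
    refine ⟨hmem, hSS, ?_⟩
    rw [vv, hSS, harg]
    ring
  by_cases hc : |Real.sin (N * Real.log r / 2)| ≤ s0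
  · have hlt : hh < N * Real.pi := by
      rw [div_lt_iff₀ hpi] at hNh
      exact hNh
    obtain ⟨hmem, _, hv⟩ := hval hh hh0 hlt
    refine ⟨_, hmem, ?_⟩
    rw [hv]
    have hre : ((hh : ℂ) + ((N * Real.log r : ℝ) : ℂ) * Complex.I).re = hh := by simp
    have him : ((hh : ℂ) + ((N * Real.log r : ℝ) : ℂ) * Complex.I).im = N * Real.log r := by simp
    have h1 := PPl_plate hre (by rw [him]; exact hc)
    have h5 : Vi / Real.pi * (hh / N) ≤ ε := by
      rw [div_le_iff₀ (by positivity)] at hNe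
      have h7 : Vi / Real.pi * (hh / N) = Vi * hh / (Real.pi * N) := by
        field_simp
      rw [h7, div_le_iff₀ (by positivity)]
      linarith
    linarith
  · push Not at hc
    have hs0 := s0_pos
    have hcos : Real.sqrt 2 * Real.cos (N * Real.log r) < 1 := by
      have h1 : Real.cos (N * Real.log r) = 1 - 2 * Real.sin (N * Real.log r / 2) ^ 2 := by
        have h2 : N * Real.log r = 2 * (N * Real.log r / 2) := by ring
        conv_lhs => rw [h2]
        rw [Real.cos_two_mul, Real.cos_sq']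
        ring
      have h3 : s0 ^ 2 < Real.sin (N * Real.log r / 2) ^ 2 := by
        rw [← sq_abs (Real.sin _)]
        exact pow_lt_pow_left₀ hc hs0.le (by norm_num)
      have h4 := two_s0_sq
      have h5 : Real.cos (N * Real.log r) < Real.sqrt 2 / 2 := by
        rw [h1]; linarith
      have h6 : (0 : ℝ) < Real.sqrt 2 := by positivity
      have h7 : Real.sqrt 2 * Real.sqrt 2 = 2 := Real.mul_self_sqrt (by norm_num)
      nlinarith
    have ht := omI_bdry hcos
    have hev : ∀ᶠ y : ℝ in nhdsWithin 0 (Ioi 0),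
        omI ((y : ℂ) + ((N * Real.log r : ℝ) : ℂ) * Complex.I) < η / 2 :=
      ht.eventually (gt_mem_nhds (by linarith))
    have hev2 : ∀ᶠ y : ℝ in nhdsWithin 0 (Ioi 0), y < min (N * Real.pi) (N * Real.pi * ε / Vi) := by
      refine nhdsWithin_le_nhds (gt_mem_nhds ?_)
      exact lt_min (by positivity) (by positivity)
    have hev3 : ∀ᶠ y : ℝ in nhdsWithin 0 (Ioi 0), 0 < y := self_mem_nhdsWithin
    obtain ⟨y, hy1, hy2, hy3⟩ := (hev.and (hev2.and hev3)).exists
    obtain ⟨hmem, _, hv⟩ := hval y hy3 (hy2.trans_le (min_le_left _ _))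
    refine ⟨_, hmem, ?_⟩
    rw [hv]
    have hP : 0 ≤ PPl ((y : ℂ) + ((N * Real.log r : ℝ) : ℂ) * Complex.I) :=
      PPl_nonneg (by simpa using hy3)
    have h5 : Vi / Real.pi * (y / N) ≤ ε := by
      have h8 : y < N * Real.pi * ε / Vi := hy2.trans_le (min_le_right _ _)
      rw [lt_div_iff₀ hVi] at h8
      have h7 : Vi / Real.pi * (y / N) = Vi * y / (Real.pi * N) := by
        field_simp
      rw [h7, div_le_iff₀ (by positivity)]
      nlinarith
    linarith

theorem vv_one (ε : ℝ) :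
    Filter.Tendsto (fun N : ℝ => vv N ε 1) Filter.atTop (nhds (Vi / 2 + ε)) := by
  have hpi := Real.pi_pos
  have h1 : Filter.Tendsto (fun N : ℝ => N * (Real.pi / 2)) Filter.atTop Filter.atTop :=
    Filter.Tendsto.atTop_mul_const (by positivity) Filter.tendsto_id
  have h2 := axis.comp h1
  have hS : ∀ N : ℝ, SS N 1 = ((N * (Real.pi / 2) : ℝ) : ℂ) := by
    intro N
    apply Complex.ext
    · rw [SS_re]; simp
    · rw [SS_im]; simp
  have he : ∀ N : ℝ, vv N ε 1 =
      ((fun y : ℝ => 1 - omI (y : ℂ) + PPl (y : ℂ)) ∘ fun N : ℝ => N * (Real.pi / 2)) N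
        + (- Vi / 2 + ε) := by
    intro N
    show 1 - omI (SS N 1) + PPl (SS N 1) - Vi / Real.pi * (Real.pi / 2 - Complex.arg 1) + ε = _
    rw [hS, Complex.arg_one]
    simp only [Function.comp_apply]
    field_simp
    ring
  have h3 := h2.add_const (- Vi / 2 + ε)
  have h4 : Vi + (- Vi / 2 + ε) = Vi / 2 + ε := by ring
  rw [h4] at h3
  exact h3.congr (fun N => (he N).symm)

end HallHP

end
end

section

/-!
# UMain : the upper bound

* `classS_of`: `u z = -(v z)` as an extended real. `usc`: continuity. `submean` for `ρ < z.re`: the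
  positive part vanishes on the circle, `(-u).toENNReal = ENNReal.ofReal v`, and
  `∫⁻ ofReal v = ofReal ∫ v` (`v` continuous and positive on the circle).
* `upper`: take `ε = (479/1000 - Vi/2)/2 > 0` and `N` large (`vv_pos`, `vv_circ`, `vv_one`).
-/

noncomputable section

open MeasureTheory Set Metric

namespace HallHP

private theorem circleMap_mem_RH {z : ℂ} {ρ : ℝ} (hρ : 0 < ρ) (hρz : ρ < z.re) (φ : ℝ) :
    circleMap z ρ φ ∈ RH := by
  have h1 : |(circleMap z ρ φ - z).re| ≤ ρ := by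
    calc |(circleMap z ρ φ - z).re| ≤ ‖circleMap z ρ φ - z‖ := Complex.abs_re_le_norm _
      _ = |ρ| := by
        simp [circleMap]
      _ = ρ := abs_of_pos hρ
  have h2 : -ρ ≤ (circleMap z ρ φ - z).re := (abs_le.1 h1).1
  show 0 < (circleMap z ρ φ).re
  rw [Complex.sub_re] at h2
  linarith

private theorem circMean_eq {v : ℂ → ℝ} (hc : ContinuousOn v RH) (hpos : ∀ z ∈ RH, 0 < v z)
    {z : ℂ} {ρ : ℝ} (hρ : 0 < ρ) (hρz : ρ < z.re) :
    circMean (fun z => ((-(v z) : ℝ) : EReal)) z ρ = ((-(Real.circleAverage v z ρ) : ℝ) : EReal) := by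
  have hmem : ∀ φ : ℝ, circleMap z ρ φ ∈ RH := circleMap_mem_RH hρ hρz
  have h1 : ∀ φ : ℝ, (((-(v (circleMap z ρ φ)) : ℝ) : EReal)).toENNReal = 0 := by
    intro φ
    rw [EReal.toENNReal_eq_zero_iff]
    have := hpos _ (hmem φ)
    exact_mod_cast (by linarith : -(v (circleMap z ρ φ)) ≤ 0)
  have h2 : ∀ φ : ℝ, (-((-(v (circleMap z ρ φ)) : ℝ) : EReal)).toENNReal =
      ENNReal.ofReal (v (circleMap z ρ φ)) := by
    intro φ
    rw [← EReal.coe_neg, neg_neg, EReal.toENNReal_of_ne_top (EReal.coe_ne_top _), EReal.toReal_coe]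
  have hcont : Continuous (fun φ : ℝ => v (circleMap z ρ φ)) :=
    hc.comp_continuous (continuous_circleMap z ρ) hmem
  have hint : Integrable (fun φ : ℝ => v (circleMap z ρ φ))
      (volume.restrict (Ioc (0 : ℝ) (2 * Real.pi))) :=
    (hcont.integrableOn_Icc (a := 0) (b := 2 * Real.pi)).mono_set Ioc_subset_Icc_self
  have h3 : ∫⁻ φ in Ioc (0 : ℝ) (2 * Real.pi), ENNReal.ofReal (v (circleMap z ρ φ)) =
      ENNReal.ofReal (∫ φ in Ioc (0 : ℝ) (2 * Real.pi), v (circleMap z ρ φ)) := by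
    rw [ofReal_integral_eq_lintegral_ofReal hint]
    exact Filter.Eventually.of_forall (fun φ => (hpos _ (hmem φ)).le)
  have hpi : (0 : ℝ) < 2 * Real.pi := Real.two_pi_pos
  have hI : 0 ≤ ∫ φ in Ioc (0 : ℝ) (2 * Real.pi), v (circleMap z ρ φ) :=
    integral_nonneg (fun φ => (hpos _ (hmem φ)).le)
  have h4 : Real.circleAverage v z ρ =
      (2 * Real.pi)⁻¹ * ∫ φ in Ioc (0 : ℝ) (2 * Real.pi), v (circleMap z ρ φ) := by
    rw [Real.circleAverage_def, intervalIntegral.integral_of_le hpi.le, smul_eq_mul]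
  unfold circMean
  simp only [h1, h2, h3]
  rw [lintegral_zero, mul_zero, ← ENNReal.ofReal_inv_of_pos hpi,
    ← ENNReal.ofReal_mul (inv_nonneg.2 hpi.le), ← h4, EReal.coe_ennreal_ofReal]
  have h5 : 0 ≤ Real.circleAverage v z ρ := by
    rw [h4]; exact mul_nonneg (inv_nonneg.2 hpi.le) hI
  rw [max_eq_left h5]
  simp

theorem classS_of {K : ℝ} {v : ℂ → ℝ} (hc : ContinuousOn v RH) (hpos : ∀ z ∈ RH, 0 < v z)
    (hmean : ∀ z ∈ RH, ∃ ρ₀ : ℝ, 0 < ρ₀ ∧ ∀ ρ : ℝ, 0 < ρ → ρ < ρ₀ →
      Real.circleAverage v z ρ ≤ v z)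
    (hcirc : ∀ r : ℝ, 0 < r → ∀ η : ℝ, 0 < η → ∃ θ ∈ Ioo (-(Real.pi / 2)) (Real.pi / 2),
      K - η < v ((r : ℂ) * Complex.exp ((θ : ℂ) * Complex.I))) :
    ClassS K (fun z => ((-(v z) : ℝ) : EReal)) := by
  refine ⟨⟨?_, ?_, ?_, ?_⟩, ?_, ?_⟩
  · intro z _
    exact EReal.coe_lt_top _
  · exact (continuous_coe_real_ereal.comp_continuousOn hc.neg).upperSemicontinuousOn
  · refine ⟨1, ?_, EReal.coe_ne_bot _⟩
    show (0 : ℝ) < (1 : ℂ).re
    simp
  · intro z hz
    obtain ⟨ρ₁, hρ₁, h⟩ := hmean z hz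
    have hz' : 0 < z.re := hz
    refine ⟨min ρ₁ z.re, lt_min hρ₁ hz', ?_⟩
    intro ρ hρ hlt
    rw [circMean_eq hc hpos hρ (lt_of_lt_of_le hlt (min_le_right _ _))]
    have := h ρ hρ (lt_of_lt_of_le hlt (min_le_left _ _))
    exact_mod_cast (by linarith : -(v z) ≤ -(Real.circleAverage v z ρ))
  · intro z hz
    have := hpos z hz
    exact_mod_cast (by linarith : -(v z) < 0)
  · intro r hr
    by_contra hcon
    rw [not_le] at hcon
    obtain ⟨x, hx1, hx2⟩ := EReal.lt_iff_exists_real_btwn.1 hcon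
    have hx1' : -K < x := by exact_mod_cast hx1
    obtain ⟨θ, hθ, hv⟩ := hcirc r hr (K + x) (by linarith)
    have hle := iInf_le (fun θ : Ioo (-(Real.pi / 2)) (Real.pi / 2) =>
      ((-(v ((r : ℂ) * Complex.exp (((θ : ℝ) : ℂ) * Complex.I))) : ℝ) : EReal)) ⟨θ, hθ⟩
    have h1 := lt_of_lt_of_le hx2 hle
    have h2 : x < -(v ((r : ℂ) * Complex.exp ((θ : ℂ) * Complex.I))) := by exact_mod_cast h1
    linarith

/-- **Upper bound**: a function of the class `S(1)` with `u 1 > -479/1000`. -/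
theorem hall_upper : ∃ u : ℂ → EReal, ClassS 1 u ∧ ((-(479 / 1000) : ℝ) : EReal) < u 1 := by
  have hVi := Vi_lt
  set ε : ℝ := (479 / 1000 - Vi / 2) / 2 with hε
  have hεpos : 0 < ε := by rw [hε]; linarith
  obtain ⟨N₁, hN₁, hpos⟩ := vv_pos hεpos
  obtain ⟨N₂, hN₂, hcirc⟩ := vv_circ hεpos
  have hlim := vv_one ε
  have hlt : Vi / 2 + ε < 479 / 1000 := by rw [hε]; linarith
  have hev := (hlim.eventually (gt_mem_nhds hlt)).and
    ((Filter.eventually_ge_atTop N₁).and (Filter.eventually_ge_atTop N₂))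
  obtain ⟨N, h1, h2, h3⟩ := hev.exists
  have hN : 0 < N := lt_of_lt_of_le hN₁ h2
  refine ⟨fun z => ((-(vv N ε z) : ℝ) : EReal),
    classS_of (vv_cont hN ε) (hpos N h2) (fun z hz => vv_mean hN ε hz) (hcirc N h3), ?_⟩
  exact EReal.coe_lt_coe_iff.2 (by linarith : -(479 / 1000 : ℝ) < -(vv N ε 1))

end HallHP

end
end
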