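import Mathlib
import Pool.Agent.Lib.MP_5c0a14_an.Defs

section

/-!
# VProd : the product formula `∏_{k<N} (2 cosh w - 2 cos (v - 2πk/N)) = 2 cosh (N w) - 2 cos (N v)`
-/

open Finset

namespace HallV

theorem prod_one_sub_root {N : ℕ} (hN : 0 < N) {ζ : ℂ} (hζ : IsPrimitiveRoot ζ N) (z : ℂ) :
    ∏ k ∈ range N, (1 - ζ ^ k * z) = 1 - z ^ N := by
  have h := X_pow_sub_C_eq_prod hζ hN (rfl : z ^ N = z ^ N)
  have h2 := congrArg (Polynomial.eval 1) h
  rw [Polynomial.eval_prod] at h2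
  simp only [Polynomial.eval_sub, Polynomial.eval_pow, Polynomial.eval_X, one_pow,
    Polynomial.eval_C] at h2
  exact h2.symm

theorem two_cosh_sub (w v : ℂ) : 2 * Complex.cosh w - 2 * Complex.cos v =
    Complex.exp w * ((1 - Complex.exp (-w + v * Complex.I)) *
      (1 - Complex.exp (-w - v * Complex.I))) := by
  have e1 : Complex.exp w * Complex.exp (-w) = 1 := by rw [← Complex.exp_add]; simp
  have e2 : Complex.exp (v * Complex.I) * Complex.exp (-v * Complex.I) = 1 := by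
    rw [← Complex.exp_add]; simp
  rw [Complex.cosh, Complex.cos, Complex.exp_add, sub_eq_add_neg (-w), Complex.exp_add]
  have e3 : -(v * Complex.I) = -v * Complex.I := by ring
  rw [e3]
  set A := Complex.exp w
  set B := Complex.exp (-w)
  set P := Complex.exp (v * Complex.I)
  set Q := Complex.exp (-v * Complex.I)
  have : A * ((1 - B * P) * (1 - B * Q)) = A - (A * B) * P - (A * B) * Q + (A * B) * B * (P * Q) := by
    ring
  rw [this, e1, e2]
  ring

theorem prod_formula {N : ℕ} (hN : 0 < N) (w v : ℂ) :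
    ∏ k ∈ range N, (2 * Complex.cosh w - 2 * Complex.cos (v - 2 * Real.pi * k / N)) =
      2 * Complex.cosh (N * w) - 2 * Complex.cos (N * v) := by
  have hN0 : (N : ℂ) ≠ 0 := by exact_mod_cast hN.ne'
  set ζ : ℂ := Complex.exp (2 * Real.pi * Complex.I / N) with hζd
  have hζ : IsPrimitiveRoot ζ N := Complex.isPrimitiveRoot_exp N hN.ne'
  have hζ' : IsPrimitiveRoot ζ⁻¹ N := hζ.inv
  have hterm : ∀ k ∈ range N, (2 * Complex.cosh w - 2 * Complex.cos (v - 2 * Real.pi * k / N)) =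
      Complex.exp w * ((1 - ζ⁻¹ ^ k * Complex.exp (-w + v * Complex.I)) *
        (1 - ζ ^ k * Complex.exp (-w - v * Complex.I))) := by
    intro k _
    rw [two_cosh_sub]
    congr 2
    · congr 1
      rw [hζd, ← Complex.exp_neg, ← Complex.exp_nat_mul, ← Complex.exp_add]
      congr 1
      field_simp
      ring
    · congr 1
      rw [hζd, ← Complex.exp_nat_mul, ← Complex.exp_add]
      congr 1
      field_simp
      ring
  rw [prod_congr rfl hterm, prod_mul_distrib, prod_mul_distrib, prod_one_sub_root hN hζ',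
    prod_one_sub_root hN hζ, prod_const, card_range, two_cosh_sub, ← Complex.exp_nat_mul,
    ← Complex.exp_nat_mul, ← Complex.exp_nat_mul]
  congr 3
  · congr 1; ring_nf
  · congr 2; ring

theorem prod_formula_cosh {N : ℕ} (hN : 0 < N) (u v : ℝ) :
    ∏ k ∈ range N, (2 * Real.cosh u - 2 * Real.cos (v - 2 * Real.pi * k / N)) =
      2 * Real.cosh (N * u) - 2 * Real.cos (N * v) := by
  have h := prod_formula hN (u : ℂ) (v : ℂ)
  apply Complex.ofReal_injective
  push_cast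
  exact h

theorem prod_formula_cos {N : ℕ} (hN : 0 < N) (u v : ℝ) :
    ∏ k ∈ range N, (2 * Real.cos u - 2 * Real.cos (v - 2 * Real.pi * k / N)) =
      2 * Real.cos (N * u) - 2 * Real.cos (N * v) := by
  have h := prod_formula hN (u * Complex.I) (v : ℂ)
  apply Complex.ofReal_injective
  push_cast
  rw [Complex.cosh_mul_I, ← mul_assoc, Complex.cosh_mul_I] at h
  exact h

end HallV
end

section

/-!
# VKer : the Green function of the half-plane, made `2π`-periodic in the vertical direction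

`gg x y ξ η` is the potential at `x + i y` of the points `ξ + i (η + 2π m)`, `m ∈ ℤ`.
-/

open Real Finset Filter Topology

namespace HallV

/-- The `2π`-periodic Green function of the right half-plane. -/
noncomputable def gg (x y ξ η : ℝ) : ℝ :=
  1 / 2 * (log (cosh (x + ξ) - cos (y - η)) - log (cosh (x - ξ) - cos (y - η)))

theorem one_add_sq_le_cosh (x : ℝ) : 1 + x ^ 2 / 2 ≤ cosh x := by
  have h1 : cosh x = 1 + 2 * sinh (x / 2) ^ 2 := by
    have h2 := Real.cosh_two_mul (x / 2)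
    have h3 := Real.cosh_sq (x / 2)
    rw [show 2 * (x / 2) = x by ring] at h2
    rw [h2, h3]; ring
  have h4 : (x / 2) ^ 2 ≤ sinh (x / 2) ^ 2 := by
    rcases le_total 0 x with hx | hx
    · have := Real.self_le_sinh_iff.2 (show 0 ≤ x / 2 by linarith)
      nlinarith
    · have := Real.self_le_sinh_iff.2 (show 0 ≤ -(x / 2) by linarith)
      rw [Real.sinh_neg] at this
      nlinarith
  rw [h1]; nlinarith

theorem cosh_sub_lt {x ξ : ℝ} (hx : 0 < x) (hξ : 0 < ξ) : cosh (x - ξ) < cosh (x + ξ) := by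
  rw [Real.cosh_sub, Real.cosh_add]
  have h1 := Real.sinh_pos_iff.2 hx
  have h2 := Real.sinh_pos_iff.2 hξ
  nlinarith [mul_pos h1 h2]

theorem D_pos_of_ne {x ξ : ℝ} (h : x ≠ ξ) (t : ℝ) : 0 < cosh (x - ξ) - cos t := by
  have h1 := one_add_sq_le_cosh (x - ξ)
  have h2 := Real.cos_le_one t
  have h3 : 0 < (x - ξ) ^ 2 := by
    have : x - ξ ≠ 0 := sub_ne_zero.2 h
    positivity
  linarith

theorem E_pos {x ξ : ℝ} (hx : 0 < x) (hξ : 0 < ξ) (t : ℝ) : 0 < cosh (x + ξ) - cos t := by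
  have h1 := one_add_sq_le_cosh (x + ξ)
  have h2 := Real.cos_le_one t
  have h3 : 0 < (x + ξ) ^ 2 := by positivity
  linarith

theorem gg_nonneg {x y ξ η : ℝ} (hx : 0 < x) (hξ : 0 < ξ)
    (hD : 0 < cosh (x - ξ) - cos (y - η)) : 0 ≤ gg x y ξ η := by
  have h1 := cosh_sub_lt hx hξ
  have h2 : log (cosh (x - ξ) - cos (y - η)) ≤ log (cosh (x + ξ) - cos (y - η)) :=
    Real.log_le_log hD (by linarith)
  unfold gg
  linarith

theorem gg_le {x y ξ η : ℝ} (hx : 0 < x) (hξ : 0 < ξ)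
    (hD : 0 < cosh (x - ξ) - cos (y - η)) :
    gg x y ξ η ≤ sinh x * sinh ξ / (cosh (x - ξ) - cos (y - η)) := by
  have hE := E_pos hx hξ (y - η)
  have h1 : log (cosh (x + ξ) - cos (y - η)) - log (cosh (x - ξ) - cos (y - η)) ≤
      2 * (sinh x * sinh ξ) / (cosh (x - ξ) - cos (y - η)) := by
    rw [← Real.log_div hE.ne' hD.ne']
    have h2 := Real.log_le_sub_one_of_pos (div_pos hE hD)
    have h3 : (cosh (x + ξ) - cos (y - η)) / (cosh (x - ξ) - cos (y - η)) - 1 =
        2 * (sinh x * sinh ξ) / (cosh (x - ξ) - cos (y - η)) := by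
      rw [div_sub_one hD.ne', Real.cosh_add, Real.cosh_sub]
      congr 1
      ring
    rw [← h3]; exact h2
  unfold gg
  have h4 : 2 * (sinh x * sinh ξ) / (cosh (x - ξ) - cos (y - η)) =
      2 * (sinh x * sinh ξ / (cosh (x - ξ) - cos (y - η))) := by ring
  rw [h4] at h1
  linarith

theorem log_prod_formula {N : ℕ} (hN : 0 < N) (u v : ℝ)
    (h : 0 < cosh (N * u) - cos (N * v)) :
    (∀ k ∈ range N, 0 < cosh u - cos (v - 2 * π * k / N)) ∧
    ∑ k ∈ range N, log (cosh u - cos (v - 2 * π * k / N)) =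
      log (cosh (N * u) - cos (N * v)) + log 2 - N * log 2 := by
  have hp := prod_formula_cosh hN u v
  have hpos : 0 < 2 * cosh (N * u) - 2 * cos (N * v) := by linarith
  have hne : ∀ k ∈ range N, 2 * cosh u - 2 * cos (v - 2 * π * k / N) ≠ 0 := by
    rw [← prod_ne_zero_iff, hp]
    exact hpos.ne'
  have hnn : ∀ k ∈ range N, 0 < cosh u - cos (v - 2 * π * k / N) := by
    intro k hk
    have h1 := Real.one_le_cosh u
    have h2 := Real.cos_le_one (v - 2 * π * k / N)
    have h3 := hne k hk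
    have h4 : 0 ≤ cosh u - cos (v - 2 * π * k / N) := by linarith
    rcases h4.lt_or_eq with h5 | h5
    · exact h5
    · exact absurd (by linarith) h3
  refine ⟨hnn, ?_⟩
  have hl := congrArg log hp
  rw [Real.log_prod hne] at hl
  have h6 : ∀ k ∈ range N, log (2 * cosh u - 2 * cos (v - 2 * π * k / N)) =
      log 2 + log (cosh u - cos (v - 2 * π * k / N)) := by
    intro k hk
    rw [← mul_sub, Real.log_mul (by norm_num) (hnn k hk).ne']
  rw [sum_congr rfl h6, sum_add_distrib, sum_const, card_range, nsmul_eq_mul, ← mul_sub,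
    Real.log_mul (by norm_num) h.ne'] at hl
  linarith

theorem gg_nfold {N : ℕ} (hN : 0 < N) {x y ξ η : ℝ} (hx : 0 < x) (hξ : 0 < ξ)
    (hD : 0 < cosh (N * x - ξ) - cos (N * y - η)) :
    (∀ k ∈ range N, 0 < cosh (x - ξ / N) - cos (y - (η + 2 * π * k) / N)) ∧
    ∑ k ∈ range N, gg x y (ξ / N) ((η + 2 * π * k) / N) = gg (N * x) (N * y) ξ η := by
  have hN0 : (0 : ℝ) < N := by exact_mod_cast hN
  have e1 : ∀ k : ℕ, y - (η + 2 * π * k) / N = (y - η / N) - 2 * π * k / N := by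
    intro k; field_simp; ring
  have e2 : (N : ℝ) * (x - ξ / N) = N * x - ξ := by field_simp
  have e3 : (N : ℝ) * (x + ξ / N) = N * x + ξ := by field_simp
  have e4 : (N : ℝ) * (y - η / N) = N * y - η := by field_simp
  have hDD := log_prod_formula hN (x - ξ / N) (y - η / N) (by rw [e2, e4]; exact hD)
  have hEE := log_prod_formula hN (x + ξ / N) (y - η / N) (by
    rw [e3, e4]; exact E_pos (by positivity) hξ _)
  refine ⟨fun k hk => by rw [e1]; exact hDD.1 k hk, ?_⟩
  unfold gg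
  simp_rw [e1]
  rw [← mul_sum, sum_sub_distrib, hDD.2, hEE.2, e2, e3, e4]
  ring

theorem tendsto_low {ξ : ℝ} :
    Tendsto (fun x : ℝ => 1 / 2 * (log (cosh (x + ξ) - 1) - log (cosh (x - ξ) + 1))) atTop
      (𝓝 ξ) := by
  have hexp : Tendsto (fun x : ℝ => exp (-x)) atTop (𝓝 0) := Real.tendsto_exp_neg_atTop_nhds_zero
  have h1 : Tendsto (fun x : ℝ => exp ξ / 2 + exp (-ξ) / 2 * exp (-x) ^ 2 - exp (-x)) atTop
      (𝓝 (exp ξ / 2 + exp (-ξ) / 2 * 0 ^ 2 - 0)) :=
    ((tendsto_const_nhds.add (tendsto_const_nhds.mul (hexp.pow 2))).sub hexp)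
  have h2 : Tendsto (fun x : ℝ => exp (-ξ) / 2 + exp ξ / 2 * exp (-x) ^ 2 + exp (-x)) atTop
      (𝓝 (exp (-ξ) / 2 + exp ξ / 2 * 0 ^ 2 + 0)) :=
    ((tendsto_const_nhds.add (tendsto_const_nhds.mul (hexp.pow 2))).add hexp)
  have h3 := (h1.log (by
    rw [show exp ξ / 2 + exp (-ξ) / 2 * 0 ^ 2 - 0 = exp ξ / 2 by ring]
    positivity)).sub (h2.log (by positivity))
  have h4 : log (exp ξ / 2 + exp (-ξ) / 2 * 0 ^ 2 - 0) - log (exp (-ξ) / 2 + exp ξ / 2 * 0 ^ 2 + 0)
      = 2 * ξ := by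
    have e1 : exp ξ / 2 + exp (-ξ) / 2 * 0 ^ 2 - 0 = exp ξ / 2 := by ring
    have e2 : exp (-ξ) / 2 + exp ξ / 2 * 0 ^ 2 + 0 = exp (-ξ) / 2 := by ring
    rw [e1, e2, Real.log_div (exp_pos _).ne' (by norm_num),
      Real.log_div (exp_pos _).ne' (by norm_num), Real.log_exp, Real.log_exp]
    ring
  rw [h4] at h3
  have h5 := h3.const_mul (1 / 2)
  have h6 : 1 / 2 * (2 * ξ) = ξ := by ring
  rw [h6] at h5
  refine h5.congr' ?_
  have hev1 : ∀ᶠ x : ℝ in atTop, 0 < exp ξ / 2 + exp (-ξ) / 2 * exp (-x) ^ 2 - exp (-x) :=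
    h1.eventually (lt_mem_nhds (by ring_nf; positivity))
  filter_upwards [hev1] with x hx
  have k1 : cosh (x + ξ) - 1 = exp x * (exp ξ / 2 + exp (-ξ) / 2 * exp (-x) ^ 2 - exp (-x)) := by
    rw [Real.cosh_eq, Real.exp_add, neg_add, Real.exp_add, Real.exp_neg x, Real.exp_neg ξ]
    have := exp_pos x
    have := exp_pos ξ
    field_simp
  have k2 : cosh (x - ξ) + 1 = exp x * (exp (-ξ) / 2 + exp ξ / 2 * exp (-x) ^ 2 + exp (-x)) := by
    rw [Real.cosh_eq, neg_sub, Real.exp_sub, Real.exp_sub, Real.exp_neg x, Real.exp_neg ξ]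
    have := exp_pos x
    have := exp_pos ξ
    field_simp
  rw [k1, k2, Real.log_mul (exp_pos _).ne' hx.ne', Real.log_mul (exp_pos _).ne' (by positivity)]
  ring

theorem tendsto_high {ξ : ℝ} :
    Tendsto (fun x : ℝ => 1 / 2 * (log (cosh (x + ξ) + 1) - log (cosh (x - ξ) - 1))) atTop
      (𝓝 ξ) := by
  have h := (tendsto_low (ξ := -ξ)).neg
  rw [neg_neg] at h
  refine h.congr fun x => ?_
  rw [sub_neg_eq_add, ← sub_eq_add_neg]
  ring

theorem gg_lim {ξ : ℝ} (hξ : 0 < ξ) {ε : ℝ} (hε : 0 < ε) :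
    ∃ Y : ℝ, 0 < Y ∧ ∀ x : ℝ, Y ≤ x → ∀ y η : ℝ, ξ - ε ≤ gg x y ξ η ∧ gg x y ξ η ≤ ξ + ε := by
  have h1 := (tendsto_low (ξ := ξ)).eventually (lt_mem_nhds (show ξ - ε < ξ by linarith))
  have h2 := (tendsto_high (ξ := ξ)).eventually (gt_mem_nhds (show ξ < ξ + ε by linarith))
  obtain ⟨Y, hY⟩ := Filter.eventually_atTop.1 (h1.and h2)
  refine ⟨max Y (ξ + 1), lt_max_of_lt_right (by linarith), fun x hx y η => ?_⟩
  obtain ⟨a1, a2⟩ := hY x (le_trans (le_max_left _ _) hx)
  have hxξ : ξ + 1 ≤ x := le_trans (le_max_right _ _) hx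
  have c1 := Real.cos_le_one (y - η)
  have c2 := Real.neg_one_le_cos (y - η)
  have b1 := one_add_sq_le_cosh (x - ξ)
  have b2 := one_add_sq_le_cosh (x + ξ)
  have b3 : 1 ≤ (x - ξ) ^ 2 := by nlinarith
  have b4 : 1 ≤ (x + ξ) ^ 2 := by nlinarith
  constructor
  · have l1 : log (cosh (x + ξ) - 1) ≤ log (cosh (x + ξ) - cos (y - η)) :=
      Real.log_le_log (by linarith) (by linarith)
    have l2 : log (cosh (x - ξ) - cos (y - η)) ≤ log (cosh (x - ξ) + 1) :=
      Real.log_le_log (by linarith) (by linarith)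
    unfold gg
    linarith
  · have l1 : log (cosh (x + ξ) - cos (y - η)) ≤ log (cosh (x + ξ) + 1) :=
      Real.log_le_log (by linarith) (by linarith)
    have l2 : log (cosh (x - ξ) - 1) ≤ log (cosh (x - ξ) - cos (y - η)) :=
      Real.log_le_log (by linarith) (by linarith)
    unfold gg
    linarith

end HallV
end

section

/-!
# VHarm : the potentials in the half-plane coordinate `S = N (π/2 + i log z)`
-/

open Real Finset Filter Topology Set Metric MeasureTheory

namespace HallV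

/-- Potential of the charges `a j` at the points `ξ j + i η j` (mod `2π i`). -/
noncomputable def pot {ι : Type} [Fintype ι] (a ξ η : ι → ℝ) (x y : ℝ) : ℝ :=
  ∑ j, a j * gg x y (ξ j) (η j)

/-- A configuration of charges whose potential is at least `1` somewhere on each horizontal
line. -/
structure Conf {ι : Type} [Fintype ι] (a ξ η : ι → ℝ) (X : ℝ) : Prop where
  a_pos : ∀ j, 0 < a j
  xi_pos : ∀ j, 0 < ξ j
  X_pos : 0 < X
  line : ∀ y : ℝ, ∃ x : ℝ, 0 < x ∧ x ≤ X ∧ (∀ j, 0 < cosh (x - ξ j) - cos (y - η j)) ∧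
    1 ≤ pot a ξ η x y

/-- `c` is the value at infinity of a configuration. -/
def Adm (c : ℝ) : Prop :=
  ∃ (ι : Type) (_ : Fintype ι) (a ξ η : ι → ℝ) (X : ℝ), Conf a ξ η X ∧ ∑ j, a j * ξ j = c

/-- The coordinate `S`. -/
noncomputable def sc (N : ℝ) (z : ℂ) : ℂ := (N : ℂ) * ((π / 2 : ℝ) + Complex.I * Complex.log z)

theorem sc_re (N : ℝ) (z : ℂ) : (sc N z).re = N * (π / 2 - Complex.arg z) := by
  unfold sc
  rw [Complex.re_ofReal_mul, Complex.add_re, Complex.ofReal_re, Complex.I_mul_re, Complex.log_im]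
  ring

theorem sc_im (N : ℝ) (z : ℂ) : (sc N z).im = N * log ‖z‖ := by
  unfold sc
  rw [Complex.im_ofReal_mul, Complex.add_im, Complex.ofReal_im, Complex.I_mul_im, Complex.log_re]
  ring

theorem norm_one_sub_exp (a b : ℝ) :
    ‖(1 : ℂ) - Complex.exp (-((a : ℂ) + b * Complex.I))‖ ^ 2 = 2 * exp (-a) * (cosh a - cos b) := by
  have hre : ((1 : ℂ) - Complex.exp (-((a : ℂ) + b * Complex.I))).re = 1 - exp (-a) * cos b := by
    simp [Complex.exp_re]
  have him : ((1 : ℂ) - Complex.exp (-((a : ℂ) + b * Complex.I))).im = exp (-a) * sin b := by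
    simp [Complex.exp_im]
  rw [← Complex.normSq_eq_norm_sq, Complex.normSq_apply, hre, him, Real.cosh_eq]
  have h1 := sin_sq_add_cos_sq b
  have h2 : exp (-a) * exp a = 1 := by rw [← Real.exp_add]; simp
  have h3 : 2 * exp (-a) * ((exp a + exp (-a)) / 2 - cos b) =
      exp (-a) * exp a + exp (-a) ^ 2 - 2 * exp (-a) * cos b := by ring
  rw [h3, h2]
  have h4 : (1 - exp (-a) * cos b) * (1 - exp (-a) * cos b) + exp (-a) * sin b * (exp (-a) * sin b)
      = 1 - 2 * exp (-a) * cos b + exp (-a) ^ 2 * (sin b ^ 2 + cos b ^ 2) := by ring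
  rw [h4, h1]
  ring

theorem gg_eq_log {S σ : ℂ} (hS : 0 < S.re) (hσ : 0 < σ.re)
    (hD : 0 < cosh (S.re - σ.re) - cos (S.im - σ.im)) :
    (1 - Complex.exp (-(S + (starRingEnd ℂ) σ)) ≠ 0) ∧
    (Complex.exp (-S) - Complex.exp (-σ) ≠ 0) ∧
    gg S.re S.im σ.re σ.im = log ‖1 - Complex.exp (-(S + (starRingEnd ℂ) σ))‖ -
      log ‖Complex.exp (-S) - Complex.exp (-σ)‖ := by
  have hE := E_pos hS hσ (S.im - σ.im)
  have e1 : S + (starRingEnd ℂ) σ = ((S.re + σ.re : ℝ) : ℂ) + ((S.im - σ.im : ℝ) : ℂ) * Complex.I := by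
    apply Complex.ext <;> simp
    ring
  have n1 : ‖1 - Complex.exp (-(S + (starRingEnd ℂ) σ))‖ ^ 2 =
      2 * exp (-(S.re + σ.re)) * (cosh (S.re + σ.re) - cos (S.im - σ.im)) := by
    rw [e1]; exact norm_one_sub_exp _ _
  have e2 : Complex.exp (-S) - Complex.exp (-σ) = Complex.exp (-S) *
      (1 - Complex.exp (-(((σ.re - S.re : ℝ) : ℂ) + ((σ.im - S.im : ℝ) : ℂ) * Complex.I))) := by
    rw [mul_sub, mul_one, ← Complex.exp_add]
    congr 2
    apply Complex.ext <;> simp <;> ring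
  have n2 : ‖Complex.exp (-S) - Complex.exp (-σ)‖ ^ 2 =
      2 * exp (-(S.re + σ.re)) * (cosh (S.re - σ.re) - cos (S.im - σ.im)) := by
    rw [e2, norm_mul, mul_pow, norm_one_sub_exp, Complex.norm_exp, Complex.neg_re]
    have h1 : cosh (σ.re - S.re) = cosh (S.re - σ.re) := by rw [← Real.cosh_neg]; congr 1; ring
    have h2 : cos (σ.im - S.im) = cos (S.im - σ.im) := by rw [← Real.cos_neg]; congr 1; ring
    rw [h1, h2]
    have h3 : exp (-S.re) ^ 2 * exp (-(σ.re - S.re)) = exp (-(S.re + σ.re)) := by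
      rw [← Real.exp_nat_mul, ← Real.exp_add]
      congr 1
      push_cast; ring
    rw [← h3]
    ring
  have p1 : 0 < ‖1 - Complex.exp (-(S + (starRingEnd ℂ) σ))‖ ^ 2 := by rw [n1]; positivity
  have p2 : 0 < ‖Complex.exp (-S) - Complex.exp (-σ)‖ ^ 2 := by rw [n2]; positivity
  refine ⟨?_, ?_, ?_⟩
  · intro h
    rw [h] at p1
    simp at p1
  · intro h
    rw [h] at p2
    simp at p2
  · have l1 := congrArg log n1
    have l2 := congrArg log n2
    rw [Real.log_pow, Real.log_mul (by positivity) hE.ne'] at l1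
    rw [Real.log_pow, Real.log_mul (by positivity) hD.ne'] at l2
    push_cast at l1 l2
    unfold gg
    linarith

theorem gg_harm {g : ℂ → ℂ} {z : ℂ} (hg : AnalyticAt ℂ g z) (hz : 0 < (g z).re) {ξ η : ℝ}
    (hξ : 0 < ξ) (hD : 0 < cosh ((g z).re - ξ) - cos ((g z).im - η)) :
    InnerProductSpace.HarmonicAt (fun z' => gg (g z').re (g z').im ξ η) z := by
  set σ : ℂ := ⟨ξ, η⟩ with hσ
  have hσre : σ.re = ξ := rfl
  have hσim : σ.im = η := rfl
  have hcre : ContinuousAt (fun z' => (g z').re) z :=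
    Complex.continuous_re.continuousAt.comp hg.continuousAt
  have hcim : ContinuousAt (fun z' => (g z').im) z :=
    Complex.continuous_im.continuousAt.comp hg.continuousAt
  have hc1 : ∀ᶠ z' in 𝓝 z, 0 < (g z').re := hcre.eventually (lt_mem_nhds hz)
  have hcD : ContinuousAt (fun z' => cosh ((g z').re - ξ) - cos ((g z').im - η)) z := by
    fun_prop
  have hc2 : ∀ᶠ z' in 𝓝 z, 0 < cosh ((g z').re - ξ) - cos ((g z').im - η) :=
    hcD.eventually (lt_mem_nhds hD)
  obtain ⟨ne1, ne2, -⟩ := gg_eq_log (S := g z) (σ := σ) hz (by rw [hσre]; exact hξ)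
    (by rw [hσre, hσim]; exact hD)
  have a1 : AnalyticAt ℂ (fun z' => 1 - Complex.exp (-(g z' + (starRingEnd ℂ) σ))) z :=
    analyticAt_const.sub ((hg.add analyticAt_const).neg.cexp)
  have a2 : AnalyticAt ℂ (fun z' => Complex.exp (-(g z')) - Complex.exp (-σ)) z :=
    (hg.neg.cexp).sub analyticAt_const
  have h1 := (AnalyticAt.harmonicAt_log_norm a1 ne1).sub (AnalyticAt.harmonicAt_log_norm a2 ne2)
  refine (InnerProductSpace.harmonicAt_congr_nhds ?_).2 h1
  filter_upwards [hc1, hc2] with z' h1 h2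
  have := (gg_eq_log (S := g z') (σ := σ) h1 (by rw [hσre]; exact hξ)
    (by rw [hσre, hσim]; exact h2)).2.2
  rw [hσre, hσim] at this
  rw [this]
  rfl

theorem pot_harm {ι : Type} [Fintype ι] {a ξ η : ι → ℝ} (hξ : ∀ j, 0 < ξ j) {g : ℂ → ℂ} {z : ℂ}
    (hg : AnalyticAt ℂ g z) (hz : 0 < (g z).re)
    (hD : ∀ j, 0 < cosh ((g z).re - ξ j) - cos ((g z).im - η j)) :
    InnerProductSpace.HarmonicAt (fun z' => pot a ξ η (g z').re (g z').im) z := by
  have h : ∀ s : Finset ι, InnerProductSpace.HarmonicAt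
      (fun z' => ∑ j ∈ s, a j * gg (g z').re (g z').im (ξ j) (η j)) z := by
    classical
    intro s
    induction s using Finset.induction_on with
    | empty =>
      simp only [Finset.sum_empty]
      exact InnerProductSpace.harmonicAt_const _
    | insert j s hj ih =>
      have h1 := ((gg_harm hg hz (hξ j) (hD j)).const_smul (c := a j)).add ih
      refine (InnerProductSpace.harmonicAt_congr_nhds ?_).2 h1
      refine Eventually.of_forall fun z' => ?_
      simp only [Finset.sum_insert hj, Pi.add_apply, Pi.smul_apply, smul_eq_mul]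
  exact h Finset.univ

end HallV
end

section

/-!
# VCls : a positive continuous super-mean-value function gives a member of the class `S(K)`
(proof by helper5, copied from `UMain`)
-/

noncomputable section

open MeasureTheory Set Metric HallHP

namespace HallV

theorem circleMap_mem_RH {z : ℂ} {ρ : ℝ} (hρ : 0 < ρ) (hρz : ρ < z.re) (φ : ℝ) :
    circleMap z ρ φ ∈ RH := by
  have h1 : |(circleMap z ρ φ - z).re| ≤ ρ := by
    calc |(circleMap z ρ φ - z).re| ≤ ‖circleMap z ρ φ - z‖ := Complex.abs_re_le_norm _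
      _ = |ρ| := by
        simp [circleMap]
      _ = ρ := abs_of_pos hρ
  have h2 : -ρ ≤ (circleMap z ρ φ - z).re := (abs_le.1 h1).1
  show 0 < (circleMap z ρ φ).re
  rw [Complex.sub_re] at h2
  linarith

theorem circMean_mk {v : ℂ → ℝ} (hc : ContinuousOn v RH) (hpos : ∀ z ∈ RH, 0 < v z)
    {z : ℂ} {ρ : ℝ} (hρ : 0 < ρ) (hρz : ρ < z.re) :
    circMean (fun z => ((-(v z) : ℝ) : EReal)) z ρ = ((-(Real.circleAverage v z ρ) : ℝ) : EReal) := by
  have hmem : ∀ φ : ℝ, circleMap z ρ φ ∈ RH := circleMap_mem_RH hρ hρz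
  have h1 : ∀ φ : ℝ, (((-(v (circleMap z ρ φ)) : ℝ) : EReal)).toENNReal = 0 := by
    intro φ
    rw [EReal.toENNReal_eq_zero_iff]
    have := hpos _ (hmem φ)
    exact_mod_cast (by linarith : -(v (circleMap z ρ φ)) ≤ 0)
  have h2 : ∀ φ : ℝ, (-((-(v (circleMap z ρ φ)) : ℝ) : EReal)).toENNReal =
      ENNReal.ofReal (v (circleMap z ρ φ)) := by
    intro φ
    rw [← EReal.coe_neg, neg_neg, EReal.toENNReal_of_ne_top (EReal.coe_ne_top _), EReal.toReal_coe]
  have hcont : Continuous (fun φ : ℝ => v (circleMap z ρ φ)) :=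
    hc.comp_continuous (continuous_circleMap z ρ) hmem
  have hint : Integrable (fun φ : ℝ => v (circleMap z ρ φ))
      (volume.restrict (Ioc (0 : ℝ) (2 * Real.pi))) :=
    (hcont.integrableOn_Icc (a := 0) (b := 2 * Real.pi)).mono_set Ioc_subset_Icc_self
  have h3 : ∫⁻ φ in Ioc (0 : ℝ) (2 * Real.pi), ENNReal.ofReal (v (circleMap z ρ φ)) =
      ENNReal.ofReal (∫ φ in Ioc (0 : ℝ) (2 * Real.pi), v (circleMap z ρ φ)) := by
    rw [ofReal_integral_eq_lintegral_ofReal hint]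
    exact Filter.Eventually.of_forall (fun φ => (hpos _ (hmem φ)).le)
  have hpi : (0 : ℝ) < 2 * Real.pi := Real.two_pi_pos
  have hI : 0 ≤ ∫ φ in Ioc (0 : ℝ) (2 * Real.pi), v (circleMap z ρ φ) :=
    integral_nonneg (fun φ => (hpos _ (hmem φ)).le)
  have h4 : Real.circleAverage v z ρ =
      (2 * Real.pi)⁻¹ * ∫ φ in Ioc (0 : ℝ) (2 * Real.pi), v (circleMap z ρ φ) := by
    rw [Real.circleAverage_def, intervalIntegral.integral_of_le hpi.le, smul_eq_mul]
  unfold circMean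
  simp only [h1, h2, h3]
  rw [lintegral_zero, mul_zero, ← ENNReal.ofReal_inv_of_pos hpi,
    ← ENNReal.ofReal_mul (inv_nonneg.2 hpi.le), ← h4, EReal.coe_ennreal_ofReal]
  have h5 : 0 ≤ Real.circleAverage v z ρ := by
    rw [h4]; exact mul_nonneg (inv_nonneg.2 hpi.le) hI
  rw [max_eq_left h5]
  simp

theorem classS_mk {K : ℝ} {v : ℂ → ℝ} (hc : ContinuousOn v RH) (hpos : ∀ z ∈ RH, 0 < v z)
    (hmean : ∀ z ∈ RH, ∃ ρ₀ : ℝ, 0 < ρ₀ ∧ ∀ ρ : ℝ, 0 < ρ → ρ < ρ₀ →
      Real.circleAverage v z ρ ≤ v z)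
    (hcirc : ∀ r : ℝ, 0 < r → ∀ η : ℝ, 0 < η → ∃ θ ∈ Ioo (-(Real.pi / 2)) (Real.pi / 2),
      K - η < v ((r : ℂ) * Complex.exp ((θ : ℂ) * Complex.I))) :
    ClassS K (fun z => ((-(v z) : ℝ) : EReal)) := by
  refine ⟨⟨?_, ?_, ?_, ?_⟩, ?_, ?_⟩
  · intro z _
    exact EReal.coe_lt_top _
  · exact (continuous_coe_real_ereal.comp_continuousOn hc.neg).upperSemicontinuousOn
  · refine ⟨1, ?_, EReal.coe_ne_bot _⟩
    show (0 : ℝ) < (1 : ℂ).re
    simp
  · intro z hz
    obtain ⟨ρ₁, hρ₁, h⟩ := hmean z hz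
    have hz' : 0 < z.re := hz
    refine ⟨min ρ₁ z.re, lt_min hρ₁ hz', ?_⟩
    intro ρ hρ hlt
    rw [circMean_mk hc hpos hρ (lt_of_lt_of_le hlt (min_le_right _ _))]
    have := h ρ hρ (lt_of_lt_of_le hlt (min_le_left _ _))
    exact_mod_cast (by linarith : -(v z) ≤ -(Real.circleAverage v z ρ))
  · intro z hz
    have := hpos z hz
    exact_mod_cast (by linarith : -(v z) < 0)
  · intro r hr
    by_contra hcon
    rw [not_le] at hcon
    obtain ⟨x, hx1, hx2⟩ := EReal.lt_iff_exists_real_btwn.1 hcon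
    have hx1' : -K < x := by exact_mod_cast hx1
    obtain ⟨θ, hθ, hv⟩ := hcirc r hr (K + x) (by linarith)
    have hle := iInf_le (fun θ : Ioo (-(Real.pi / 2)) (Real.pi / 2) =>
      ((-(v ((r : ℂ) * Complex.exp (((θ : ℝ) : ℂ) * Complex.I))) : ℝ) : EReal)) ⟨θ, hθ⟩
    have h1 := lt_of_lt_of_le hx2 hle
    have h2 : x < -(v ((r : ℂ) * Complex.exp ((θ : ℂ) * Complex.I))) := by exact_mod_cast h1
    linarith

end HallV

end
end
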