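import Pool.Agent.Lib.MP_5c0a14_an.VCls

section

/-!
# VAux : elementary estimates for the improvement step
-/

open Real Finset Filter Topology Set

namespace HallV

theorem cosh_le_one_add_sq {u : ℝ} (h0 : 0 ≤ u) (h1 : u ≤ 1) : cosh u ≤ 1 + u ^ 2 := by
  have h2 := Real.cosh_le_exp_half_sq u
  have h3 : u ^ 2 ≤ 1 := by nlinarith
  have h4 : exp (u ^ 2 / 2) ≤ 1 / (1 - u ^ 2 / 2) := by
    have h5 : 1 - u ^ 2 / 2 ≤ exp (-(u ^ 2 / 2)) := by
      have := Real.add_one_le_exp (-(u ^ 2 / 2)); linarith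
    rw [Real.exp_neg] at h5
    rw [le_div_iff₀ (by linarith)]
    have h6 := exp_pos (u ^ 2 / 2)
    calc exp (u ^ 2 / 2) * (1 - u ^ 2 / 2) ≤ exp (u ^ 2 / 2) * (exp (u ^ 2 / 2))⁻¹ :=
          mul_le_mul_of_nonneg_left h5 h6.le
      _ = 1 := mul_inv_cancel₀ h6.ne'
  have h7 : 1 / (1 - u ^ 2 / 2) ≤ 1 + u ^ 2 := by
    rw [div_le_iff₀ (by linarith)]
    nlinarith [sq_nonneg u]
  linarith

theorem sinh_le {u : ℝ} (h0 : 0 ≤ u) (h1 : u ≤ 1) : sinh u ≤ u * (1 + u ^ 2) := by
  have hmono : MonotoneOn (fun x : ℝ => x * (1 + x ^ 2) - sinh x) (Icc 0 1) := by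
    apply monotoneOn_of_deriv_nonneg (convex_Icc 0 1)
    · exact Continuous.continuousOn (by fun_prop)
    · exact Differentiable.differentiableOn (by fun_prop)
    · intro x hx
      rw [interior_Icc] at hx
      have hd : HasDerivAt (fun x : ℝ => x * (1 + x ^ 2) - sinh x) (1 + 3 * x ^ 2 - cosh x) x := by
        have h := (((hasDerivAt_id x).mul (((hasDerivAt_id x).pow 2).const_add 1))).sub
          (Real.hasDerivAt_sinh x)
        convert! h using 1
        simp; ring
      rw [hd.deriv]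
      have := cosh_le_one_add_sq hx.1.le hx.2.le
      nlinarith [sq_nonneg x]
  have h := hmono (left_mem_Icc.2 zero_le_one) ⟨h0, h1⟩ h0
  simp at h
  linarith

theorem arctan_sub_le {p q u : ℝ} (hpq : p - q = 2 * u) (hu0 : 0 ≤ u) (hu1 : u < 1) :
    arctan p - arctan q ≤ 2 * arctan u := by
  have e1 : arctan p - arctan q = arctan p + arctan (-q) := by rw [Real.arctan_neg]; ring
  have hq : q = p - 2 * u := by linarith
  have h1 : p * (-q) < 1 := by rw [hq]; nlinarith [sq_nonneg (p - u)]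
  have h2 : u * u < 1 := by nlinarith
  rw [e1, Real.arctan_add h1, two_mul, Real.arctan_add h2]
  apply Real.arctan_mono
  have h3 : p + -q = u + u := by rw [hq]; ring
  rw [h3]
  apply div_le_div_of_nonneg_left (by linarith) (by linarith)
  rw [hq]; nlinarith [sq_nonneg (p - u)]

theorem arctan_step {A δ : ℝ} (hδ : 0 ≤ δ) :
    2 * δ / (1 + A ^ 2) ≤ (1 + δ) ^ 2 * (arctan (A + δ) - arctan (A - δ)) := by
  have hmvt : (1 / ((1 + δ) ^ 2 * (1 + A ^ 2))) * ((A + δ) - (A - δ)) ≤
      arctan (A + δ) - arctan (A - δ) := by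
    apply Convex.mul_sub_le_image_sub_of_le_deriv (convex_Icc (A - δ) (A + δ))
      Real.continuous_arctan.continuousOn Real.differentiable_arctan.differentiableOn
      _ _ (left_mem_Icc.2 (by linarith)) _ (right_mem_Icc.2 (by linarith)) (by linarith)
    intro x hx
    rw [interior_Icc] at hx
    rw [Real.deriv_arctan]
    apply one_div_le_one_div_of_le (by positivity)
    have h1 : (x - A) ^ 2 ≤ δ ^ 2 := by
      have h2 : |x - A| ≤ δ := abs_le.2 ⟨by linarith [hx.1], by linarith [hx.2]⟩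
      have h3 := abs_nonneg (x - A)
      rw [← sq_abs]; nlinarith
    -- 1 + x² ≤ (1+δ)² (1+A²)
    have h4 : 2 * A * (x - A) ≤ 2 * δ * (1 + A ^ 2) := by
      have h2 : |x - A| ≤ δ := abs_le.2 ⟨by linarith [hx.1], by linarith [hx.2]⟩
      have h5 : A * (x - A) ≤ |A| * |x - A| := by rw [← abs_mul]; exact le_abs_self _
      have h6 : |A| * |x - A| ≤ |A| * δ := mul_le_mul_of_nonneg_left h2 (abs_nonneg _)
      have h7 : |A| ≤ 1 + A ^ 2 := by
        rw [← sq_abs]; nlinarith [sq_nonneg (|A| - 1), abs_nonneg A]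
      nlinarith
    nlinarith [sq_nonneg A, sq_nonneg δ, mul_nonneg (sq_nonneg A) (sq_nonneg δ)]
  have hpos : 0 < (1 + δ) ^ 2 := by positivity
  have h2 := mul_le_mul_of_nonneg_left hmvt hpos.le
  have h3 : (1 + δ) ^ 2 * (1 / ((1 + δ) ^ 2 * (1 + A ^ 2)) * (A + δ - (A - δ))) =
      2 * δ / (1 + A ^ 2) := by
    have : (1 + A ^ 2) ≠ 0 := by positivity
    field_simp
    ring
  rw [h3] at h2
  exact h2

theorem arctan_sum {A δ : ℝ} (hδ : 0 ≤ δ) (K : ℕ) (hK : δ * K < 1) :
    ∑ k ∈ range K, 2 * δ / (1 + (A - 2 * δ * k) ^ 2) ≤ (1 + δ) ^ 2 * (2 * arctan (δ * K)) := by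
  have h1 : ∀ k ∈ range K, 2 * δ / (1 + (A - 2 * δ * k) ^ 2) ≤
      (1 + δ) ^ 2 * ((fun k : ℕ => arctan (A + δ - 2 * δ * k)) k -
        (fun k : ℕ => arctan (A + δ - 2 * δ * k)) (k + 1)) := by
    intro k _
    have h := arctan_step (A := A - 2 * δ * k) hδ
    refine h.trans (le_of_eq ?_)
    congr 3
    · ring
    · push_cast; ring
  refine (Finset.sum_le_sum h1).trans ?_
  rw [← Finset.mul_sum, Finset.sum_range_sub']
  apply mul_le_mul_of_nonneg_left _ (by positivity)
  apply arctan_sub_le _ (by positivity) hK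
  push_cast; ring

theorem one_sub_cos_le (t : ℝ) : 1 - cos t ≤ t ^ 2 / 2 := by
  have := Real.one_sub_sq_div_two_le_cos (x := t); linarith

theorem one_sub_cos_ge {t : ℝ} (ht : |t| ≤ 1 / 50) : (1 - 1 / 10000) * t ^ 2 / 2 ≤ 1 - cos t := by
  have h1 := Real.cos_bound (x := t) (by linarith)
  have h2 := (abs_le.1 h1).2
  have h3 : |t| ^ 4 = (t ^ 2) ^ 2 := by
    calc |t| ^ 4 = (|t| ^ 2) ^ 2 := by ring
      _ = (t ^ 2) ^ 2 := by rw [sq_abs]
  have h4 : t ^ 2 ≤ (1 / 50) ^ 2 := by rw [← sq_abs]; have := abs_nonneg t; nlinarith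
  rw [h3] at h2
  nlinarith [sq_nonneg t]

end HallV
end

section

/-!
# VFin : from a configuration with value `c` at infinity to a function of the class `S(1)`
-/

open Real Finset Filter Topology Set Metric MeasureTheory HallHP

namespace HallV

/-- `exp (-pot)`, as a continuous function. -/
noncomputable def BB {ι : Type} [Fintype ι] (a ξ η : ι → ℝ) (x y : ℝ) : ℝ :=
  ∏ j, ((cosh (x - ξ j) - cos (y - η j)) / (cosh (x + ξ j) - cos (y - η j))) ^ (a j / 2)

/-- `min (pot, 2)`, as a continuous function. -/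
noncomputable def WW {ι : Type} [Fintype ι] (a ξ η : ι → ℝ) (x y : ℝ) : ℝ :=
  -log (max (BB a ξ η x y) (exp (-2)))

section

variable {ι : Type} [Fintype ι] {a ξ η : ι → ℝ}

theorem D_nonneg (u t : ℝ) : 0 ≤ cosh u - cos t := by
  have h1 := Real.one_le_cosh u
  have h2 := Real.cos_le_one t
  linarith

theorem BB_nonneg {x y : ℝ} : 0 ≤ BB a ξ η x y :=
  Finset.prod_nonneg fun _ _ => Real.rpow_nonneg (div_nonneg (D_nonneg _ _) (D_nonneg _ _)) _

theorem BB_le_one (ha : ∀ j, 0 < a j) (hξ : ∀ j, 0 < ξ j) {x y : ℝ} (hx : 0 < x) :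
    BB a ξ η x y ≤ 1 := by
  apply Finset.prod_le_one
  · intro j _
    exact Real.rpow_nonneg (div_nonneg (D_nonneg _ _) (D_nonneg _ _)) _
  · intro j _
    apply Real.rpow_le_one (div_nonneg (D_nonneg _ _) (D_nonneg _ _))
    · rw [div_le_one (E_pos hx (hξ j) _)]
      have := cosh_sub_lt hx (hξ j)
      linarith
    · have := ha j
      positivity

theorem BB_cont (ha : ∀ j, 0 < a j) (hξ : ∀ j, 0 < ξ j) {s : Set ℂ} {f g : ℂ → ℝ}
    (hf : ContinuousOn f s) (hg : ContinuousOn g s) (hpos : ∀ z ∈ s, 0 < f z) :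
    ContinuousOn (fun z => BB a ξ η (f z) (g z)) s := by
  unfold BB
  apply continuousOn_finsetProd
  intro j _
  apply ContinuousOn.rpow_const
  · apply ContinuousOn.div
    · exact (Real.continuous_cosh.comp_continuousOn (hf.sub continuousOn_const)).sub
        (Real.continuous_cos.comp_continuousOn (hg.sub continuousOn_const))
    · exact (Real.continuous_cosh.comp_continuousOn (hf.add continuousOn_const)).sub
        (Real.continuous_cos.comp_continuousOn (hg.sub continuousOn_const))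
    · intro z hz
      exact (E_pos (hpos z hz) (hξ j) _).ne'
  · intro z _
    right
    have := ha j
    positivity

theorem WW_cont (ha : ∀ j, 0 < a j) (hξ : ∀ j, 0 < ξ j) {s : Set ℂ} {f g : ℂ → ℝ}
    (hf : ContinuousOn f s) (hg : ContinuousOn g s) (hpos : ∀ z ∈ s, 0 < f z) :
    ContinuousOn (fun z => WW a ξ η (f z) (g z)) s := by
  unfold WW
  apply ContinuousOn.neg
  apply ContinuousOn.log
  · exact (BB_cont ha hξ hf hg hpos).sup continuousOn_const
  · intro z _
    exact (lt_max_of_lt_right (exp_pos _)).ne'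

theorem log_BB (hξ : ∀ j, 0 < ξ j) {x y : ℝ} (hx : 0 < x)
    (hD : ∀ j, 0 < cosh (x - ξ j) - cos (y - η j)) :
    0 < BB a ξ η x y ∧ log (BB a ξ η x y) = -pot a ξ η x y := by
  have hpos : ∀ j, 0 < ((cosh (x - ξ j) - cos (y - η j)) /
      (cosh (x + ξ j) - cos (y - η j))) ^ (a j / 2) := fun j =>
    Real.rpow_pos_of_pos (div_pos (hD j) (E_pos hx (hξ j) _)) _
  refine ⟨Finset.prod_pos fun j _ => hpos j, ?_⟩
  unfold BB pot
  rw [Real.log_prod fun j _ => (hpos j).ne', ← Finset.sum_neg_distrib]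
  apply Finset.sum_congr rfl
  intro j _
  rw [Real.log_rpow (div_pos (hD j) (E_pos hx (hξ j) _)),
    Real.log_div (hD j).ne' (E_pos hx (hξ j) _).ne']
  unfold gg
  ring

theorem D_pos_of_BB (ha : ∀ j, 0 < a j) {x y : ℝ} (h : 0 < BB a ξ η x y) (j : ι) :
    0 < cosh (x - ξ j) - cos (y - η j) := by
  rcases (D_nonneg (x - ξ j) (y - η j)).lt_or_eq with h1 | h1
  · exact h1
  · exfalso
    have : BB a ξ η x y = 0 := by
      unfold BB
      apply Finset.prod_eq_zero (Finset.mem_univ j)
      rw [← h1, zero_div, Real.zero_rpow]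
      have := ha j
      positivity
    rw [this] at h
    exact lt_irrefl _ h

theorem WW_le_two {x y : ℝ} : WW a ξ η x y ≤ 2 := by
  unfold WW
  have : -2 ≤ log (max (BB a ξ η x y) (exp (-2))) := by
    rw [Real.le_log_iff_exp_le (lt_max_of_lt_right (exp_pos _))]
    exact le_max_right _ _
  linarith

theorem WW_nonneg (ha : ∀ j, 0 < a j) (hξ : ∀ j, 0 < ξ j) {x y : ℝ} (hx : 0 < x) :
    0 ≤ WW a ξ η x y := by
  unfold WW
  have : log (max (BB a ξ η x y) (exp (-2))) ≤ 0 := by
    apply Real.log_nonpos (le_max_of_le_left BB_nonneg)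
    apply max_le (BB_le_one ha hξ hx)
    rw [Real.exp_le_one_iff]; norm_num
  linarith

theorem WW_le_pot (hξ : ∀ j, 0 < ξ j) {x y : ℝ} (hx : 0 < x)
    (hD : ∀ j, 0 < cosh (x - ξ j) - cos (y - η j)) : WW a ξ η x y ≤ pot a ξ η x y := by
  obtain ⟨h1, h2⟩ := log_BB (a := a) hξ hx hD
  have h3 : log (BB a ξ η x y) ≤ log (max (BB a ξ η x y) (exp (-2))) :=
    Real.log_le_log h1 (le_max_left _ _)
  unfold WW
  linarith

theorem le_WW (hξ : ∀ j, 0 < ξ j) {x y t : ℝ} (hx : 0 < x)
    (hD : ∀ j, 0 < cosh (x - ξ j) - cos (y - η j)) (ht : t ≤ pot a ξ η x y) (ht2 : t ≤ 2) :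
    t ≤ WW a ξ η x y := by
  obtain ⟨h1, h2⟩ := log_BB (a := a) hξ hx hD
  have h3 : log (max (BB a ξ η x y) (exp (-2))) ≤ -t := by
    rw [Real.log_le_iff_le_exp (lt_max_of_lt_right (exp_pos _))]
    apply max_le
    · rw [← Real.log_le_iff_le_exp h1, h2]
      linarith
    · apply Real.exp_le_exp.2
      linarith
  unfold WW
  linarith

theorem pot_lim (ha : ∀ j, 0 < a j) (hξ : ∀ j, 0 < ξ j) {ε : ℝ} (hε : 0 < ε) :
    ∃ Y : ℝ, 0 < Y ∧ (∀ j, ξ j < Y) ∧ ∀ x : ℝ, Y ≤ x → ∀ y : ℝ,
      ∑ j, a j * ξ j - ε ≤ pot a ξ η x y ∧ pot a ξ η x y ≤ ∑ j, a j * ξ j + ε := by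
  set A : ℝ := ∑ j, a j + 1 with hA
  have hA0 : 0 < A := by
    have : 0 ≤ ∑ j, a j := Finset.sum_nonneg fun j _ => (ha j).le
    linarith
  choose Y hY0 hY using fun j => gg_lim (hξ j) (show 0 < ε / A by positivity)
  have hb : ∃ Z : ℝ, 0 < Z ∧ ∀ j, Y j + ξ j < Z := by
    refine ⟨∑ j, (Y j + ξ j) + 1, ?_, ?_⟩
    · have : 0 ≤ ∑ j, (Y j + ξ j) := Finset.sum_nonneg fun j _ => by
        have := hY0 j; have := hξ j; linarith
      linarith
    · intro j
      have : Y j + ξ j ≤ ∑ j, (Y j + ξ j) :=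
        Finset.single_le_sum (f := fun j => Y j + ξ j) (fun i _ => by
          have := hY0 i; have := hξ i; linarith) (Finset.mem_univ j)
      linarith
  obtain ⟨Z, hZ0, hZ⟩ := hb
  refine ⟨Z, hZ0, fun j => by have := hZ j; have := hY0 j; linarith, fun x hx y => ?_⟩
  have hj : ∀ j, a j * ξ j - a j * (ε / A) ≤ a j * gg x y (ξ j) (η j) ∧
      a j * gg x y (ξ j) (η j) ≤ a j * ξ j + a j * (ε / A) := by
    intro j
    obtain ⟨h1, h2⟩ := hY j x (by have := hZ j; have := hξ j; linarith) y (η j)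
    constructor
    · rw [← mul_sub]; exact mul_le_mul_of_nonneg_left h1 (ha j).le
    · rw [← mul_add]; exact mul_le_mul_of_nonneg_left h2 (ha j).le
  have hsum : ∑ j, a j * (ε / A) ≤ ε := by
    rw [← Finset.sum_mul]
    calc (∑ j, a j) * (ε / A) ≤ A * (ε / A) := by
          apply mul_le_mul_of_nonneg_right (by rw [hA]; linarith) (by positivity)
      _ = ε := by field_simp
  constructor
  · have h1 : ∑ j, (a j * ξ j - a j * (ε / A)) ≤ pot a ξ η x y :=
      Finset.sum_le_sum fun j _ => (hj j).1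
    rw [Finset.sum_sub_distrib] at h1
    linarith
  · have h1 : pot a ξ η x y ≤ ∑ j, (a j * ξ j + a j * (ε / A)) :=
      Finset.sum_le_sum fun j _ => (hj j).2
    rw [Finset.sum_add_distrib] at h1
    linarith

end

end HallV
end

section

/-!
# VDrop : the contribution of a block of charges

The block `α k = (η + 2πk)/N`, `k < K`, `N = 1000 K`, `0 ≤ η < 2π`, lies in `[0, 2θ₀)`,
`θ₀ = π/1000 = (2499/10000) h`, `h = 10π/2499`.
-/

open Real Finset Filter Topology Set

namespace HallV

/-- Height of the plate. -/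
noncomputable def hp : ℝ := 10 * π / 2499

theorem hp_pos : 0 < hp := by unfold hp; positivity

theorem hp_lt : hp < 13 / 1000 := by
  unfold hp
  have := Real.pi_lt_d2
  linarith

theorem th_eq : π / 1000 = 2499 / 10000 * hp := by unfold hp; ring

theorem block_mem {K : ℕ} (hK : 0 < K) {η : ℝ} (h0 : 0 ≤ η) (h1 : η < 2 * π) {k : ℕ} (hk : k < K) :
    0 ≤ (η + 2 * π * k) / (1000 * K) ∧ (η + 2 * π * k) / (1000 * K) ≤ 2 * (π / 1000) := by
  have hK0 : (0 : ℝ) < K := by exact_mod_cast hK
  have hπ := Real.pi_pos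
  have hk1 : (k : ℝ) + 1 ≤ K := by exact_mod_cast hk
  constructor
  · positivity
  · rw [div_le_iff₀ (by positivity)]
    nlinarith

/-- One charge of the block seen from far away. -/
theorem far_term {x ξ y α κ : ℝ} (hx : 0 < x) (hx1 : x ≤ 1) (hξ : 0 < ξ) (hξ1 : ξ ≤ 1)
    (hκ : 0 < κ) (h : κ ≤ 1 - cos (y - α)) : gg x y ξ α ≤ 4 * x * ξ / κ := by
  have h1 := Real.one_le_cosh (x - ξ)
  have hD : κ ≤ cosh (x - ξ) - cos (y - α) := by linarith
  have hD0 : 0 < cosh (x - ξ) - cos (y - α) := by linarith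
  refine (gg_le hx hξ hD0).trans ?_
  have s1 : sinh x ≤ 2 * x := by
    have := sinh_le hx.le hx1
    nlinarith
  have s2 : sinh ξ ≤ 2 * ξ := by
    have := sinh_le hξ.le hξ1
    nlinarith
  have s3 : 0 < sinh x := Real.sinh_pos_iff.2 hx
  have s4 : 0 < sinh ξ := Real.sinh_pos_iff.2 hξ
  rw [div_le_div_iff₀ hD0 hκ]
  have s5 : sinh x * sinh ξ ≤ (2 * x) * (2 * ξ) := mul_le_mul s1 s2 s4.le (by positivity)
  calc sinh x * sinh ξ * κ ≤ (2 * x) * (2 * ξ) * κ := mul_le_mul_of_nonneg_right s5 hκ.le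
    _ ≤ (2 * x) * (2 * ξ) * (cosh (x - ξ) - cos (y - α)) :=
        mul_le_mul_of_nonneg_left hD (by positivity)
    _ = 4 * x * ξ * (cosh (x - ξ) - cos (y - α)) := by ring

/-- One charge of the block seen from the plate. -/
theorem plate_term {ξ y α : ℝ} (hξ : 0 < ξ) (hξ1 : ξ ≤ hp / 20000)
    (ht : |y - α| ≤ 1 / 50) :
    gg hp y ξ α ≤ ξ * (1 + 1 / 2000) * (2 * hp / (hp ^ 2 + (y - α) ^ 2)) := by
  have hh := hp_pos
  have hh1 := hp_lt
  have hc := one_add_sq_le_cosh (hp - ξ)
  have hcos := one_sub_cos_ge ht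
  have h2 : (1 - 1 / 10000) * hp ^ 2 ≤ (hp - ξ) ^ 2 := by nlinarith
  have hD : (1 - 1 / 10000) * (hp ^ 2 + (y - α) ^ 2) / 2 ≤ cosh (hp - ξ) - cos (y - α) := by
    linarith
  have hq : 0 < hp ^ 2 + (y - α) ^ 2 := by positivity
  have hD0 : 0 < cosh (hp - ξ) - cos (y - α) := by
    have : 0 < (1 - 1 / 10000 : ℝ) * (hp ^ 2 + (y - α) ^ 2) / 2 := by positivity
    linarith
  refine (gg_le hh hξ hD0).trans ?_
  have s1 : sinh hp ≤ hp * (1 + 1 / 5000) := by
    have h3 := sinh_le hh.le (by linarith)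
    have h4 : hp ^ 2 ≤ 1 / 5000 := by nlinarith
    nlinarith
  have s2 : sinh ξ ≤ ξ * (1 + 1 / 10000) := by
    have h3 := sinh_le hξ.le (by linarith)
    have h4 : ξ ^ 2 ≤ 1 / 10000 := by nlinarith
    nlinarith
  have s3 : 0 < sinh hp := Real.sinh_pos_iff.2 hh
  have s4 : 0 < sinh ξ := Real.sinh_pos_iff.2 hξ
  have s5 : sinh hp * sinh ξ ≤ (hp * (1 + 1 / 5000)) * (ξ * (1 + 1 / 10000)) :=
    mul_le_mul s1 s2 s4.le (by positivity)
  rw [div_le_iff₀ hD0]
  have e1 : ξ * (1 + 1 / 2000) * (2 * hp / (hp ^ 2 + (y - α) ^ 2)) *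
      ((1 - 1 / 10000) * (hp ^ 2 + (y - α) ^ 2) / 2) = ξ * hp * ((1 + 1 / 2000) * (1 - 1 / 10000)) := by
    field_simp
  have e2 : ξ * (1 + 1 / 2000) * (2 * hp / (hp ^ 2 + (y - α) ^ 2)) *
      ((1 - 1 / 10000) * (hp ^ 2 + (y - α) ^ 2) / 2) ≤
      ξ * (1 + 1 / 2000) * (2 * hp / (hp ^ 2 + (y - α) ^ 2)) * (cosh (hp - ξ) - cos (y - α)) :=
    mul_le_mul_of_nonneg_left hD (by positivity)
  rw [e1] at e2
  refine le_trans ?_ e2
  refine s5.trans ?_
  have : 0 < ξ * hp := by positivity
  nlinarith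

theorem block_far {K : ℕ} (hK : 0 < K) {η : ℝ} {x ξ y κ : ℝ}
    (hx : 0 < x) (hx1 : x ≤ 1) (hξ : 0 < ξ) (hξ1 : ξ ≤ 1000 * K) (hκ : 0 < κ)
    (h : ∀ k < K, κ ≤ 1 - cos (y - (η + 2 * π * k) / (1000 * K))) :
    ∑ k ∈ range K, gg x y (ξ / (1000 * K)) ((η + 2 * π * k) / (1000 * K)) ≤ 4 * x * ξ / κ := by
  have hK0 : (0 : ℝ) < K := by exact_mod_cast hK
  have h1 : ∀ k ∈ range K, gg x y (ξ / (1000 * K)) ((η + 2 * π * k) / (1000 * K)) ≤
      4 * x * (ξ / (1000 * K)) / κ := by
    intro k hk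
    apply far_term hx hx1 (by positivity) _ hκ (h k (Finset.mem_range.1 hk))
    rw [div_le_one (by positivity)]
    exact hξ1
  refine (Finset.sum_le_sum h1).trans ?_
  rw [Finset.sum_const, card_range, nsmul_eq_mul]
  have : (K : ℝ) * (4 * x * (ξ / (1000 * K)) / κ) = 4 * x * ξ / κ / 1000 := by
    field_simp
  rw [this]
  have : 0 ≤ 4 * x * ξ / κ := by positivity
  linarith

theorem block_plate {K : ℕ} (hK : 0 < K) {η : ℝ} (h0 : 0 ≤ η) (h1 : η < 2 * π) {ξ y : ℝ}
    (hξ : 0 < ξ) (hξ1 : ξ / (1000 * K) ≤ hp / 20000) (hδ : π / (1000 * K * hp) ≤ 1 / 10000)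
    (hy : |y - π / 1000| ≤ hp / 4) :
    ∑ k ∈ range K, gg hp y (ξ / (1000 * K)) ((η + 2 * π * k) / (1000 * K)) ≤
      ξ * ((1 + 1 / 2000) * (1 + 1 / 10000) ^ 2 * (2 / π * arctan (2499 / 10000))) := by
  have hK0 : (0 : ℝ) < K := by exact_mod_cast hK
  have hh := hp_pos
  have hh1 := hp_lt
  have hπ := Real.pi_pos
  have hth := th_eq
  obtain ⟨δ, hδd⟩ : ∃ δ : ℝ, δ = π / (1000 * K * hp) := ⟨_, rfl⟩
  have hδ0 : 0 < δ := by rw [hδd]; positivity
  have hδK : δ * K = 2499 / 10000 := by
    rw [hδd]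
    have : π = 2499 / 10 * hp := by linarith
    field_simp
    linarith
  have ht : ∀ k ∈ range K, gg hp y (ξ / (1000 * K)) ((η + 2 * π * k) / (1000 * K)) ≤
      ξ * (1 + 1 / 2000) / π * (2 * δ / (1 + ((y - η / (1000 * K)) / hp - 2 * δ * k) ^ 2)) := by
    intro k hk
    obtain ⟨b1, b2⟩ := block_mem hK h0 h1 (Finset.mem_range.1 hk)
    have hb : |y - (η + 2 * π * k) / (1000 * K)| ≤ 1 / 50 := by
      obtain ⟨c1, c2⟩ := abs_le.1 hy
      rw [abs_le]
      constructor <;> nlinarith
    refine (plate_term (by positivity) hξ1 hb).trans (le_of_eq ?_)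
    have e1 : (y - η / (1000 * K)) / hp - 2 * δ * k = (y - (η + 2 * π * k) / (1000 * K)) / hp := by
      rw [hδd]; field_simp; ring
    rw [e1]
    have e2 : 1 + ((y - (η + 2 * π * k) / (1000 * K)) / hp) ^ 2 =
        (hp ^ 2 + (y - (η + 2 * π * k) / (1000 * K)) ^ 2) / hp ^ 2 := by
      rw [div_pow]; field_simp
    rw [e2, hδd]
    have hq : 0 < hp ^ 2 + (y - (η + 2 * π * k) / (1000 * K)) ^ 2 := by positivity
    set Q := hp ^ 2 + (y - (η + 2 * π * k) / (1000 * K)) ^ 2
    field_simp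
  refine (Finset.sum_le_sum ht).trans ?_
  rw [← Finset.mul_sum]
  have hs := arctan_sum (A := (y - η / (1000 * K)) / hp) hδ0.le K (by rw [hδK]; norm_num)
  rw [hδK] at hs
  have hat : 0 ≤ arctan (2499 / 10000) := Real.arctan_nonneg.2 (by norm_num)
  have hδ' : δ ≤ 1 / 10000 := by rw [hδd]; exact hδ
  calc ξ * (1 + 1 / 2000) / π * ∑ k ∈ range K,
        2 * δ / (1 + ((y - η / (1000 * K)) / hp - 2 * δ * k) ^ 2)
      ≤ ξ * (1 + 1 / 2000) / π * ((1 + δ) ^ 2 * (2 * arctan (2499 / 10000))) :=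
        mul_le_mul_of_nonneg_left hs (by positivity)
    _ ≤ ξ * (1 + 1 / 2000) / π * ((1 + 1 / 10000) ^ 2 * (2 * arctan (2499 / 10000))) := by
        apply mul_le_mul_of_nonneg_left _ (by positivity)
        apply mul_le_mul_of_nonneg_right _ (by positivity)
        gcongr
    _ = ξ * ((1 + 1 / 2000) * (1 + 1 / 10000) ^ 2 * (2 / π * arctan (2499 / 10000))) := by ring

end HallV
end

section

/-!
# VOne : `Adm c` gives a function of the class `S(1)` with `u 1 > -(c/2 + 2ε)`
-/

open Real Finset Filter Topology Set Metric MeasureTheory HallHP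

namespace HallV

theorem sc_analytic (N : ℝ) {z : ℂ} (hz : z ∈ RH) : AnalyticAt ℂ (sc N) z := by
  have h1 : AnalyticAt ℂ Complex.log z := analyticAt_clog (Or.inl hz)
  have h2 : AnalyticAt ℂ (fun z => (N : ℂ) * (((π / 2 : ℝ) : ℂ) + Complex.I * Complex.log z)) z :=
    analyticAt_const.mul (analyticAt_const.add (analyticAt_const.mul h1))
  exact h2

theorem arg_RH {z : ℂ} (hz : z ∈ RH) : |Complex.arg z| < π / 2 :=
  Complex.abs_arg_lt_pi_div_two_iff.2 (Or.inl hz)

theorem sc_re_pos {N : ℝ} (hN : 0 < N) {z : ℂ} (hz : z ∈ RH) : 0 < (sc N z).re := by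
  rw [sc_re]
  have := (abs_lt.1 (arg_RH hz)).2
  exact mul_pos hN (by linarith)

theorem mean_of_majorant {v H : ℂ → ℝ} (hv : ContinuousOn v RH) {z : ℂ} (hz : z ∈ RH)
    (hH : InnerProductSpace.HarmonicAt H z) (hle : ∀ᶠ z' in 𝓝 z, v z' ≤ H z') (he : v z = H z) :
    ∃ ρ₀ : ℝ, 0 < ρ₀ ∧ ∀ ρ : ℝ, 0 < ρ → ρ < ρ₀ → Real.circleAverage v z ρ ≤ v z := by
  have hopen : IsOpen {x | InnerProductSpace.HarmonicAt H x} :=
    InnerProductSpace.isOpen_setOfPred_harmonicAt H
  obtain ⟨r1, hr1, hb1⟩ := Metric.mem_nhds_iff.1 (hopen.mem_nhds hH)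
  obtain ⟨r2, hr2, hb2⟩ := Metric.eventually_nhds_iff_ball.1 hle
  have hz' : 0 < z.re := hz
  refine ⟨min (min r1 r2) z.re, lt_min (lt_min hr1 hr2) hz', fun ρ hρ hlt => ?_⟩
  have l1 : ρ < r1 := lt_of_lt_of_le hlt ((min_le_left _ _).trans (min_le_left _ _))
  have l2 : ρ < r2 := lt_of_lt_of_le hlt ((min_le_left _ _).trans (min_le_right _ _))
  have l3 : ρ < z.re := lt_of_lt_of_le hlt (min_le_right _ _)
  have hHn : InnerProductSpace.HarmonicOnNhd H (closedBall z |ρ|) := by
    intro x hx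
    rw [abs_of_pos hρ] at hx
    exact hb1 (closedBall_subset_ball l1 hx)
  have hci : CircleIntegrable H z ρ :=
    ContinuousOn.circleIntegrable' (hHn.continuousOn.mono sphere_subset_closedBall)
  have hsph : ∀ x ∈ sphere z |ρ|, x ∈ RH := by
    intro x hx
    rw [mem_sphere_iff_norm, abs_of_pos hρ] at hx
    have h1 : |(x - z).re| ≤ ρ := by rw [← hx]; exact Complex.abs_re_le_norm _
    have h2 := (abs_le.1 h1).1
    rw [Complex.sub_re] at h2
    show 0 < x.re
    linarith
  have hcv : CircleIntegrable v z ρ := ContinuousOn.circleIntegrable' (hv.mono hsph)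
  have hm := Real.circleAverage_mono hcv hci (fun x hx => by
    apply hb2
    rw [mem_sphere, abs_of_pos hρ] at hx
    rw [mem_ball, hx]
    exact l2)
  rw [InnerProductSpace.HarmonicOnNhd.circleAverage_eq hHn, ← he] at hm
  exact hm

theorem of_adm {c ε : ℝ} (hc0 : 0 < c) (hc2 : c ≤ 2) (hε : 0 < ε) (h : Adm c) :
    ∃ u : ℂ → EReal, ClassS 1 u ∧ ((-(c / 2 + 2 * ε) : ℝ) : EReal) < u 1 := by
  obtain ⟨ι, _, a, ξ, η, X, hC, hsum⟩ := h
  obtain ⟨ha, hξ, hX, hline⟩ := hC
  obtain ⟨Y, hY0, hYξ, hY⟩ := pot_lim (η := η) ha hξ (show 0 < ε / 2 by positivity)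
  rw [hsum] at hY
  have hπ := Real.pi_pos
  have hπ3 := Real.pi_gt_three
  obtain ⟨N, hNd⟩ : ∃ N : ℝ, N = Y + X + c * Y / ε + c * X / ε + 1 := ⟨_, rfl⟩
  have q1 : 0 < c * Y / ε := by positivity
  have q2 : 0 < c * X / ε := by positivity
  have hN : 0 < N := by rw [hNd]; positivity
  have hNY : Y < N := by rw [hNd]; linarith
  have hNX : X < N := by rw [hNd]; linarith
  have hNcY : c * Y < N * ε := by
    have : c * Y / ε < N := by rw [hNd]; linarith
    rwa [div_lt_iff₀ hε] at this
  have hNcX : c * X < N * ε := by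
    have : c * X / ε < N := by rw [hNd]; linarith
    rwa [div_lt_iff₀ hε] at this
  obtain ⟨v, hv⟩ : ∃ v : ℂ → ℝ, v = fun z => WW a ξ η (sc N z).re (sc N z).im -
    c / π * (π / 2 - Complex.arg z) + ε := ⟨_, rfl⟩
  have hscc : ContinuousOn (sc N) RH := fun z hz => (sc_analytic N hz).continuousAt.continuousWithinAt
  have hre : ContinuousOn (fun z => (sc N z).re) RH := Complex.continuous_re.comp_continuousOn hscc
  have him : ContinuousOn (fun z => (sc N z).im) RH := Complex.continuous_im.comp_continuousOn hscc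
  have hargc : ContinuousOn (fun z : ℂ => Complex.arg z) RH := fun z hz =>
    (Complex.continuousAt_arg (Or.inl hz)).continuousWithinAt
  have hvc : ContinuousOn v RH := by
    rw [hv]
    apply ContinuousOn.add _ continuousOn_const
    apply ContinuousOn.sub
    · exact WW_cont ha hξ hre him (fun z hz => sc_re_pos hN hz)
    · exact continuousOn_const.mul (continuousOn_const.sub hargc)
  -- pointwise facts
  have hfar : ∀ x y : ℝ, Y ≤ x → c - ε / 2 ≤ WW a ξ η x y := by
    intro x y hx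
    apply le_WW hξ (by linarith)
    · intro j
      exact D_pos_of_ne (by have := hYξ j; linarith : x ≠ ξ j) _ |>.trans_le le_rfl
    · exact (hY x hx y).1
    · linarith
  have hpos : ∀ z ∈ RH, 0 < v z := by
    intro z hz
    rw [hv]
    have harg := abs_lt.1 (arg_RH hz)
    have hx := sc_re N z
    have hx0 := sc_re_pos hN hz
    simp only
    rcases le_or_gt Y (sc N z).re with h1 | h1
    · have h2 := hfar _ (sc N z).im h1
      have h3 : c / π * (π / 2 - Complex.arg z) ≤ c := by
        rw [div_mul_eq_mul_div, div_le_iff₀ hπ]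
        apply mul_le_mul_of_nonneg_left _ hc0.le
        linarith
      linarith
    · have h2 := WW_nonneg (η := η) (y := (sc N z).im) ha hξ hx0
      have h3 : c / π * (π / 2 - Complex.arg z) < ε := by
        rw [div_mul_eq_mul_div, div_lt_iff₀ hπ]
        rw [hx] at h1
        have h4 : N * (c * (π / 2 - Complex.arg z)) < N * ε := by
          calc N * (c * (π / 2 - Complex.arg z)) = c * (N * (π / 2 - Complex.arg z)) := by ring
            _ ≤ c * Y := mul_le_mul_of_nonneg_left h1.le hc0.le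
            _ < N * ε := hNcY
        have h5 : c * (π / 2 - Complex.arg z) < ε := lt_of_mul_lt_mul_left h4 hN.le
        nlinarith
      linarith
  have hlin : ∀ z ∈ RH, InnerProductSpace.HarmonicAt (fun z' : ℂ =>
      -(c / π) * (π / 2 - Complex.arg z') + ε) z := by
    intro z hz
    have h := (analyticAt_clog (Or.inl hz : z ∈ Complex.slitPlane)).harmonicAt_im
    have h2 := ((InnerProductSpace.harmonicAt_const (x := z) (-(c / π) * (π / 2) + ε))).add
      (h.const_smul (c := c / π))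
    refine (InnerProductSpace.harmonicAt_congr_nhds ?_).2 h2
    refine Eventually.of_forall fun z' => ?_
    simp only [Pi.add_apply, Pi.smul_apply, smul_eq_mul, Complex.log_im]
    ring
  have hmean : ∀ z ∈ RH, ∃ ρ₀ : ℝ, 0 < ρ₀ ∧ ∀ ρ : ℝ, 0 < ρ → ρ < ρ₀ →
      Real.circleAverage v z ρ ≤ v z := by
    intro z hz
    rcases le_or_gt (BB a ξ η (sc N z).re (sc N z).im) (exp (-2)) with hB | hB
    · have h1 : WW a ξ η (sc N z).re (sc N z).im = 2 := by
        unfold WW
        rw [max_eq_right hB, Real.log_exp]; ring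
      apply mean_of_majorant (H := fun z' => 2 + (-(c / π) * (π / 2 - Complex.arg z') + ε)) hvc hz
      · exact (InnerProductSpace.harmonicAt_const (x := z) (2 : ℝ)).add (hlin z hz)
      · refine Eventually.of_forall fun z' => ?_
        have := WW_le_two (a := a) (ξ := ξ) (η := η) (x := (sc N z').re) (y := (sc N z').im)
        rw [hv]
        simp only
        linarith
      · rw [hv]
        simp only
        rw [h1]; ring
    · have hB0 : 0 < BB a ξ η (sc N z).re (sc N z).im := lt_trans (exp_pos _) hB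
      have hD := D_pos_of_BB ha hB0
      have hx0 := sc_re_pos hN hz
      have hlog := log_BB (a := a) (y := (sc N z).im) hξ hx0 hD
      apply mean_of_majorant (H := fun z' => pot a ξ η (sc N z').re (sc N z').im +
        (-(c / π) * (π / 2 - Complex.arg z') + ε)) hvc hz
      · exact (pot_harm hξ (sc_analytic N hz) hx0 hD).add (hlin z hz)
      · have hBc : ContinuousOn (fun z => BB a ξ η (sc N z).re (sc N z).im) RH :=
          BB_cont ha hξ hre him (fun z hz => sc_re_pos hN hz)
        have hRH : IsOpen RH := isOpen_lt continuous_const Complex.continuous_re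
        have hev1 : ∀ᶠ z' in 𝓝 z, 0 < BB a ξ η (sc N z').re (sc N z').im :=
          (hBc.continuousAt (hRH.mem_nhds hz)).eventually (lt_mem_nhds hB0)
        filter_upwards [hev1, hRH.mem_nhds hz] with z' h1 h2
        have h3 := WW_le_pot (a := a) hξ (sc_re_pos hN h2) (D_pos_of_BB ha h1)
        rw [hv]
        simp only
        linarith
      · rw [hv]
        simp only
        have h1 : WW a ξ η (sc N z).re (sc N z).im = pot a ξ η (sc N z).re (sc N z).im := by
          unfold WW
          rw [max_eq_left hB.le, hlog.2]; ring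
        rw [h1]; ring
  have hcirc : ∀ r : ℝ, 0 < r → ∀ κ : ℝ, 0 < κ → ∃ θ ∈ Ioo (-(π / 2)) (π / 2),
      (1 : ℝ) - κ < v ((r : ℂ) * Complex.exp ((θ : ℂ) * Complex.I)) := by
    intro r hr κ hκ
    obtain ⟨x, hx0, hxX, hD, hp⟩ := hline (N * log r)
    have hxN : x / N < 1 := by rw [div_lt_one hN]; linarith
    have hxN0 : 0 < x / N := by positivity
    have hθ : π / 2 - x / N ∈ Ioo (-(π / 2)) (π / 2) := ⟨by linarith, by linarith⟩
    refine ⟨π / 2 - x / N, hθ, ?_⟩
    obtain ⟨z, hz⟩ : ∃ z : ℂ, z = (r : ℂ) * Complex.exp (((π / 2 - x / N : ℝ) : ℂ) * Complex.I) :=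
      ⟨_, rfl⟩
    rw [← hz]
    have hzarg : Complex.arg z = π / 2 - x / N := by
      rw [hz, Complex.arg_real_mul _ hr, Complex.arg_exp_mul_I, toIocMod_eq_self]
      constructor
      · linarith [hθ.1]
      · linarith [hθ.2]
    have hznorm : ‖z‖ = r := by
      rw [hz, norm_mul, Complex.norm_exp_ofReal_mul_I, mul_one, Complex.norm_real,
        Real.norm_of_nonneg hr.le]
    have h1 : (sc N z).re = x := by
      rw [sc_re, hzarg]; field_simp; ring
    have h2 : (sc N z).im = N * log r := by rw [sc_im, hznorm]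
    have h3 : 1 ≤ WW a ξ η x (N * log r) := le_WW hξ hx0 hD hp (by norm_num)
    rw [hv]
    simp only
    rw [h1, h2, hzarg]
    have h4 : c / π * (π / 2 - (π / 2 - x / N)) ≤ ε := by
      have e : c / π * (π / 2 - (π / 2 - x / N)) = c * x / (π * N) := by field_simp; ring
      rw [e, div_le_iff₀ (by positivity)]
      have h5 : c * x ≤ c * X := mul_le_mul_of_nonneg_left hxX hc0.le
      nlinarith [mul_pos hN hε]
    linarith
  refine ⟨fun z => ((-(v z) : ℝ) : EReal), classS_mk hvc hpos hmean hcirc, ?_⟩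
  rw [EReal.coe_lt_coe_iff]
  have h1 : (sc N 1).re = N * (π / 2) := by rw [sc_re, Complex.arg_one]; ring
  have h2 : Y ≤ N * (π / 2) := by nlinarith
  have h3 : pot a ξ η (sc N 1).re (sc N 1).im ≤ c + ε / 2 := (hY _ (by rw [h1]; exact h2) _).2
  have h4 : WW a ξ η (sc N 1).re (sc N 1).im ≤ pot a ξ η (sc N 1).re (sc N 1).im := by
    apply WW_le_pot hξ (by rw [h1]; positivity)
    intro j
    exact D_pos_of_ne (by rw [h1]; have := hYξ j; linarith) _
  have h5 : v 1 = WW a ξ η (sc N 1).re (sc N 1).im - c / 2 + ε := by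
    rw [hv]
    simp only [Complex.arg_one]
    field_simp
    ring
  rw [h5]
  linarith

end HallV
end

section

/-!
# VPlate : the potential of the plate, charges `β l = π/1000 + (h/4) cos (2πl/n)` at height `h`
-/

open Real Finset Filter Topology Set

namespace HallV

/-- The charges of the plate. -/
noncomputable def bet (n : ℕ) (l : ℕ) : ℝ := π / 1000 + hp / 4 * cos (0 - 2 * π * l / n)

theorem plate_pair {y β : ℝ} (h0 : y - β ≠ 0) (h1 : |y - β| ≤ 1 / 50) :
    log (2 * hp) - log |y - β| ≤ gg hp y hp β := by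
  have hh := hp_pos
  have hsq : 0 < (y - β) ^ 2 := by positivity
  have hD1 := one_sub_cos_ge h1
  have hD0 : 0 < 1 - cos (y - β) := by
    have : 0 < (1 - 1 / 10000 : ℝ) * (y - β) ^ 2 / 2 := by positivity
    linarith
  have hD2 := one_sub_cos_le (y - β)
  have hE := one_add_sq_le_cosh (hp + hp)
  have hc := Real.cos_le_one (y - β)
  unfold gg
  rw [sub_self, Real.cosh_zero]
  have l1 : log (2 * hp ^ 2) ≤ log (cosh (hp + hp) - cos (y - β)) := by
    apply Real.log_le_log (by positivity)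
    nlinarith
  have l2 : log (1 - cos (y - β)) ≤ log ((y - β) ^ 2 / 2) := Real.log_le_log hD0 hD2
  have l3 : log (2 * hp ^ 2) = log 2 + 2 * log hp := by
    rw [Real.log_mul (by norm_num) (by positivity), Real.log_pow]; norm_num
  have l4 : log ((y - β) ^ 2 / 2) = 2 * log |y - β| - log 2 := by
    rw [Real.log_div (by positivity) (by norm_num), Real.log_pow, ← Real.log_abs (y - β)]
    norm_num
  have l5 : log (2 * hp) = log 2 + log hp := Real.log_mul (by norm_num) hh.ne'
  linarith

theorem plate_sum {n : ℕ} (hn : 0 < n) {y : ℝ} (hy : |y - π / 1000| ≤ hp / 4)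
    (hne : ∀ l < n, y ≠ bet n l) :
    n * log 16 - log 4 ≤ ∑ l ∈ range n, gg hp y hp (bet n l) := by
  have hh := hp_pos
  have hh1 := hp_lt
  obtain ⟨c1, c2⟩ := abs_le.1 hy
  obtain ⟨u, hu⟩ : ∃ u : ℝ, u = arccos ((y - π / 1000) / (hp / 4)) := ⟨_, rfl⟩
  have hcu : cos u = (y - π / 1000) / (hp / 4) := by
    rw [hu, Real.cos_arccos]
    · rw [le_div_iff₀ (by positivity)]; linarith
    · rw [div_le_iff₀ (by positivity)]; linarith
  have hyu : y = π / 1000 + hp / 4 * cos u := by rw [hcu]; field_simp; ring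
  have hdiff : ∀ l : ℕ, y - bet n l = hp / 8 * (2 * cos u - 2 * cos (0 - 2 * π * l / n)) := by
    intro l; rw [hyu]; unfold bet; ring
  have hne' : ∀ l ∈ range n, 2 * cos u - 2 * cos (0 - 2 * π * l / n) ≠ 0 := by
    intro l hl h
    have h2 := hdiff l
    rw [h, mul_zero, sub_eq_zero] at h2
    exact hne l (Finset.mem_range.1 hl) h2
  have hterm : ∀ l ∈ range n, log 16 - log |2 * cos u - 2 * cos (0 - 2 * π * l / n)| ≤
      gg hp y hp (bet n l) := by
    intro l hl
    have h0 : y - bet n l ≠ 0 := sub_ne_zero.2 (hne l (Finset.mem_range.1 hl))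
    have h1 : |y - bet n l| ≤ 1 / 50 := by
      have k1 := Real.cos_le_one (0 - 2 * π * l / n)
      have k2 := Real.neg_one_le_cos (0 - 2 * π * l / n)
      have k3 : bet n l = π / 1000 + hp / 4 * cos (0 - 2 * π * l / n) := rfl
      have k4 : |hp / 4 * cos (0 - 2 * π * l / n)| ≤ hp / 4 := by
        rw [abs_le]; constructor <;> nlinarith
      obtain ⟨k5, k6⟩ := abs_le.1 k4
      rw [k3, abs_le]
      constructor <;> linarith
    refine le_trans ?_ (plate_pair h0 h1)
    rw [hdiff l, abs_mul, abs_of_pos (by positivity : (0 : ℝ) < hp / 8),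
      Real.log_mul (by positivity) (abs_ne_zero.2 (hne' l hl)),
      Real.log_div hh.ne' (by norm_num), Real.log_mul (by norm_num) hh.ne']
    have e16 : log 16 = 4 * log 2 := by
      rw [show (16 : ℝ) = 2 ^ 4 by norm_num, Real.log_pow]; norm_num
    have e8 : log 8 = 3 * log 2 := by
      rw [show (8 : ℝ) = 2 ^ 3 by norm_num, Real.log_pow]; norm_num
    rw [e16, e8]
    linarith
  refine le_trans ?_ (Finset.sum_le_sum hterm)
  rw [Finset.sum_sub_distrib, Finset.sum_const, card_range, nsmul_eq_mul]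
  have hprod := prod_formula_cos hn u 0
  have hprod0 : ∏ l ∈ range n, (2 * cos u - 2 * cos (0 - 2 * π * l / n)) ≠ 0 :=
    Finset.prod_ne_zero_iff.2 hne'
  have hlog : ∑ l ∈ range n, log |2 * cos u - 2 * cos (0 - 2 * π * l / n)| ≤ log 4 := by
    have e1 : ∑ l ∈ range n, log |2 * cos u - 2 * cos (0 - 2 * π * l / n)| =
        log |2 * cos (n * u) - 2 * cos (n * 0)| := by
      rw [← hprod, Real.log_abs, Real.log_prod hne']
      apply Finset.sum_congr rfl
      intro l _
      rw [Real.log_abs]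
    rw [e1]
    apply Real.log_le_log
    · rw [← hprod]; exact abs_pos.2 hprod0
    · have k1 := Real.cos_le_one (n * u)
      have k2 := Real.neg_one_le_cos (n * u)
      rw [mul_zero, Real.cos_zero, abs_le]
      constructor <;> linarith
  linarith

/-- At the charges of the plate themselves: go slightly above the plate. -/
theorem plate_near {m : ℝ} (hm : 0 < m) (s : Finset ℝ) : ∃ x : ℝ, hp < x ∧ x ≤ hp + 1 ∧ x ∉ s ∧
    1 ≤ m * (1 / 2 * (log (cosh (x + hp) - 1) - log (cosh (x - hp) - 1))) := by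
  have hh := hp_pos
  -- cosh δ - 1 → 0
  have hlim : Tendsto (fun δ : ℝ => cosh δ - 1) (𝓝[>] 0) (𝓝 0) := by
    have h1 : Continuous fun δ : ℝ => cosh δ - 1 := by fun_prop
    have h2 := h1.tendsto 0
    simp only [Real.cosh_zero, sub_self] at h2
    exact h2.mono_left nhdsWithin_le_nhds
  obtain ⟨t, htd⟩ : ∃ t : ℝ, t = 2 * hp ^ 2 * exp (-(2 / m)) := ⟨_, rfl⟩
  have ht0 : 0 < t := by rw [htd]; positivity
  have hev1 : ∀ᶠ δ in 𝓝[>] (0 : ℝ), cosh δ - 1 < t := hlim.eventually (gt_mem_nhds ht0)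
  have hev2 : ∀ᶠ δ in 𝓝[>] (0 : ℝ), δ < 1 := mem_nhdsWithin_of_mem_nhds (Iio_mem_nhds one_pos)
  have hev3 : ∀ᶠ δ in 𝓝[>] (0 : ℝ), hp + δ ∉ s := by
    have hfin : (((fun δ : ℝ => hp + δ) ⁻¹' (s : Set ℝ)) \ {0}).Finite := by
      apply Set.Finite.subset (Set.Finite.preimage _ s.finite_toSet) Set.diff_subset
      intro a _ b _ hab
      simpa using! hab
    have h1 : (((fun δ : ℝ => hp + δ) ⁻¹' (s : Set ℝ)) \ {0})ᶜ ∈ 𝓝 (0 : ℝ) := by
      apply hfin.isClosed.isOpen_compl.mem_nhds
      simp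
    filter_upwards [mem_nhdsWithin_of_mem_nhds h1, self_mem_nhdsWithin] with δ h2 h3
    intro h4
    apply h2
    exact ⟨h4, ne_of_gt h3⟩
  obtain ⟨δ, ⟨⟨⟨h1, h2⟩, h3⟩, h4⟩⟩ := (((hev1.and hev2).and hev3).and self_mem_nhdsWithin).exists
  have hδ : 0 < δ := h4
  refine ⟨hp + δ, by linarith, by linarith, h3, ?_⟩
  have e1 : hp + δ - hp = δ := by ring
  rw [e1]
  have hc := one_add_sq_le_cosh δ
  have hc0 : 0 < cosh δ - 1 := by
    have : 0 < δ ^ 2 := by positivity
    linarith
  have l1 : log (cosh δ - 1) ≤ log t := Real.log_le_log hc0 h1.le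
  have l2 : log t = log (2 * hp ^ 2) - 2 / m := by
    rw [htd, Real.log_mul (by positivity) (exp_pos _).ne', Real.log_exp]; ring
  have l3 : log (2 * hp ^ 2) ≤ log (cosh (hp + δ + hp) - 1) := by
    apply Real.log_le_log (by positivity)
    have := one_add_sq_le_cosh (hp + δ + hp)
    nlinarith
  have l4 : 2 / m ≤ log (cosh (hp + δ + hp) - 1) - log (cosh δ - 1) := by linarith
  calc (1 : ℝ) = m * (1 / 2 * (2 / m)) := by field_simp
    _ ≤ _ := by
      apply mul_le_mul_of_nonneg_left _ hm.le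
      linarith

end HallV
end

section

/-!
# VImp : the improvement step
-/

open Real Finset Filter Topology Set

namespace HallV

section

variable {ι : Type} [Fintype ι] {a ξ η : ι → ℝ} {X : ℝ}

/-- Heights can be reduced modulo `2π`. -/
theorem Conf.normalise (h : Conf a ξ η X) :
    Conf a ξ (fun j => toIcoMod Real.two_pi_pos 0 (η j)) X := by
  have hcos : ∀ (y : ℝ) (j : ι), cos (y - toIcoMod Real.two_pi_pos 0 (η j)) = cos (y - η j) := by
    intro y j
    have h1 : toIcoMod Real.two_pi_pos 0 (η j) = η j - (toIcoDiv Real.two_pi_pos 0 (η j) : ℤ) * (2 * π) := by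
      rw [toIcoMod]; simp
    rw [h1]
    have h2 : y - (η j - (toIcoDiv Real.two_pi_pos 0 (η j) : ℤ) * (2 * π)) =
        (y - η j) + (toIcoDiv Real.two_pi_pos 0 (η j) : ℤ) * (2 * π) := by ring
    rw [h2, Real.cos_add_int_mul_two_pi]
  refine ⟨h.a_pos, h.xi_pos, h.X_pos, fun y => ?_⟩
  obtain ⟨x, h1, h2, h3, h4⟩ := h.line y
  refine ⟨x, h1, h2, fun j => ?_, ?_⟩
  · rw [hcos]; exact h3 j
  · have : pot a ξ (fun j => toIcoMod Real.two_pi_pos 0 (η j)) x y = pot a ξ η x y := by
      unfold pot gg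
      apply Finset.sum_congr rfl
      intro j _
      simp only [hcos]
    rw [this]; exact h4

/-- It is enough to look at one period of horizontal lines. -/
theorem Conf.of_period (ha : ∀ j, 0 < a j) (hξ : ∀ j, 0 < ξ j) (hX : 0 < X) (y₀ : ℝ)
    (h : ∀ y : ℝ, y₀ ≤ y → y < y₀ + 2 * π → ∃ x : ℝ, 0 < x ∧ x ≤ X ∧
      (∀ j, 0 < cosh (x - ξ j) - cos (y - η j)) ∧ 1 ≤ pot a ξ η x y) : Conf a ξ η X := by
  refine ⟨ha, hξ, hX, fun y => ?_⟩
  obtain ⟨z, hz⟩ : ∃ z : ℝ, z = toIcoMod Real.two_pi_pos y₀ y := ⟨_, rfl⟩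
  have hmem := toIcoMod_mem_Ico Real.two_pi_pos y₀ y
  rw [← hz] at hmem
  obtain ⟨x, h1, h2, h3, h4⟩ := h z hmem.1 hmem.2
  have hcos : ∀ j : ι, cos (z - η j) = cos (y - η j) := by
    intro j
    have k1 : z = y - (toIcoDiv Real.two_pi_pos y₀ y : ℤ) * (2 * π) := by
      rw [hz, toIcoMod]; simp
    have k2 : z - η j = (y - η j) - (toIcoDiv Real.two_pi_pos y₀ y : ℤ) * (2 * π) := by
      rw [k1]; ring
    rw [k2, Real.cos_sub_int_mul_two_pi]
  refine ⟨x, h1, h2, fun j => by rw [← hcos]; exact h3 j, ?_⟩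
  have : pot a ξ η x z = pot a ξ η x y := by
    unfold pot gg
    apply Finset.sum_congr rfl
    intro j _
    rw [hcos]
  rw [← this]; exact h4

/-- The charges which are kept. -/
noncomputable def kept (a ξ η : ι → ℝ) (K : ℕ) (x y : ℝ) : ℝ :=
  ∑ j, a j * ∑ k ∈ range (999 * K), gg x y (ξ j / (1000 * K)) ((η j + 2 * π * (K + k)) / (1000 * K))

/-- The charges which are removed. -/
noncomputable def drop (a ξ η : ι → ℝ) (K : ℕ) (x y : ℝ) : ℝ :=
  ∑ j, a j * ∑ k ∈ range K, gg x y (ξ j / (1000 * K)) ((η j + 2 * π * k) / (1000 * K))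

theorem split_pot (hξ : ∀ j, 0 < ξ j) {K : ℕ} (hK : 0 < K) {x y : ℝ} (hx : 0 < x)
    (hD : ∀ j, 0 < cosh (1000 * K * x - ξ j) - cos (1000 * K * y - η j)) :
    (∀ j, ∀ k < 1000 * K, 0 < cosh (x - ξ j / (1000 * K)) -
      cos (y - (η j + 2 * π * k) / (1000 * K))) ∧
    drop a ξ η K x y + kept a ξ η K x y = pot a ξ η (1000 * K * x) (1000 * K * y) := by
  have hN : 0 < 1000 * K := by positivity
  have hc : ((1000 * K : ℕ) : ℝ) = 1000 * K := by push_cast; ring
  have h := fun j => gg_nfold (N := 1000 * K) hN (x := x) (y := y) (ξ := ξ j) (η := η j) hx (hξ j)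
    (by rw [hc]; exact hD j)
  constructor
  · intro j k hk
    have := (h j).1 k (Finset.mem_range.2 hk)
    rw [hc] at this
    exact this
  · unfold drop kept pot
    rw [← Finset.sum_add_distrib]
    apply Finset.sum_congr rfl
    intro j _
    have h2 := (h j).2
    rw [hc] at h2
    rw [← h2, show 1000 * K = K + 999 * K by ring, Finset.sum_range_add, mul_add]
    push_cast
    ring_nf

end

end HallV
end

section

/-!
# VStep : the improved configuration
-/

open Real Finset Filter Topology Set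

namespace HallV

/-- Bound for the harmonic measure of the removed arc, seen from the plate. -/
noncomputable def om : ℝ := 1562 / 10000

/-- Potential of a unit charge on the plate. -/
noncomputable def LL (n : ℕ) : ℝ := log 16 - log 4 / n

/-- Charge of the plate. -/
noncomputable def mm (n : ℕ) (c : ℝ) : ℝ := (1 - c + c * om + 1 / 1000000) / LL n

/-- Value at infinity of the improved configuration. -/
noncomputable def cn (n : ℕ) (c : ℝ) : ℝ :=
  (1 + 1 / 10000000) * (c * (999 / 1000)) + mm n c * hp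

section

variable {ι : Type} [Fintype ι] {a ξ η : ι → ℝ} {X : ℝ}

/-- The charges of the improved configuration. -/
noncomputable def na (a : ι → ℝ) (K n : ℕ) (m : ℝ) : (ι × Fin (999 * K)) ⊕ Fin n → ℝ :=
  Sum.elim (fun p => (1 + 1 / 10000000) * a p.1) (fun _ => m / n)

/-- Their real parts. -/
noncomputable def nx (ξ : ι → ℝ) (K n : ℕ) : (ι × Fin (999 * K)) ⊕ Fin n → ℝ :=
  Sum.elim (fun p => ξ p.1 / (1000 * K)) (fun _ => hp)

/-- Their heights. -/
noncomputable def ny (η : ι → ℝ) (K n : ℕ) : (ι × Fin (999 * K)) ⊕ Fin n → ℝ :=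
  Sum.elim (fun p => (η p.1 + 2 * π * (K + ((p.2 : ℕ) : ℝ))) / (1000 * K))
    (fun l => bet n l)

theorem pot_new (K n : ℕ) (m x y : ℝ) :
    pot (na a K n m) (nx ξ K n) (ny η K n) x y = (1 + 1 / 10000000) * kept a ξ η K x y +
      m / n * ∑ l ∈ range n, gg x y hp (bet n l) := by
  unfold pot kept na nx ny
  rw [Fintype.sum_sum_type, Fintype.sum_prod_type]
  simp only [Sum.elim_inl, Sum.elim_inr]
  congr 1
  · rw [Finset.mul_sum]
    apply Finset.sum_congr rfl
    intro j _
    rw [← Finset.mul_sum, mul_assoc, Fin.sum_univ_eq_sum_range (fun k : ℕ =>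
      gg x y (ξ j / (1000 * K)) ((η j + 2 * π * (K + (k : ℝ))) / (1000 * K))) (999 * K)]
  · rw [← Finset.mul_sum, Fin.sum_univ_eq_sum_range (fun l : ℕ => gg x y hp (bet n l)) n]

theorem sum_new {K n : ℕ} (hK : 0 < K) (hn : 0 < n) (m : ℝ) :
    ∑ j, na a K n m j * nx ξ K n j =
      (1 + 1 / 10000000) * ((∑ j, a j * ξ j) * (999 / 1000)) + m * hp := by
  have hK0 : (0 : ℝ) < K := by exact_mod_cast hK
  have hn0 : (0 : ℝ) < n := by exact_mod_cast hn
  unfold na nx
  rw [Fintype.sum_sum_type, Fintype.sum_prod_type]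
  simp only [Sum.elim_inl, Sum.elim_inr, Finset.sum_const, Finset.card_univ, Fintype.card_fin,
    nsmul_eq_mul]
  congr 1
  · rw [Finset.sum_mul, Finset.mul_sum]
    apply Finset.sum_congr rfl
    intro j _
    push_cast
    field_simp
  · field_simp

end

end HallV
end

section

/-!
# VStep2 : the improved configuration has potential at least `1` on each horizontal line
-/

open Real Finset Filter Topology Set

namespace HallV

theorem cos_far {t κ : ℝ} (hκ0 : 0 ≤ κ) (h1 : κ ≤ |t|) (h2 : |t| ≤ 2 * π - κ) :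
    cos t ≤ cos κ := by
  rw [← Real.cos_abs t]
  rcases le_total |t| π with h | h
  · exact Real.cos_le_cos_of_nonneg_of_le_pi hκ0 h h1
  · have e : cos |t| = cos (2 * π - |t|) := by rw [Real.cos_two_pi_sub]
    rw [e]
    exact Real.cos_le_cos_of_nonneg_of_le_pi hκ0 (by linarith) (by linarith)

section

variable {ι : Type} [Fintype ι] {a ξ η : ι → ℝ} {X : ℝ}

theorem Conf.step {n : ℕ} (hn : 0 < n) {c : ℝ} (h : Conf a ξ η X)
    (hη : ∀ j, 0 ≤ η j ∧ η j < 2 * π) (hc : ∑ j, a j * ξ j = c) (hc0 : 0 < c)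
    (hm : 0 < mm n c) (hL : 0 < LL n)
    (harc : (1 + 1 / 2000) * (1 + 1 / 10000) ^ 2 * (2 / π * arctan (2499 / 10000)) ≤ om) :
    ∃ K : ℕ, 0 < K ∧ Conf (na a K n (mm n c)) (nx ξ K n) (ny η K n) (X + hp + 1) := by
  obtain ⟨ha, hξ, hX, hline⟩ := h
  have hh := hp_pos
  have hh1 := hp_lt
  have hπ := Real.pi_pos
  have hπ3 := Real.pi_gt_three
  have hth := th_eq
  have hn0 : (0 : ℝ) < n := by exact_mod_cast hn
  obtain ⟨Y, hY0, hYξ, hY⟩ := pot_lim (η := η) ha hξ (show (0 : ℝ) < 1 / 2000000 by norm_num)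
  rw [hc] at hY
  obtain ⟨κ, hκd⟩ : ∃ κ : ℝ, κ = 1 - cos (hp / 10000) := ⟨_, rfl⟩
  have hκ : 0 < κ := by
    have h1 := one_sub_cos_ge (t := hp / 10000) (by rw [abs_of_pos (by positivity)]; linarith)
    have : 0 < (1 - 1 / 10000 : ℝ) * (hp / 10000) ^ 2 / 2 := by positivity
    linarith
  obtain ⟨K, hKb⟩ := exists_nat_gt (X / hp + 20 * Y / hp + 10 * π / hp + 80000 * X * c / κ)
  have q1 : 0 < X / hp := by positivity
  have q2 : 0 < 20 * Y / hp := by positivity
  have q3 : 0 < 10 * π / hp := by positivity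
  have q4 : 0 < 80000 * X * c / κ := by positivity
  have hK0 : (0 : ℝ) < K := by linarith
  have hK : 0 < K := by exact_mod_cast hK0
  have k1 : X < K * hp := by
    have : X / hp < K := by linarith
    rwa [div_lt_iff₀ hh] at this
  have k2 : 20 * Y < K * hp := by
    have : 20 * Y / hp < K := by linarith
    rwa [div_lt_iff₀ hh] at this
  have k3 : 10 * π < K * hp := by
    have : 10 * π / hp < K := by linarith
    rwa [div_lt_iff₀ hh] at this
  have k4 : 80000 * X * c < K * κ := by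
    have : 80000 * X * c / κ < K := by linarith
    rwa [div_lt_iff₀ hκ] at this
  -- consequences
  have c2 : X / (1000 * K) < hp := by
    rw [div_lt_iff₀ (by positivity)]; nlinarith
  have c3 : ∀ j, ξ j / (1000 * K) ≤ hp / 20000 := by
    intro j
    have := hYξ j
    rw [div_le_div_iff₀ (by positivity) (by norm_num)]
    nlinarith
  have c4 : π / (1000 * K * hp) ≤ 1 / 10000 := by
    rw [div_le_div_iff₀ (by positivity) (by norm_num)]
    nlinarith
  have c5 : Y ≤ 1000 * K * hp := by nlinarith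
  have hap : ∀ j, 0 < na a K n (mm n c) j := by
    rintro (p | l)
    · simp only [na, Sum.elim_inl]
      have := ha p.1
      positivity
    · simp only [na, Sum.elim_inr]
      positivity
  have hxp : ∀ j, 0 < nx ξ K n j := by
    rintro (p | l)
    · simp only [nx, Sum.elim_inl]
      have := hξ p.1
      positivity
    · simp only [nx, Sum.elim_inr]
      exact hh
  have hgk : ∀ x y : ℝ, 0 < x → (∀ j, ∀ k < 1000 * K, 0 < cosh (x - ξ j / (1000 * K)) -
      cos (y - (η j + 2 * π * k) / (1000 * K))) → 0 ≤ kept a ξ η K x y := by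
    intro x y hx hD
    unfold kept
    apply Finset.sum_nonneg
    intro j _
    apply mul_nonneg (ha j).le
    apply Finset.sum_nonneg
    intro k hk
    have hk' : K + k < 1000 * K := by
      have := Finset.mem_range.1 hk; omega
    have := hD j (K + k) hk'
    push_cast at this
    exact gg_nonneg hx (by have := hξ j; positivity) this
  refine ⟨K, hK, Conf.of_period hap hxp (by linarith) (π / 1000 - π) ?_⟩
  intro y hy1 hy2
  have hy : |y - π / 1000| ≤ π := abs_le.2 ⟨by linarith, by linarith⟩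
  rcases le_or_gt |y - π / 1000| (hp / 4) with hcase | hcase
  · -- plate
    obtain ⟨b1, b2⟩ := abs_le.1 hcase
    have hbet : ∀ l : ℕ, |y - bet n l| ≤ 1 / 50 := by
      intro l
      have k1 := Real.cos_le_one (0 - 2 * π * l / n)
      have k2 := Real.neg_one_le_cos (0 - 2 * π * l / n)
      have k4 : |hp / 4 * cos (0 - 2 * π * l / n)| ≤ hp / 4 := by
        rw [abs_le]; constructor <;> nlinarith
      obtain ⟨k5, k6⟩ := abs_le.1 k4
      unfold bet
      rw [abs_le]
      constructor <;> linarith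
    by_cases hne : ∀ l < n, y ≠ bet n l
    · refine ⟨hp, hh, by linarith, ?_, ?_⟩
      · rintro (p | l)
        · simp only [nx, ny, Sum.elim_inl]
          apply D_pos_of_ne
          have := c3 p.1
          intro he
          rw [← he] at this
          linarith
        · simp only [nx, ny, Sum.elim_inr]
          rw [sub_self, Real.cosh_zero]
          have h0 : y - bet n l ≠ 0 := sub_ne_zero.2 (hne l l.2)
          have h1 := one_sub_cos_ge (hbet l)
          have h2 : 0 < (y - bet n l) ^ 2 := by positivity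
          linarith
      · rw [pot_new]
        have hDD : ∀ j, 0 < cosh (1000 * K * hp - ξ j) - cos (1000 * K * y - η j) := by
          intro j
          apply D_pos_of_ne
          have := hYξ j
          intro he
          linarith
        obtain ⟨s1, s2⟩ := split_pot (a := a) hξ hK hh hDD
        have hd : drop a ξ η K hp y ≤ c * om := by
          unfold drop
          rw [← hc, Finset.sum_mul]
          apply Finset.sum_le_sum
          intro j _
          rw [mul_assoc]
          apply mul_le_mul_of_nonneg_left _ (ha j).le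
          refine (block_plate hK (hη j).1 (hη j).2 (hξ j) (c3 j) c4 hcase).trans ?_
          exact mul_le_mul_of_nonneg_left harc (hξ j).le
        have hp1 := (hY (1000 * K * hp) c5 (1000 * K * y)).1
        have hk1 : c - 1 / 2000000 - c * om ≤ kept a ξ η K hp y := by linarith
        have hpl := plate_sum hn hcase hne
        have hmn : 0 < mm n c / n := by positivity
        have hpl2 := mul_le_mul_of_nonneg_left hpl hmn.le
        have e1 : mm n c / n * (n * log 16 - log 4) = mm n c * LL n := by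
          unfold LL; field_simp
        have e2 : mm n c * LL n = 1 - c + c * om + 1 / 1000000 := by
          unfold mm; field_simp
        rw [e1, e2] at hpl2
        have hom : c * om ≤ c := by unfold om; linarith
        nlinarith
    · push Not at hne
      obtain ⟨l0, hl0, hyl⟩ := hne
      obtain ⟨x, hx1, hx2, hx3, hx4⟩ := plate_near (m := mm n c / n) (by positivity)
        (Finset.univ.image (nx ξ K n))
      have hx0 : 0 < x := by linarith
      have hDn : ∀ j, 0 < cosh (x - nx ξ K n j) - cos (y - ny η K n j) := by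
        intro j
        apply D_pos_of_ne
        intro he
        apply hx3
        rw [he]
        exact Finset.mem_image_of_mem _ (Finset.mem_univ j)
      refine ⟨x, hx0, by linarith, hDn, ?_⟩
      unfold pot
      have hterm : ∀ j ∈ (Finset.univ : Finset ((ι × Fin (999 * K)) ⊕ Fin n)),
          0 ≤ na a K n (mm n c) j * gg x y (nx ξ K n j) (ny η K n j) := fun j _ =>
        mul_nonneg (hap j).le (gg_nonneg hx0 (hxp j) (hDn j))
      refine le_trans ?_ (Finset.single_le_sum hterm (Finset.mem_univ (Sum.inr ⟨l0, hl0⟩)))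
      simp only [na, nx, ny, Sum.elim_inr]
      rw [← hyl]
      unfold gg
      rw [sub_self, Real.cos_zero]
      exact hx4
  · -- away from the plate
    obtain ⟨x0, hx0, hx0X, hx0D, hx0p⟩ := hline (1000 * K * y)
    obtain ⟨x, hxd⟩ : ∃ x : ℝ, x = x0 / (1000 * K) := ⟨_, rfl⟩
    have hx : 0 < x := by rw [hxd]; positivity
    have hxe : 1000 * K * x = x0 := by rw [hxd]; field_simp
    have hxh : x < hp := by
      rw [hxd]
      refine lt_of_le_of_lt ?_ c2
      exact div_le_div_of_nonneg_right hx0X (by positivity)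
    obtain ⟨s1, s2⟩ := split_pot (a := a) (x := x) (y := y) hξ hK hx
      (by intro j; rw [hxe]; exact hx0D j)
    rw [hxe] at s2
    refine ⟨x, hx, by linarith, ?_, ?_⟩
    · rintro (p | l)
      · simp only [nx, ny, Sum.elim_inl]
        have hk' : K + (p.2 : ℕ) < 1000 * K := by
          have := p.2.2; omega
        have := s1 p.1 (K + (p.2 : ℕ)) hk'
        push_cast at this
        exact this
      · simp only [nx, ny, Sum.elim_inr]
        exact D_pos_of_ne hxh.ne _
    · rw [pot_new]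
      have hd : drop a ξ η K x y ≤ 1 / 20000000 := by
        have hd1 : drop a ξ η K x y ≤ ∑ j, a j * (4 * x * ξ j / κ) := by
          unfold drop
          apply Finset.sum_le_sum
          intro j _
          apply mul_le_mul_of_nonneg_left _ (ha j).le
          apply block_far hK hx (by linarith) (hξ j) _ hκ
          · intro k hk
            obtain ⟨b1, b2⟩ := block_mem hK (hη j).1 (hη j).2 hk
            rw [hκd]
            have habs : |(η j + 2 * π * k) / (1000 * K) - π / 1000| ≤ π / 1000 :=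
              abs_le.2 ⟨by linarith, by linarith⟩
            have hyy : y - π / 1000 = (y - (η j + 2 * π * k) / (1000 * K)) +
                ((η j + 2 * π * k) / (1000 * K) - π / 1000) := by ring
            have t1 : |y - π / 1000| ≤ |y - (η j + 2 * π * k) / (1000 * K)| + π / 1000 := by
              rw [hyy]; exact (abs_add_le _ _).trans (by linarith)
            have hyy2 : y - (η j + 2 * π * k) / (1000 * K) = (y - π / 1000) -
                ((η j + 2 * π * k) / (1000 * K) - π / 1000) := by ring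
            have t2 : |y - (η j + 2 * π * k) / (1000 * K)| ≤ π + π / 1000 := by
              rw [hyy2]; exact (abs_sub _ _).trans (by linarith)
            have := cos_far (t := y - (η j + 2 * π * k) / (1000 * K)) (κ := hp / 10000)
              (by positivity) (by linarith) (by linarith)
            linarith
          · have := c3 j
            rw [div_le_iff₀ (by positivity)] at this
            nlinarith
        refine hd1.trans ?_
        have e1 : ∑ j, a j * (4 * x * ξ j / κ) = 4 * x * c / κ := by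
          rw [← hc, Finset.mul_sum, Finset.sum_div]
          apply Finset.sum_congr rfl
          intro j _
          ring
        rw [e1, div_le_iff₀ hκ]
        have hxX : 1000 * K * x ≤ X := by rw [hxe]; exact hx0X
        have h5 : (1000 * K * x) * c ≤ X * c := mul_le_mul_of_nonneg_right hxX hc0.le
        have h6 : (K : ℝ) * (4 * x * c) ≤ K * (1 / 20000000 * κ) := by nlinarith
        exact le_of_mul_le_mul_left h6 hK0
      have hpl : 0 ≤ mm n c / n * ∑ l ∈ range n, gg x y hp (bet n l) := by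
        apply mul_nonneg (by positivity)
        apply Finset.sum_nonneg
        intro l _
        exact gg_nonneg hx hh (D_pos_of_ne hxh.ne _)
      nlinarith

end

end HallV
end

section

/-!
# VMain : the infimum of the admissible values at infinity is less than `94/100`
-/

open Real Finset Filter Topology Set HallHP

namespace HallV

theorem arctan_le_poly {x : ℝ} (hx : 0 ≤ x) : arctan x ≤ x - x ^ 3 / 3 + x ^ 5 / 5 := by
  have hmono : MonotoneOn (fun x : ℝ => x - x ^ 3 / 3 + x ^ 5 / 5 - arctan x) (Set.Ici 0) := by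
    have hd : ∀ x : ℝ, HasDerivAt (fun x : ℝ => x - x ^ 3 / 3 + x ^ 5 / 5 - arctan x)
        (1 - x ^ 2 + x ^ 4 - 1 / (1 + x ^ 2)) x := by
      intro x
      have h := ((((hasDerivAt_id x).sub (((hasDerivAt_id x).pow 3).div_const 3)).add
        (((hasDerivAt_id x).pow 5).div_const 5))).sub (Real.hasDerivAt_arctan x)
      convert! h using 1
      simp
    apply monotoneOn_of_deriv_nonneg (convex_Ici 0)
    · exact fun x _ => (hd x).continuousAt.continuousWithinAt
    · exact fun x _ => (hd x).differentiableAt.differentiableWithinAt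
    · intro x _
      rw [(hd x).deriv, sub_nonneg, div_le_iff₀ (by positivity)]
      nlinarith [sq_nonneg (x ^ 3)]
  have h := hmono (Set.mem_Ici.2 (le_refl 0)) (Set.mem_Ici.2 hx) hx
  simp at h
  linarith

theorem harc : (1 + 1 / 2000) * (1 + 1 / 10000) ^ 2 * (2 / π * arctan (2499 / 10000)) ≤ om := by
  have h1 : arctan (2499 / 10000) ≤ 2449 / 10000 :=
    (arctan_le_poly (by norm_num)).trans (by norm_num)
  have hπ : 3.1415 < π := Real.pi_gt_d4
  have h0 : 0 ≤ arctan (2499 / 10000 : ℝ) := Real.arctan_nonneg.2 (by norm_num)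
  have h2 : 2 / π * arctan (2499 / 10000) ≤ 2 / 3.1415 * (2449 / 10000) := by
    apply mul_le_mul _ h1 h0 (by norm_num)
    apply div_le_div_of_nonneg_left (by norm_num) (by norm_num) hπ.le
  unfold om
  refine (mul_le_mul_of_nonneg_left h2 (by norm_num)).trans ?_
  norm_num

theorem LL_gt : 27718 / 10000 < LL 2000 := by
  have e16 : log 16 = 4 * log 2 := by
    rw [show (16 : ℝ) = 2 ^ 4 by norm_num, Real.log_pow]; norm_num
  have e4 : log 4 = 2 * log 2 := by
    rw [show (4 : ℝ) = 2 ^ 2 by norm_num, Real.log_pow]; norm_num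
  have := Real.log_two_gt_d9
  unfold LL
  rw [e16, e4]
  push_cast
  linarith

theorem mm_pos {c : ℝ} (h2 : c ≤ 11 / 10) : 0 < mm 2000 c := by
  have := LL_gt
  unfold mm om
  apply div_pos (by linarith) (by linarith)

theorem cn_le {c : ℝ} (h1 : 94 / 100 ≤ c) (h2 : c ≤ 11 / 10) :
    cn 2000 c ≤ c - 1 / 1000000 := by
  have hL := LL_gt
  have hπ : π < 3.1416 := Real.pi_lt_d4
  have hhp : hp ≤ 31.416 / 2499 := by
    unfold hp; linarith
  have hh := hp_pos
  have hnum : 0 < 1 - c + c * om + 1 / 1000000 := by unfold om; linarith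
  have hm : mm 2000 c ≤ (1 - c + c * om + 1 / 1000000) / (27718 / 10000) := by
    unfold mm
    apply div_le_div_of_nonneg_left hnum.le (by norm_num) hL.le
  have hmh : mm 2000 c * hp ≤ (1 - c + c * om + 1 / 1000000) / (27718 / 10000) * (31.416 / 2499) :=
    mul_le_mul hm hhp hh.le (by positivity)
  unfold cn
  refine (add_le_add_right hmh _).trans ?_
  unfold om
  norm_num
  linarith

theorem adm_step {c : ℝ} (h1 : 94 / 100 ≤ c) (h2 : c ≤ 11 / 10) (h : Adm c) :
    Adm (cn 2000 c) := by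
  obtain ⟨ι, _, a, ξ, η, X, hC, hsum⟩ := h
  have hη : ∀ j, 0 ≤ toIcoMod Real.two_pi_pos 0 (η j) ∧
      toIcoMod Real.two_pi_pos 0 (η j) < 2 * π := by
    intro j
    have := toIcoMod_mem_Ico Real.two_pi_pos 0 (η j)
    rw [zero_add] at this
    exact this
  obtain ⟨K, hK, hC'⟩ := Conf.step (n := 2000) (by norm_num) hC.normalise hη hsum (by linarith)
    (mm_pos h2) (by have := LL_gt; linarith) harc
  refine ⟨_, inferInstance, _, _, _, _, hC', ?_⟩
  rw [sum_new hK (by norm_num), hsum]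
  rfl

theorem adm_base : Adm (21 / 20) := by
  obtain ⟨Y, hY0, hY⟩ := gg_lim (ξ := 1) one_pos (show (0 : ℝ) < 1 / 100 by norm_num)
  refine ⟨Unit, inferInstance, fun _ => 21 / 20, fun _ => 1, fun _ => 0, max Y 2, ?_, ?_⟩
  · refine ⟨fun _ => by norm_num, fun _ => one_pos, lt_max_of_lt_left hY0, fun y => ?_⟩
    refine ⟨max Y 2, lt_max_of_lt_left hY0, le_rfl, fun _ => ?_, ?_⟩
    · apply D_pos_of_ne
      have : (2 : ℝ) ≤ max Y 2 := le_max_right _ _
      intro h
      linarith
    · unfold pot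
      have := (hY (max Y 2) (le_max_left _ _) y 0).1
      simp only [Finset.univ_unique, Finset.sum_singleton]
      linarith
  · simp

theorem adm_pos {c : ℝ} (h : Adm c) : 0 < c := by
  obtain ⟨ι, _, a, ξ, η, X, hC, hsum⟩ := h
  rw [← hsum]
  apply Finset.sum_pos
  · intro j _
    exact mul_pos (hC.a_pos j) (hC.xi_pos j)
  · rw [Finset.univ_nonempty_iff]
    by_contra hne
    rw [not_nonempty_iff] at hne
    obtain ⟨x, _, _, _, h4⟩ := hC.line 0
    unfold pot at h4
    rw [Finset.sum_of_isEmpty] at h4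
    linarith

theorem adm_small : ∃ c : ℝ, Adm c ∧ c < 94 / 100 := by
  by_contra hcon
  push Not at hcon
  obtain ⟨S, hS⟩ : ∃ S : Set ℝ, S = {c : ℝ | Adm c} := ⟨_, rfl⟩
  have hb : BddBelow S := ⟨94 / 100, fun c hc => hcon c (by rw [hS] at hc; exact hc)⟩
  have hne : S.Nonempty := ⟨21 / 20, by rw [hS]; exact adm_base⟩
  have hi : sInf S ≤ 21 / 20 := csInf_le hb (by rw [hS]; exact adm_base)
  obtain ⟨c, hcS, hclt⟩ := exists_lt_of_csInf_lt hne (show sInf S < sInf S + 1 / 1000000 by linarith)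
  have hc : Adm c := by rw [hS] at hcS; exact hcS
  have h1 := hcon c hc
  have h2 : c ≤ 11 / 10 := by linarith
  have h3 := adm_step h1 h2 hc
  have h4 := cn_le h1 h2
  have h5 : sInf S ≤ cn 2000 c := csInf_le hb (by rw [hS]; exact h3)
  linarith

/-- **Upper bound**: a function of the class `S(1)` with `u 1 > -47/100`. -/
theorem upper : ∃ u : ℂ → EReal, ClassS 1 u ∧ ((-(47 / 100) : ℝ) : EReal) < u 1 := by
  obtain ⟨c, hc, hlt⟩ := adm_small
  have hc0 := adm_pos hc
  obtain ⟨u, hu, h1⟩ := of_adm hc0 (by linarith) (show 0 < (94 / 100 - c) / 8 by linarith) hc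
  refine ⟨u, hu, lt_trans ?_ h1⟩
  rw [EReal.coe_lt_coe_iff]
  linarith

end HallV
end
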